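import Pool.Agent.SqLen.Conv

/-! BETTER: a based diagram which is not injective is not minimal. -/

set_option autoImplicit false

namespace Pool.Agent.SqLen

namespace BETTER_

variable {G : Type} [Group G] (D : Ribbon G)

/-- lengths of non-empty reduced closed paths with trivial label -/
def P (n : ℕ) : Prop :=
  ∃ (c : D.C) (l : List D.C), l.length = n ∧ D.IsPath c l c ∧ D.Reduced l ∧ l ≠ [] ∧
    D.label l = 1

theorem sub {c : D.C} {l : List D.C} (hp : D.IsPath c l c) (hr : D.Reduced l)
    (i j : ℕ) (hi : i < l.length) (hj : j < l.length) (hij : i < j) (hd : D.disc l[i] l[j])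
    (hl : D.label (l.take i) = D.label (l.take j)) : P D (j - i) := by
  set m := (l.drop i).take (j - i) with hm
  have e1 : l = l.take i ++ (m ++ l.drop j) := by
    have : l.drop j = (l.drop i).drop (j - i) := by
      rw [List.drop_drop]
      congr 1
      omega
    rw [this, hm, List.take_append_drop, List.take_append_drop]
  have e2 : l.take j = l.take i ++ m := by
    rw [hm, List.take_drop]
    have : i + (j - i) = j := by omega
    rw [this]
    have h3 : l.take i = (l.take j).take i := by
      rw [List.take_take]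
      congr 1
      omega
    rw [h3, List.take_append_drop]
  have e3 : D.label m = 1 := by
    rw [e2, D.label_append] at hl
    simpa using hl.symm
  have e4 : m = l[i] :: m.tail := by
    rw [hm, List.drop_eq_getElem_cons hi]
    have : j - i = (j - i - 1) + 1 := by omega
    rw [this, List.take_succ_cons]
    rfl
  have e5 : l.drop j = l[j] :: l.drop (j + 1) := List.drop_eq_getElem_cons hj
  have hlen : m.length = j - i := by
    rw [hm, List.length_take, List.length_drop]
    omega
  rw [e1] at hp
  obtain ⟨d, _, hd2⟩ := Ribbon.isPath_append D hp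
  obtain ⟨d', hd3, hd4⟩ := Ribbon.isPath_append D hd2
  have h1 : D.disc d l[i] := by
    rw [e4] at hd3
    exact hd3.1
  have h2 : D.disc d' l[j] := by
    rw [e5] at hd4
    exact hd4.1
  refine ⟨l[i], m, hlen, ?_, ?_, ?_, e3⟩
  · exact Ribbon.IsPath.right D (Ribbon.IsPath.left D hd3 (D.disc_symm h1))
      (D.disc_trans h2 (D.disc_symm hd))
  · exact List.IsChain.take (List.IsChain.drop hr i) (j - i)
  · intro h
    rw [h] at hlen
    simp at hlen
    omega

end BETTER_

open BETTER_ in
theorem p_BETTER (h1 : T_COVER) (h2 : T_FOLD) (h3 : T_EDGES) : T_BETTER := by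
  intro α w D hb hne hi
  classical
  have hex : ∃ n, P D.toRibbon n := by
    unfold Ribbon.Injective at hi
    push Not at hi
    obtain ⟨c, l, hp, hr, hl, hlab⟩ := hi
    exact ⟨l.length, c, l, rfl, hp, hr, hl, hlab⟩
  obtain ⟨c, l, hlen, hp, hr, hl, hlab⟩ := Nat.find_spec hex
  have key : ∀ (i j : ℕ) (hi : i < l.length) (hj : j < l.length), i < j → D.disc l[i] l[j] →
      D.label (l.take i) ≠ D.label (l.take j) := by
    intro i j hi hj hij hd hlb
    have := sub D.toRibbon hp hr i j hi hj hij hd hlb
    exact Nat.find_min hex (by omega) this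
  obtain ⟨D1, k, e1, l1, hk, hb1, hC1, hdeg1, hnd1, hp1, hl1, hlab1, hr1, hn1⟩ :=
    h1 α w D c l hb hp hl hlab hr key
  obtain ⟨D2, hb2, hC2, hdeg2, hnd2⟩ :=
    h2 α w D1 e1 l1 hb1 hp1 hl1 hlab1 hn1 (h3 _ D1.toRibbon e1 l1 hp1 hr1 hn1)
  have hdeg : 0 < D.deg := CONV_.deg_pos D hne
  refine ⟨D2, hb2, ?_, ?_⟩
  · have : 0 < Nat.card D2.C := by
      rw [hC2, hC1]
      exact Nat.mul_pos hk Nat.card_pos
    exact (Nat.card_pos_iff.1 this).1
  · unfold Ribbon.negChi
    rw [hC2, hC1, hdeg2, hdeg1]
    have h4 : (k : ℝ) * D.numDiscs + 1 ≤ D2.numDiscs := by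
      rw [hnd1] at hnd2
      exact_mod_cast hnd2
    have h5 : (0 : ℝ) < D.deg := by exact_mod_cast hdeg
    push_cast
    nlinarith

end Pool.Agent.SqLen
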