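import Pool.Agent.SqLen.Targets

/-! CAT: boundary connected sum of gluings. -/

set_option autoImplicit false

namespace Pool.Agent.SqLen

namespace CAT_

variable {α : Type}

section

variable {W V : List (α × Bool)}

theorem len : (W ++ V).length = W.length + V.length := by simp

/-- positions of the first word -/
def i1 (i : Fin W.length) : Fin (W ++ V).length :=
  ⟨i, by rw [len]; omega⟩

/-- positions of the second word -/
def i2 (j : Fin V.length) : Fin (W ++ V).length :=
  ⟨W.length + j, by rw [len]; omega⟩

theorem get_i1 (i : Fin W.length) : (W ++ V).get (i1 i) = W.get i := by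
  simp [i1, List.get_eq_getElem, List.getElem_append_left]

theorem get_i2 (j : Fin V.length) : (W ++ V).get (i2 j) = V.get j := by
  simp [i2, List.get_eq_getElem]

theorem cases' {P : Fin (W ++ V).length → Prop} (h1 : ∀ i, P (i1 i)) (h2 : ∀ j, P (i2 j)) :
    ∀ x, P x := by
  intro x
  by_cases h : (x : ℕ) < W.length
  · exact h1 ⟨x, h⟩
  · have hx : (x : ℕ) < W.length + V.length := lt_of_lt_of_eq x.2 len
    have := h2 ⟨x - W.length, by omega⟩
    have e : (i2 ⟨x - W.length, by omega⟩ : Fin (W ++ V).length) = x := by
      apply Fin.ext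
      simp only [i2]
      omega
    rwa [e] at this

/-- elimination -/
def elim {β : Type} (f : Fin W.length → β) (g : Fin V.length → β) (x : Fin (W ++ V).length) : β :=
  if h : (x : ℕ) < W.length then f ⟨x, h⟩
  else g ⟨x - W.length, by
    have hx : (x : ℕ) < W.length + V.length := lt_of_lt_of_eq x.2 len
    omega⟩

theorem elim_i1 {β : Type} (f : Fin W.length → β) (g : Fin V.length → β) (i : Fin W.length) :
    elim f g (i1 i) = f i := by
  unfold elim
  rw [dif_pos (show ((i1 i : Fin (W ++ V).length) : ℕ) < W.length from i.2)]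
  rfl

theorem elim_i2 {β : Type} (f : Fin W.length → β) (g : Fin V.length → β) (j : Fin V.length) :
    elim f g (i2 j) = g j := by
  unfold elim
  rw [dif_neg (show ¬ ((i2 j : Fin (W ++ V).length) : ℕ) < W.length by simp [i2])]
  congr 1
  apply Fin.ext
  simp [i2]

theorem i1_inj {i j : Fin W.length} (h : (i1 i : Fin (W ++ V).length) = i1 j) : i = j := by
  have := congrArg Fin.val h
  exact Fin.ext this

theorem i2_inj {i j : Fin V.length} (h : (i2 i : Fin (W ++ V).length) = i2 j) : i = j := by
  have := congrArg Fin.val h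
  simp only [i2] at this
  apply Fin.ext
  omega

/-- the gluing of the concatenation -/
def cat (G : Glu W) (H : Glu V) : Glu (W ++ V) where
  g := elim (fun i => i1 (G.g i)) (fun j => i2 (H.g j))
  gg := by
    refine cases' (fun i => ?_) (fun j => ?_)
    · rw [elim_i1, elim_i1, G.gg]
    · rw [elim_i2, elim_i2, H.gg]
  ne := by
    refine cases' (fun i => ?_) (fun j => ?_)
    · rw [elim_i1]
      intro h
      exact G.ne i (i1_inj h)
    · rw [elim_i2]
      intro h
      exact H.ne j (i2_inj h)
  gen := by
    refine cases' (fun i => ?_) (fun j => ?_)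
    · rw [elim_i1, get_i1, get_i1, G.gen]
    · rw [elim_i2, get_i2, get_i2, H.gen]

theorem cat_short1 (G : Glu W) (H : Glu V) (i : Fin W.length) (b : Bool) :
    (cat G H).short (i1 i, b) = (i1 (G.short (i, b)).1, (G.short (i, b)).2) := by
  have h1 : (cat G H).g (i1 i) = i1 (G.g i) :=
    elim_i1 (fun i => i1 (G.g i)) (fun j => i2 (H.g j)) i
  unfold Glu.short
  simp only [h1, get_i1]

theorem cat_short2 (G : Glu W) (H : Glu V) (j : Fin V.length) (b : Bool) :
    (cat G H).short (i2 j, b) = (i2 (H.short (j, b)).1, (H.short (j, b)).2) := by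
  have h1 : (cat G H).g (i2 j) = i2 (H.g j) :=
    elim_i2 (fun i => i1 (G.g i)) (fun j => i2 (H.g j)) j
  unfold Glu.short
  simp only [h1, get_i2]

theorem rot_disc {U : List (α × Bool)} (G : Glu U) (i : Fin U.length) :
    (Quotient.mk G.dia.disc (finRotate U.length i, false)) = Quotient.mk G.dia.disc (i, true) := by
  refine Quotient.sound ?_
  have h := G.dia.disc_arc (i, true)
  exact G.dia.disc_symm h

open Classical in
/-- the map to the discs of the two surfaces -/
noncomputable def phi (G : Glu W) (H : Glu V) (g0 : Quotient G.dia.disc)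
    (h0 : Quotient H.dia.disc) (u : ET (W ++ V)) : Quotient G.dia.disc ⊕ Quotient H.dia.disc :=
  elim (fun i => Sum.inl (Quotient.mk G.dia.disc (i, u.2)))
    (fun j => if Quotient.mk H.dia.disc (j, u.2) = h0 then Sum.inl g0
      else Sum.inr (Quotient.mk H.dia.disc (j, u.2))) u.1

theorem phi_short (G : Glu W) (H : Glu V) (g0 : Quotient G.dia.disc)
    (h0 : Quotient H.dia.disc) (u : ET (W ++ V)) :
    phi G H g0 h0 ((cat G H).short u) = phi G H g0 h0 u := by
  rcases u with ⟨x, b⟩
  revert x
  refine cases' (fun i => ?_) (fun j => ?_)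
  · rw [cat_short1]
    unfold phi
    simp only [elim_i1]
    congr 1
    refine Quotient.sound ?_
    exact G.dia.disc_symm (G.dia.disc_short (i, b))
  · rw [cat_short2]
    unfold phi
    simp only [elim_i2]
    have e : (Quotient.mk H.dia.disc ((H.short (j, b)).1, (H.short (j, b)).2)) =
        Quotient.mk H.dia.disc (j, b) := by
      refine Quotient.sound ?_
      exact H.dia.disc_symm (H.dia.disc_short (j, b))
    rw [e]

theorem phi_rot (G : Glu W) (H : Glu V) (lw : Fin W.length) (lv : Fin V.length)
    (hw : (lw : ℕ) + 1 = W.length) (hv : (lv : ℕ) + 1 = V.length)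
    (x : Fin (W ++ V).length) :
    phi G H (Quotient.mk G.dia.disc (lw, true)) (Quotient.mk H.dia.disc (lv, true))
      (finRotate (W ++ V).length x, false) =
    phi G H (Quotient.mk G.dia.disc (lw, true)) (Quotient.mk H.dia.disc (lv, true)) (x, true) := by
  revert x
  refine cases' (fun i => ?_) (fun j => ?_)
  · by_cases h : (i : ℕ) + 1 < W.length
    · have e : finRotate (W ++ V).length (i1 i) = i1 (finRotate W.length i) := by
        apply Fin.ext
        rw [finRotate_val]
        simp only [i1]
        rw [finRotate_val, Nat.mod_eq_of_lt h, Nat.mod_eq_of_lt (by rw [len]; omega)]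
      rw [e]
      unfold phi
      simp only [elim_i1]
      rw [rot_disc]
    · have hi : i = lw := by apply Fin.ext; omega
      subst hi
      have hV : 0 < V.length := by omega
      have e : finRotate (W ++ V).length (i1 i) = i2 (finRotate V.length lv) := by
        apply Fin.ext
        rw [finRotate_val]
        simp only [i1, i2]
        rw [finRotate_val, hv, Nat.mod_self, Nat.mod_eq_of_lt (by rw [len]; omega)]
        omega
      rw [e]
      unfold phi
      simp only [elim_i1, elim_i2]
      rw [rot_disc, if_pos rfl]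
  · by_cases h : (j : ℕ) + 1 < V.length
    · have e : finRotate (W ++ V).length (i2 j) = i2 (finRotate V.length j) := by
        apply Fin.ext
        rw [finRotate_val]
        simp only [i2]
        rw [finRotate_val, Nat.mod_eq_of_lt h, Nat.mod_eq_of_lt (by rw [len]; omega)]
        omega
      rw [e]
      unfold phi
      simp only [elim_i2]
      rw [rot_disc]
    · have hj : j = lv := by apply Fin.ext; omega
      subst hj
      have e : finRotate (W ++ V).length (i2 j) = i1 (finRotate W.length lw) := by
        apply Fin.ext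
        rw [finRotate_val]
        simp only [i1, i2]
        rw [finRotate_val, hw, Nat.mod_self]
        have : W.length + (j : ℕ) + 1 = (W ++ V).length := by rw [len]; omega
        rw [this, Nat.mod_self]
      rw [e]
      unfold phi
      simp only [elim_i1, elim_i2]
      rw [rot_disc]
      exact (if_pos trivial).symm

theorem phi_arc (G : Glu W) (H : Glu V) (lw : Fin W.length) (lv : Fin V.length)
    (hw : (lw : ℕ) + 1 = W.length) (hv : (lv : ℕ) + 1 = V.length)
    (u : ET (W ++ V)) :
    phi G H (Quotient.mk G.dia.disc (lw, true)) (Quotient.mk H.dia.disc (lv, true)) (ecor u) =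
    phi G H (Quotient.mk G.dia.disc (lw, true)) (Quotient.mk H.dia.disc (lv, true)) u := by
  rcases u with ⟨x, b⟩
  cases b
  · rw [ecor_false]
    have h := phi_rot G H lw lv hw hv ((finRotate (W ++ V).length).symm x)
    rw [Equiv.apply_symm_apply] at h
    exact h.symm
  · rw [ecor_true]
    exact phi_rot G H lw lv hw hv x

theorem main (G : Glu W) (H : Glu V) (hW : W ≠ []) (hV : V ≠ []) :
    G.nd + H.nd ≤ (cat G H).nd + 1 := by
  classical
  have hW' : 0 < W.length := List.length_pos_iff.2 hW
  have hV' : 0 < V.length := List.length_pos_iff.2 hV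
  obtain ⟨lw, hw⟩ : ∃ lw : Fin W.length, (lw : ℕ) + 1 = W.length :=
    ⟨⟨W.length - 1, by omega⟩, by simp only; omega⟩
  obtain ⟨lv, hv⟩ : ∃ lv : Fin V.length, (lv : ℕ) + 1 = V.length :=
    ⟨⟨V.length - 1, by omega⟩, by simp only; omega⟩
  set g0 := Quotient.mk G.dia.disc (lw, true) with hg0
  set h0 := Quotient.mk H.dia.disc (lv, true) with hh0
  have fG : Finite (Quotient G.dia.disc) :=
    @Quotient.finite _ (inferInstanceAs (Finite (ET W))) G.dia.disc
  have fH : Finite (Quotient H.dia.disc) :=
    @Quotient.finite _ (inferInstanceAs (Finite (ET V))) H.dia.disc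
  have fK : Finite (Quotient (cat G H).dia.disc) :=
    @Quotient.finite _ (inferInstanceAs (Finite (ET (W ++ V)))) (cat G H).dia.disc
  let F : Quotient (cat G H).dia.disc → Quotient G.dia.disc ⊕ Quotient H.dia.disc :=
    Quotient.lift (fun u => phi G H g0 h0 u) (fun a b hab => by
      refine (cat G H).dia.disc_le (fun u => phi G H g0 h0 u) (fun c => ?_) (fun c => ?_) hab
      · exact phi_arc G H lw lv hw hv c
      · exact phi_short G H g0 h0 c)
  have hsub : (Set.univ \ {Sum.inr h0} : Set (Quotient G.dia.disc ⊕ Quotient H.dia.disc)) ⊆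
      Set.range F := by
    rintro x ⟨-, hx⟩
    rcases x with q | q
    · obtain ⟨⟨i, b⟩, rfl⟩ := Quotient.exists_rep q
      refine ⟨Quotient.mk _ (i1 i, b), ?_⟩
      change phi G H g0 h0 (i1 i, b) = _
      unfold phi
      simp only [elim_i1]
    · obtain ⟨⟨j, b⟩, rfl⟩ := Quotient.exists_rep q
      refine ⟨Quotient.mk _ (i2 j, b), ?_⟩
      change phi G H g0 h0 (i2 j, b) = _
      unfold phi
      simp only [elim_i2]
      rw [if_neg]
      intro h
      exact hx (by rw [Set.mem_singleton_iff]; exact congrArg Sum.inr h)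
  have h1 : (Set.univ \ {Sum.inr h0} : Set (Quotient G.dia.disc ⊕ Quotient H.dia.disc)).ncard + 1
      = G.nd + H.nd := by
    rw [Set.ncard_sdiff_singleton_add_one (Set.mem_univ _) (Set.toFinite _), Set.ncard_univ,
      Nat.card_sum]
    rfl
  have h2 : (Set.univ \ {Sum.inr h0} : Set (Quotient G.dia.disc ⊕ Quotient H.dia.disc)).ncard
      ≤ (Set.range F).ncard := Set.ncard_le_ncard hsub (Set.toFinite _)
  have h3 : (Set.range F).ncard ≤ (cat G H).nd := by
    rw [← Set.image_univ]
    refine (Set.ncard_image_le (Set.toFinite _)).trans ?_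
    rw [Set.ncard_univ]
    exact le_of_eq rfl
  omega

end

end CAT_

/-- CAT -/
theorem p_CAT : T_CAT := fun _ _ _ G H hW hV => ⟨CAT_.cat G H, CAT_.main G H hW hV⟩

end Pool.Agent.SqLen
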