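import Pool.Agent.SqLen.Targets

/-! Job SQL-COUNT. -/

set_option autoImplicit false

namespace Pool.Agent.SqLen

namespace COUNT_

open Equiv

variable {E : Type} [DecidableEq E]

theorem refold_apply (g : Perm E) (a d p s x : E) :
    refold g a d p s x =
      g (swap a d (swap (g a) (g d) (swap p s (swap (g p) (g s) x)))) := by
  simp [refold, Perm.mul_apply]

section vals

variable {g : Perm E} {a d p s : E}

theorem val_other (x : E) (h1 : x ≠ a) (h2 : x ≠ d) (h3 : x ≠ g a) (h4 : x ≠ g d)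
    (h5 : x ≠ p) (h6 : x ≠ s) (h7 : x ≠ g p) (h8 : x ≠ g s) :
    refold g a d p s x = g x := by
  rw [refold_apply, swap_apply_of_ne_of_ne h7 h8, swap_apply_of_ne_of_ne h5 h6,
    swap_apply_of_ne_of_ne h3 h4, swap_apply_of_ne_of_ne h1 h2]

theorem vals (gg : ∀ e, g (g e) = e) (nd : [a, g a, d, g d, p, g p, s, g s].Nodup) :
    refold g a d p s a = g d ∧ refold g a d p s d = g a ∧
    refold g a d p s (g a) = d ∧ refold g a d p s (g d) = a ∧
    refold g a d p s p = g s ∧ refold g a d p s s = g p ∧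
    refold g a d p s (g p) = s ∧ refold g a d p s (g s) = p := by
  simp only [List.nodup_cons, List.mem_cons, List.not_mem_nil, or_false, not_or,
    List.nodup_nil, and_true] at nd
  obtain ⟨⟨a1, a2, a3, a4, a5, a6, a7⟩, ⟨b1, b2, b3, b4, b5, b6⟩, ⟨c1, c2, c3, c4, c5⟩,
    ⟨d1, d2, d3, d4⟩, ⟨e1, e2, e3⟩, ⟨f1, f2⟩, g1, -⟩ := nd
  refine ⟨?_, ?_, ?_, ?_, ?_, ?_, ?_, ?_⟩
  · rw [refold_apply, swap_apply_of_ne_of_ne a5 a7, swap_apply_of_ne_of_ne a4 a6,
      swap_apply_of_ne_of_ne a1 a3, swap_apply_left]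
  · rw [refold_apply, swap_apply_of_ne_of_ne c3 c5, swap_apply_of_ne_of_ne c2 c4,
      swap_apply_of_ne_of_ne (Ne.symm b1) c1, swap_apply_right]
  · rw [refold_apply, swap_apply_of_ne_of_ne b4 b6, swap_apply_of_ne_of_ne b3 b5,
      swap_apply_left, swap_apply_of_ne_of_ne (Ne.symm a3) (Ne.symm c1), gg]
  · rw [refold_apply, swap_apply_of_ne_of_ne d2 d4, swap_apply_of_ne_of_ne d1 d3,
      swap_apply_right, swap_apply_of_ne_of_ne (Ne.symm a1) b1, gg]
  · rw [refold_apply, swap_apply_of_ne_of_ne e1 e3, swap_apply_left,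
      swap_apply_of_ne_of_ne (Ne.symm b5) (Ne.symm d3),
      swap_apply_of_ne_of_ne (Ne.symm a6) (Ne.symm c4)]
  · rw [refold_apply, swap_apply_of_ne_of_ne (Ne.symm f1) g1, swap_apply_right,
      swap_apply_of_ne_of_ne (Ne.symm b3) (Ne.symm d1),
      swap_apply_of_ne_of_ne (Ne.symm a4) (Ne.symm c2)]
  · rw [refold_apply, swap_apply_left, swap_apply_of_ne_of_ne (Ne.symm e3) (Ne.symm g1),
      swap_apply_of_ne_of_ne (Ne.symm b6) (Ne.symm d4),
      swap_apply_of_ne_of_ne (Ne.symm a7) (Ne.symm c5), gg]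
  · rw [refold_apply, swap_apply_right, swap_apply_of_ne_of_ne (Ne.symm e1) f1,
      swap_apply_of_ne_of_ne (Ne.symm b4) (Ne.symm d2),
      swap_apply_of_ne_of_ne (Ne.symm a5) (Ne.symm c3), gg]

/-- the new pairing is a fixed-point free involution -/
theorem invol (gg : ∀ e, g (g e) = e) (gne : ∀ e, g e ≠ e)
    (nd : [a, g a, d, g d, p, g p, s, g s].Nodup) :
    (∀ e, refold g a d p s (refold g a d p s e) = e) ∧ (∀ e, refold g a d p s e ≠ e) := by
  obtain ⟨v1, v2, v3, v4, v5, v6, v7, v8⟩ := vals gg nd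
  have nd' := nd
  simp only [List.nodup_cons, List.mem_cons, List.not_mem_nil, or_false, not_or,
    List.nodup_nil, and_true] at nd
  obtain ⟨⟨a1, a2, a3, a4, a5, a6, a7⟩, ⟨b1, b2, b3, b4, b5, b6⟩, ⟨c1, c2, c3, c4, c5⟩,
    ⟨d1, d2, d3, d4⟩, ⟨e1, e2, e3⟩, ⟨f1, f2⟩, g1, -⟩ := nd
  have key : ∀ x, refold g a d p s (refold g a d p s x) = x ∧ refold g a d p s x ≠ x := by
    intro x
    by_cases h1 : x = a
    · rw [h1, v1, v4]; exact ⟨rfl, Ne.symm a3⟩
    by_cases h2 : x = d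
    · rw [h2, v2, v3]; exact ⟨rfl, b1⟩
    by_cases h3 : x = g a
    · rw [h3, v3, v2]; exact ⟨rfl, Ne.symm b1⟩
    by_cases h4 : x = g d
    · rw [h4, v4, v1]; exact ⟨rfl, a3⟩
    by_cases h5 : x = p
    · rw [h5, v5, v8]; exact ⟨rfl, Ne.symm e3⟩
    by_cases h6 : x = s
    · rw [h6, v6, v7]; exact ⟨rfl, f1⟩
    by_cases h7 : x = g p
    · rw [h7, v7, v6]; exact ⟨rfl, Ne.symm f1⟩
    by_cases h8 : x = g s
    · rw [h8, v8, v5]; exact ⟨rfl, e3⟩
    have hx := val_other (g := g) x h1 h2 h3 h4 h5 h6 h7 h8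
    have hgx : refold g a d p s (g x) = g (g x) := by
      apply val_other
      · rintro rfl; exact h3 (gg x).symm
      · rintro rfl; exact h4 (gg x).symm
      · intro h; exact h1 (g.injective h)
      · intro h; exact h2 (g.injective h)
      · rintro rfl; exact h7 (gg x).symm
      · rintro rfl; exact h8 (gg x).symm
      · intro h; exact h5 (g.injective h)
      · intro h; exact h6 (g.injective h)
    rw [hx, hgx, gg]
    exact ⟨rfl, gne x⟩
  exact ⟨fun e => (key e).1, fun e => (key e).2⟩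

end vals

end COUNT_

open COUNT_ in
/-- COUNT from HALF and SWAP -/
theorem p_COUNT (h1 : T_HALF) (h2 : T_SWAP) : T_COUNT := by
  intro E _ _ k g a d p s F
  obtain ⟨kk, gg, kne, gne, nd, cyc, ap, as⟩ := F
  obtain ⟨inv', ne'⟩ := invol gg gne nd
  obtain ⟨hN, hE, hC, hO⟩ := h1 E k g kk gg kne gne
  obtain ⟨hN', -, -, -⟩ := h1 E k (refold g a d p s) kk inv' kne ne'
  have hmul : k * refold g a d p s =
      k * g * Equiv.swap a d * Equiv.swap (g a) (g d) * Equiv.swap p s *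
        Equiv.swap (g p) (g s) := by
    simp only [refold, mul_assoc]
  rw [hmul] at hN'
  simp only [List.nodup_cons, List.mem_cons, List.not_mem_nil, or_false, not_or,
    List.nodup_nil, and_true] at nd
  obtain ⟨⟨a1, a2, a3, a4, a5, a6, a7⟩, ⟨b1, b2, b3, b4, b5, b6⟩, ⟨c1, c2, c3, c4, c5⟩,
    ⟨d1, d2, d3, d4⟩, ⟨e1, e2, e3⟩, ⟨f1, f2⟩, g1, -⟩ := nd
  set σ0 : Equiv.Perm E := k * g with hσ0
  obtain ⟨-, s1b, -, s1d⟩ := h2 E σ0 a d a2
  set σ1 : Equiv.Perm E := σ0 * Equiv.swap a d with hσ1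
  obtain ⟨-, s2b, -, s2d⟩ := h2 E σ1 (g a) (g d) b2
  set σ2 : Equiv.Perm E := σ1 * Equiv.swap (g a) (g d) with hσ2
  obtain ⟨s3a, s3b, s3c, s3d⟩ := h2 E σ2 p s e2
  set σ3 : Equiv.Perm E := σ2 * Equiv.swap p s with hσ3
  obtain ⟨s4a, s4b, -, -⟩ := h2 E σ3 (g p) (g s) f2
  set σ4 : Equiv.Perm E := σ3 * Equiv.swap (g p) (g s) with hσ4
  -- the first two swaps
  have t1 := s1b cyc
  have ga_a : ¬ σ0.SameCycle (g a) a := fun h => hE a h.symm
  have ga_d : ¬ σ0.SameCycle (g a) d := fun h => hE a ((h.trans cyc.symm).symm)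
  have t2 := s2b ((s1d (g a) (g d) ga_a ga_d).1 ((hC a d).1 cyc))
  have hlow : nOrb k g ≤ nOrb k (refold g a d p s) := by omega
  refine ⟨hlow, fun hps => ?_⟩
  -- elements of the disc of `p` are not affected by the first two swaps
  have far : ∀ x, ¬ (orb k g) a x → ¬ σ0.SameCycle x a ∧ ¬ σ0.SameCycle x d ∧
      ¬ σ0.SameCycle x (g a) ∧ ¬ σ0.SameCycle x (g d) := by
    intro x hx
    have x1 : ¬ σ0.SameCycle x a := fun h => hx ((hO a x).2 (Or.inl h.symm))
    have x3 : ¬ σ0.SameCycle x (g a) := by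
      intro h
      have h' := (hC x (g a)).1 h
      rw [gg] at h'
      exact hx ((hO a x).2 (Or.inr h'.symm))
    refine ⟨x1, fun h => x1 (h.trans cyc.symm), x3, fun h => x3 (h.trans ?_)⟩
    exact ((hC a d).1 cyc).symm
  have same : ∀ x y, ¬ (orb k g) a x → (σ0.SameCycle x y ↔ σ2.SameCycle x y) := by
    intro x y hx
    obtain ⟨x1, x2, x3, x4⟩ := far x hx
    rw [s1d x y x1 x2]
    apply s2d x y
    · rw [← s1d x (g a) x1 x2]; exact x3
    · rw [← s1d x (g d) x1 x2]; exact x4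
  have ogp : ¬ (orb k g) a (g p) := by
    intro h
    exact ap ((orb k g).trans' h ((orb k g).symm' (Relation.EqvGen.rel _ _ (Or.inr rfl))))
  have nps : ¬ σ0.SameCycle (g p) p := fun h => hE p h.symm
  rcases (hO p s).1 hps with hsame | hsame
  · -- `p` and `s` are in one cycle
    have t3 := s3b ((same p s ap).1 hsame)
    have q1 : ¬ σ2.SameCycle (g p) p := by rw [← same _ _ ogp]; exact nps
    have q2 : ¬ σ2.SameCycle (g p) s := by
      rw [← same _ _ ogp]
      exact fun h => nps (h.trans hsame.symm)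
    have t4 := s4b ((s3d (g p) (g s) q1 q2).1 ((same _ _ ogp).1 ((hC p s).1 hsame)))
    omega
  · -- `p` and `g s` are in one cycle
    have n2 : ¬ σ2.SameCycle p s := by
      rw [← same _ _ ap]
      intro h
      exact hE s (h.symm.trans hsame)
    obtain ⟨m1, m2⟩ := s3c n2
    have m3 : σ3.SameCycle p (g s) := m2 _ _ ((same _ _ ap).1 hsame)
    have m4 : σ3.SameCycle (g p) s := by
      have h' := (hC p (g s)).1 hsame
      rw [gg] at h'
      exact m2 _ _ ((same _ _ ogp).1 h')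
    have t4 := s4b ((m4.trans m1.symm).trans m3)
    omega

end Pool.Agent.SqLen
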