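import Pool.Agent.SqLen.Targets

/-! COVER: a finite cover in which the path becomes simple. -/

set_option autoImplicit false

namespace Pool.Agent.SqLen

namespace COVER_

open Classical in
/-- the permutation of `S` extending right multiplication by `x` -/
noncomputable def pm {α : Type} (S : Set (FreeGroup α)) [Finite S] (x : FreeGroup α) :
    Equiv.Perm S :=
  letI : Fintype S := Fintype.ofFinite S
  Equiv.extendSubtype
    (p := fun s : S => s.1 * x ∈ S) (q := fun t : S => t.1 * x⁻¹ ∈ S)
    { toFun := fun s => ⟨⟨s.1.1 * x, s.2⟩, by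
        show s.1.1 * x * x⁻¹ ∈ S
        rw [mul_inv_cancel_right]; exact s.1.2⟩
      invFun := fun t => ⟨⟨t.1.1 * x⁻¹, t.2⟩, by
        show t.1.1 * x⁻¹ * x ∈ S
        rw [inv_mul_cancel_right]; exact t.1.2⟩
      left_inv := fun s => by
        apply Subtype.ext; apply Subtype.ext
        show s.1.1 * x * x⁻¹ = s.1.1
        rw [mul_inv_cancel_right]
      right_inv := fun t => by
        apply Subtype.ext; apply Subtype.ext
        show t.1.1 * x⁻¹ * x = t.1.1
        rw [inv_mul_cancel_right] }

theorem pm_apply {α : Type} (S : Set (FreeGroup α)) [Finite S] (x : FreeGroup α) (s : S)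
    (hs : s.1 * x ∈ S) : pm S x s = ⟨s.1 * x, hs⟩ := by
  classical
  unfold pm
  rw [Equiv.extendSubtype_apply_of_mem _ s hs]
  rfl

/-- the right action of the free group -/
noncomputable def rho {α : Type} (S : Set (FreeGroup α)) [Finite S] :
    FreeGroup α →* (Equiv.Perm S)ᵐᵒᵖ :=
  FreeGroup.lift fun a => MulOpposite.op (pm S (FreeGroup.of a))

noncomputable def act {α : Type} (S : Set (FreeGroup α)) [Finite S] (s : S)
    (g : FreeGroup α) : S := (rho S g).unop s

section act

variable {α : Type} (S : Set (FreeGroup α)) [Finite S]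

theorem act_one (s : S) : act S s 1 = s := by
  simp [act]

theorem act_mul (s : S) (g h : FreeGroup α) : act S s (g * h) = act S (act S s g) h := by
  simp [act]

theorem act_of (s : S) (a : α) (hs : s.1 * FreeGroup.of a ∈ S) :
    act S s (FreeGroup.of a) = ⟨s.1 * FreeGroup.of a, hs⟩ := by
  unfold act rho
  rw [FreeGroup.lift_apply_of]
  exact pm_apply S _ s hs

theorem act_letter (s : S) (x : α × Bool) (hs : s.1 * FreeGroup.mk [x] ∈ S) :
    act S s (FreeGroup.mk [x]) = ⟨s.1 * FreeGroup.mk [x], hs⟩ := by
  rcases x with ⟨a, b⟩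
  cases b with
  | true => exact act_of S s a hs
  | false =>
    have h1 : (FreeGroup.mk [(a, false)] : FreeGroup α) = (FreeGroup.of a)⁻¹ := by
      rw [FreeGroup.of, FreeGroup.inv_mk]; rfl
    set t : S := ⟨s.1 * FreeGroup.mk [(a, false)], hs⟩ with ht
    have h2 : t.1 * FreeGroup.of a = s.1 := by
      show s.1 * FreeGroup.mk [(a, false)] * FreeGroup.of a = s.1
      rw [h1, inv_mul_cancel_right]
    have h3 : act S t (FreeGroup.of a) = s := by
      have h4 : t.1 * FreeGroup.of a ∈ S := by rw [h2]; exact s.2
      rw [act_of S t a h4]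
      exact Subtype.ext h2
    rw [← h3, ← act_mul, h1, mul_inv_cancel, act_one]

end act

section cover

variable {α : Type} {w : List (α × Bool)} (D : Dia w) (S : Set (FreeGroup α)) [Finite S]

/-- the cover -/
noncomputable def cov : Dia w :=
  Dia.ofTypes (D.C × S) (fun c => (D.side c.1, act S c.2 (D.lab c.1)))
    (fun c => (D.short c.1, c.2)) (fun c => (D.arc c.1, c.2)) (fun c => D.ty c.1)
    (fun c => by
      apply Prod.ext
      · exact D.side_side c.1
      · show act S (act S c.2 (D.lab c.1)) (D.lab (D.side c.1)) = c.2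
        rw [← act_mul, D.lab_side, mul_inv_cancel, act_one])
    (fun c => Prod.ext (D.short_short c.1) rfl)
    (fun c => Prod.ext (D.arc_arc c.1) rfl)
    (fun c => by
      apply Prod.ext
      · exact D.side_short c.1
      · show act S c.2 (D.lab (D.short c.1)) = act S c.2 (D.lab c.1)
        rw [D.lab_short])
    (fun c h => D.short_ne c.1 (congrArg Prod.fst h))
    (fun c h => D.side_ne_short c.1 (congrArg Prod.fst h))
    (fun c => D.ty_side c.1)
    (fun c => D.ty_arc c.1)
    (fun c => D.ty_short_lab c.1)

/-- corner of the cover -/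
noncomputable def mkc (c : D.C) (q : S) : (cov D S).C := ((c, q) : D.C × S)

/-- projection -/
noncomputable def p1 (x : (cov D S).C) : D.C := (x : D.C × S).1

/-- location -/
noncomputable def p2 (x : (cov D S).C) : S := (x : D.C × S).2

theorem mkc_p (x : (cov D S).C) : mkc D S (p1 D S x) (p2 D S x) = x := rfl

theorem cov_lab (c : (cov D S).C) : (cov D S).lab c = D.lab (p1 D S c) := (D.lab_eq _).symm

theorem cov_disc {c d : D.C} {q r : S} :
    (cov D S).disc (mkc D S c q) (mkc D S d r) ↔ D.disc c d ∧ q = r := by
  constructor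
  · intro h
    exact (cov D S).disc_le' (r := fun x y : D.C × S => D.disc x.1 y.1 ∧ x.2 = y.2)
      (fun x => ⟨D.disc_refl _, rfl⟩) (fun x y h => ⟨D.disc_symm h.1, h.2.symm⟩)
      (fun x y z h h' => ⟨D.disc_trans h.1 h'.1, h.2.trans h'.2⟩)
      (fun x => ⟨D.disc_arc _, rfl⟩) (fun x => ⟨D.disc_short _, rfl⟩) h
  · rintro ⟨h, rfl⟩
    exact D.disc_le' (r := fun x y : D.C => (cov D S).disc (mkc D S x q) (mkc D S y q))
      (fun x => (cov D S).disc_refl _) (fun x y h => (cov D S).disc_symm h)
      (fun x y z h h' => (cov D S).disc_trans h h')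
      (fun x => (cov D S).disc_arc (mkc D S x q)) (fun x => (cov D S).disc_short (mkc D S x q)) h

theorem cov_disc' {x y : (cov D S).C} :
    (cov D S).disc x y ↔ D.disc (p1 D S x) (p1 D S y) ∧ p2 D S x = p2 D S y := by
  rw [← mkc_p D S x, ← mkc_p D S y, cov_disc]
  rfl

theorem cov_card : Nat.card (cov D S).C = Nat.card S * Nat.card D.C := by
  rw [mul_comm]
  exact Nat.card_prod D.C S

theorem cov_numDiscs : (cov D S).numDiscs = Nat.card S * D.numDiscs := by
  unfold Ribbon.numDiscs
  rw [mul_comm, ← Nat.card_prod]
  refine Nat.card_congr ?_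
  refine
    { toFun := Quotient.lift (fun x => (Quotient.mk D.disc (p1 D S x), p2 D S x)) ?_
      invFun := fun y => Quotient.lift (fun c : D.C =>
        (Quotient.mk (cov D S).disc (mkc D S c y.2))) ?_ y.1
      left_inv := ?_
      right_inv := ?_ }
  · intro x y h
    have h' := (cov_disc' D S).1 h
    exact Prod.ext (Quotient.sound h'.1) h'.2
  · intro c d h
    exact Quotient.sound ((cov_disc D S).2 ⟨h, rfl⟩)
  · intro x
    induction x using Quotient.inductionOn with
    | h x => rfl
  · rintro ⟨x, q⟩
    induction x using Quotient.inductionOn with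
    | h x => rfl

theorem cov_deg : (cov D S).deg = Nat.card S * D.deg := by
  unfold Dia.deg
  rw [mul_comm, ← Nat.card_prod]
  exact Nat.card_congr
    { toFun := fun x => (⟨x.1.1, x.2⟩, x.1.2)
      invFun := fun y => ⟨(y.1.1, y.2), y.1.2⟩
      left_inv := fun x => rfl
      right_inv := fun y => rfl }

theorem cov_loc {c d : (cov D S).C} {g : FreeGroup α} (h : (cov D S).Joined c g d) :
    p2 D S d = act S (p2 D S c) g := by
  obtain ⟨l, hl, rfl⟩ := h
  induction l generalizing c with
  | nil =>
    have h1 := (cov_disc' D S).1 hl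
    rw [Ribbon.label_nil, act_one]
    exact h1.2.symm
  | cons f l ih =>
    have h1 := (cov_disc' D S).1 hl.1
    have h2 := ih hl.2
    rw [h2, Ribbon.label_cons, act_mul, cov_lab, h1.2]
    rfl

theorem cov_based (hD : D.Based) : (cov D S).Based := by
  rw [Dia.based_iff] at hD ⊢
  intro c d hc hd hj
  have h1 : D.Joined (p1 D S c) 1 (p1 D S d) :=
    D.joined_map (D' := (cov D S).toRibbon) (p1 D S)
      (fun x => D.joined_of_disc (D.disc_arc _)) (fun x => D.joined_of_disc (D.disc_short _))
      (fun x => by rw [cov_lab]; exact D.joined_side _) hj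
  have h2 := hD _ _ hc hd h1
  have h3 := cov_loc D S hj
  rw [act_one] at h3
  exact Prod.ext h2 h3.symm

/-- lift of a path -/
noncomputable def lft : S → List D.C → List (cov D S).C
  | _, [] => []
  | q, f :: t => mkc D S f q :: lft (act S q (D.lab f)) t

theorem lft_nil (q : S) : lft D S q [] = [] := rfl

theorem lft_cons (q : S) (f : D.C) (t : List D.C) :
    lft D S q (f :: t) = mkc D S f q :: lft D S (act S q (D.lab f)) t := rfl

theorem p1_mkc (c : D.C) (q : S) : p1 D S (mkc D S c q) = c := rfl

theorem lft_map (q : S) (l : List D.C) : (lft D S q l).map (p1 D S) = l := by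
  induction l generalizing q with
  | nil => rfl
  | cons f t ih => rw [lft_cons, List.map_cons, ih, p1_mkc]

theorem lft_label (q : S) (l : List D.C) : (cov D S).label (lft D S q l) = D.label l := by
  induction l generalizing q with
  | nil => rfl
  | cons f t ih => rw [lft_cons, Ribbon.label_cons, Ribbon.label_cons, ih, cov_lab, p1_mkc]

theorem lft_path (q : S) (l : List D.C) (c d : D.C) (h : D.IsPath c l d) :
    (cov D S).IsPath (mkc D S c q) (lft D S q l) (mkc D S d (act S q (D.label l))) := by
  induction l generalizing q c with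
  | nil =>
    rw [Ribbon.label_nil, act_one]
    exact (cov_disc D S).2 ⟨h, rfl⟩
  | cons f t ih =>
    refine ⟨(cov_disc D S).2 ⟨h.1, rfl⟩, ?_⟩
    have := ih (act S q (D.lab f)) (D.side f) h.2
    rw [Ribbon.label_cons, act_mul]
    exact this

theorem lft_reduced (q : S) (l : List D.C) (h : D.Reduced l) :
    (cov D S).Reduced (lft D S q l) := by
  unfold Ribbon.Reduced at h ⊢
  rw [← lft_map D S q l, List.isChain_map] at h
  refine h.imp ?_
  rintro x y ⟨h1, h2⟩
  exact ⟨fun h3 => h1 (congrArg (p1 D S) h3), fun h3 => h2 (congrArg (p1 D S) h3)⟩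

theorem lft_length (q : S) (l : List D.C) : (lft D S q l).length = l.length := by
  have := congrArg List.length (lft_map D S q l)
  rwa [List.length_map] at this

theorem lft_get (q : S) (l : List D.C) (i : ℕ) (hi : i < l.length) :
    (lft D S q l)[i]'(by rw [lft_length]; exact hi) =
      mkc D S l[i] (act S q (D.label (l.take i))) := by
  induction l generalizing q i with
  | nil => exact absurd hi (by simp)
  | cons f t ih =>
    cases i with
    | zero =>
      show mkc D S f q = mkc D S f (act S q (D.label []))
      rw [Ribbon.label_nil, act_one]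
    | succ i =>
      have hi' : i < t.length := by simpa using hi
      have h1 := ih (act S q (D.lab f)) i hi'
      have h2 : (lft D S q (f :: t))[i + 1]'(by rw [lft_length]; exact hi) =
        (lft D S (act S q (D.lab f)) t)[i]'(by rw [lft_length]; exact hi') := rfl
      rw [h2, h1, List.take_succ_cons, Ribbon.label_cons, act_mul]
      rfl

end cover

end COVER_

open COVER_ in
theorem p_COVER : T_COVER := by
  intro α w D e l hB hP hne hl hR hdiff
  set S : Set (FreeGroup α) := Set.range fun i : Fin (l.length + 1) => D.label (l.take i) with hS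
  have hfin : Finite S := Set.finite_range _
  have hmem : ∀ i : ℕ, i ≤ l.length → D.label (l.take i) ∈ S := fun i hi =>
    ⟨⟨i, Nat.lt_succ_of_le hi⟩, rfl⟩
  have h1 : (1 : FreeGroup α) ∈ S := by
    have := hmem 0 (Nat.zero_le _)
    simpa using this
  have hact : ∀ i : ℕ, i ≤ l.length →
      (act S ⟨1, h1⟩ (D.label (l.take i))).1 = D.label (l.take i) := by
    intro i
    induction i with
    | zero =>
      intro hi
      simp only [List.take_zero, Ribbon.label_nil]
      rw [act_one]
    | succ i ih =>
      intro hi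
      have h2 : l.take (i + 1) = l.take i ++ [l[i]] := by
        rw [List.take_append_getElem]
      have h3 : D.label (l.take (i + 1)) = D.label (l.take i) * D.lab l[i] := by
        rw [h2, Ribbon.label_append, Ribbon.label_cons, Ribbon.label_nil, mul_one]
      have h6 := ih (by omega)
      set s := act S ⟨1, h1⟩ (D.label (l.take i)) with hs
      have h4 : s.1 * FreeGroup.mk [eletter (D.ty l[i])] ∈ S := by
        rw [h6, ← D.lab_eq, ← h3]; exact hmem _ hi
      have h5 := act_letter S s (eletter (D.ty l[i])) h4
      have h7 : (act S s (D.lab l[i])).1 = s.1 * D.lab l[i] := by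
        rw [D.lab_eq, h5]
      rw [h3, act_mul, ← hs, h7, h6]
  refine ⟨cov D S, Nat.card S, mkc D S e ⟨1, h1⟩, lft D S ⟨1, h1⟩ l, ?_, cov_based D S hB,
    cov_card D S, cov_deg D S, cov_numDiscs D S, ?_, ?_, ?_, lft_reduced D S _ l hR, ?_⟩
  · have : Nonempty S := ⟨⟨1, h1⟩⟩
    exact Nat.card_pos
  · have := lft_path D S ⟨1, h1⟩ l e e hP
    rw [hl, act_one] at this
    exact this
  · intro h
    apply hne
    rw [← List.length_eq_zero_iff, ← lft_length D S ⟨1, h1⟩ l, h]
    rfl
  · rw [lft_label, hl]
  · rw [List.Nodup, List.pairwise_map, List.pairwise_iff_getElem]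
    intro i j hi hj hij heq
    rw [lft_length] at hi hj
    have h2 : (cov D S).disc _ _ := Quotient.exact heq
    rw [lft_get D S _ l i hi, lft_get D S _ l j hj, cov_disc, Subtype.ext_iff, hact i hi.le,
      hact j hj.le] at h2
    exact hdiff i j hi hj hij h2.1 h2.2

end Pool.Agent.SqLen
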