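import Pool.Agent.SqLen.Targets

/-! EDGES: a simple path uses every strip once. -/

set_option autoImplicit false

namespace Pool.Agent.SqLen

namespace EDGES_

variable {G : Type} [Group G] (D : Ribbon G)

theorem disc_getElem {c d : D.C} {l : List D.C} (h : D.IsPath c l d) (i : ℕ)
    (hi : i + 1 < l.length) : D.disc (D.side l[i]) l[i + 1] := by
  induction l generalizing c i with
  | nil => simp at hi
  | cons f l ih =>
    cases i with
    | zero =>
      cases l with
      | nil => simp at hi
      | cons g l => exact h.2.1
    | succ i => exact ih h.2 i (by simpa using hi)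

end EDGES_

open EDGES_ in
theorem p_EDGES : T_EDGES := by
  intro G _ D e l hl hr hn
  rw [List.pairwise_iff_getElem]
  intro i j hi hj hij
  have hnd : ∀ (i j : ℕ) (hi : i < l.length) (hj : j < l.length), D.disc l[i] l[j] → i = j := by
    intro i j hi hj h
    have h1 : (l.map fun f => (Quotient.mk D.disc f))[i]'(by simpa using hi) =
        (l.map fun f => (Quotient.mk D.disc f))[j]'(by simpa using hj) := by
      simp only [List.getElem_map]
      exact Quotient.sound h
    exact (hn.getElem_inj_iff).1 h1
  have hch : ∀ (i : ℕ) (hi : i + 1 < l.length), l[i + 1] ≠ D.side l[i] ∧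
      l[i + 1] ≠ D.short (D.side l[i]) := by
    intro i hi
    exact List.isChain_iff_getElem.1 hr i _
  have hi1 : i + 1 < l.length := by omega
  have hadj := disc_getElem D hl i hi1
  refine ⟨?_, ?_, ?_, ?_⟩
  · intro h
    have := hnd i j hi hj (by rw [h])
    omega
  · intro h
    have := hnd i j hi hj (by rw [h]; exact D.disc_short _)
    omega
  · intro h
    have h1 := hnd (i + 1) j (by omega) hj (by rw [h]; exact D.disc_symm hadj)
    subst h1
    exact (hch i (by omega)).1 h
  · intro h
    have h1 := hnd (i + 1) j (by omega) hj
      (by rw [h]; exact D.disc_trans (D.disc_symm hadj) (D.disc_short _))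
    subst h1
    exact (hch i (by omega)).2 h

end Pool.Agent.SqLen
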