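import Pool.Agent.SqLen.Targets

/-! # Job FOLD: folding a simple closed null-homotopic path -/

set_option autoImplicit false

namespace Pool.Agent.SqLen

namespace Fold

variable {α : Type}

/-! ### cancellation -/

theorem label_eq {w : List (α × Bool)} (D : Dia w) (l : List D.C) :
    D.label l = FreeGroup.mk (l.map fun f => eletter (D.ty f)) := by
  induction l with
  | nil => rfl
  | cons f l ih =>
    rw [Ribbon.label_cons, ih, D.lab_eq, FreeGroup.mul_mk]
    rfl

theorem exists_cancel {w : List (α × Bool)} (D : Dia w) {l : List D.C} (hl : l ≠ [])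
    (h1 : D.label l = 1) :
    ∃ A f1 f2 B, l = A ++ f1 :: f2 :: B ∧ D.lab f2 = (D.lab f1)⁻¹ := by
  classical
  have h2 : ¬ l.IsChain fun f g =>
      (eletter (D.ty f)).1 = (eletter (D.ty g)).1 → (eletter (D.ty f)).2 = (eletter (D.ty g)).2 := by
    intro hc
    have h3 : FreeGroup.IsReduced (l.map fun f => eletter (D.ty f)) := by
      unfold FreeGroup.IsReduced
      rw [List.isChain_map]
      exact hc
    rw [label_eq] at h1
    have h4 : FreeGroup.reduce (l.map fun f => eletter (D.ty f)) = [] := by
      have := congrArg FreeGroup.toWord h1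
      rwa [FreeGroup.toWord_mk, FreeGroup.toWord_one] at this
    rw [h3.reduce_eq] at h4
    exact hl (List.map_eq_nil_iff.1 h4)
  rw [List.isChain_iff_forall_rel_of_append_cons_cons] at h2
  push Not at h2
  obtain ⟨f1, f2, A, B, e, h5, h6⟩ := h2
  refine ⟨A, f1, f2, B, e, ?_⟩
  rw [D.lab_eq, D.lab_eq, ← mk_linv]
  congr 2
  unfold linv
  refine Prod.ext h5.symm ?_
  simp only
  revert h6
  generalize (eletter (D.ty f1)).2 = x
  generalize (eletter (D.ty f2)).2 = y
  cases x <;> cases y <;> simp

/-! ### the new pairing -/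

section refold

variable {E : Type} [DecidableEq E]

theorem nd {a ga d gd p gp s gs : E} (h : [a, ga, d, gd, p, gp, s, gs].Nodup) :
    (a ≠ ga ∧ a ≠ d ∧ a ≠ gd ∧ a ≠ p ∧ a ≠ gp ∧ a ≠ s ∧ a ≠ gs) ∧
    (ga ≠ d ∧ ga ≠ gd ∧ ga ≠ p ∧ ga ≠ gp ∧ ga ≠ s ∧ ga ≠ gs) ∧
    (d ≠ gd ∧ d ≠ p ∧ d ≠ gp ∧ d ≠ s ∧ d ≠ gs) ∧
    (gd ≠ p ∧ gd ≠ gp ∧ gd ≠ s ∧ gd ≠ gs) ∧
    (p ≠ gp ∧ p ≠ s ∧ p ≠ gs) ∧ (gp ≠ s ∧ gp ≠ gs) ∧ s ≠ gs := by
  simp only [List.nodup_cons, List.mem_cons, List.not_mem_nil, or_false, not_or,
    List.nodup_nil, and_true, not_false_eq_true] at h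
  tauto

variable {g : Equiv.Perm E} {a d p s : E}

theorem refold_a (gg : ∀ e, g (g e) = e) (h : [a, g a, d, g d, p, g p, s, g s].Nodup) :
    refold g a d p s a = g d ∧ refold g a d p s (g a) = d ∧ refold g a d p s d = g a ∧
    refold g a d p s (g d) = a ∧ refold g a d p s p = g s ∧ refold g a d p s (g p) = s ∧
    refold g a d p s s = g p ∧ refold g a d p s (g s) = p := by
  obtain ⟨⟨h1, h2, h3, h4, h5, h6, h7⟩, ⟨h8, h9, h10, h11, h12, h13⟩, ⟨h14, h15, h16, h17, h18⟩,
    ⟨h19, h20, h21, h22⟩, ⟨h23, h24, h25⟩, ⟨h26, h27⟩, h28⟩ := nd h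
  unfold refold
  simp only [Equiv.Perm.mul_apply]
  refine ⟨?_, ?_, ?_, ?_, ?_, ?_, ?_, ?_⟩
  · rw [Equiv.swap_apply_of_ne_of_ne h5 h7, Equiv.swap_apply_of_ne_of_ne h4 h6,
      Equiv.swap_apply_of_ne_of_ne h1 h3, Equiv.swap_apply_left]
  · rw [Equiv.swap_apply_of_ne_of_ne h11 h13, Equiv.swap_apply_of_ne_of_ne h10 h12,
      Equiv.swap_apply_left, Equiv.swap_apply_of_ne_of_ne h3.symm h14.symm, gg]
  · rw [Equiv.swap_apply_of_ne_of_ne h16 h18, Equiv.swap_apply_of_ne_of_ne h15 h17,
      Equiv.swap_apply_of_ne_of_ne h8.symm h14, Equiv.swap_apply_right]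
  · rw [Equiv.swap_apply_of_ne_of_ne h20 h22, Equiv.swap_apply_of_ne_of_ne h19 h21,
      Equiv.swap_apply_right, Equiv.swap_apply_of_ne_of_ne h1.symm h8, gg]
  · rw [Equiv.swap_apply_of_ne_of_ne h23 h25, Equiv.swap_apply_left,
      Equiv.swap_apply_of_ne_of_ne h12.symm h21.symm, Equiv.swap_apply_of_ne_of_ne h6.symm h17.symm]
  · rw [Equiv.swap_apply_left, Equiv.swap_apply_of_ne_of_ne h25.symm h28.symm,
      Equiv.swap_apply_of_ne_of_ne h13.symm h22.symm, Equiv.swap_apply_of_ne_of_ne h7.symm h18.symm,
      gg]
  · rw [Equiv.swap_apply_of_ne_of_ne h26.symm h28, Equiv.swap_apply_right,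
      Equiv.swap_apply_of_ne_of_ne h10.symm h19.symm, Equiv.swap_apply_of_ne_of_ne h4.symm h15.symm]
  · rw [Equiv.swap_apply_right, Equiv.swap_apply_of_ne_of_ne h23.symm h26,
      Equiv.swap_apply_of_ne_of_ne h11.symm h20.symm, Equiv.swap_apply_of_ne_of_ne h5.symm h16.symm,
      gg]

theorem refold_other {c : E} (h1 : c ≠ a) (h2 : c ≠ g a) (h3 : c ≠ d) (h4 : c ≠ g d)
    (h5 : c ≠ p) (h6 : c ≠ g p) (h7 : c ≠ s) (h8 : c ≠ g s) : refold g a d p s c = g c := by
  unfold refold
  simp only [Equiv.Perm.mul_apply]
  rw [Equiv.swap_apply_of_ne_of_ne h6 h8, Equiv.swap_apply_of_ne_of_ne h5 h7,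
    Equiv.swap_apply_of_ne_of_ne h2 h4, Equiv.swap_apply_of_ne_of_ne h1 h3]

/-- case distinction for the new pairing -/
theorem refold_cases (gg : ∀ e, g (g e) = e) (h : [a, g a, d, g d, p, g p, s, g s].Nodup)
    (P : E → E → Prop) (h1 : P a (g d)) (h2 : P (g a) d) (h3 : P d (g a)) (h4 : P (g d) a)
    (h5 : P p (g s)) (h6 : P (g p) s) (h7 : P s (g p)) (h8 : P (g s) p)
    (h9 : ∀ c, c ≠ a → c ≠ g a → c ≠ d → c ≠ g d → c ≠ p → c ≠ g p → c ≠ s → c ≠ g s → P c (g c))
    (c : E) : P c (refold g a d p s c) := by
  obtain ⟨e1, e2, e3, e4, e5, e6, e7, e8⟩ := refold_a gg h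
  by_cases k1 : c = a
  · subst k1; rw [e1]; exact h1
  by_cases k2 : c = g a
  · rw [k2, e2]; exact h2
  by_cases k3 : c = d
  · subst k3; rw [e3]; exact h3
  by_cases k4 : c = g d
  · rw [k4, e4]; exact h4
  by_cases k5 : c = p
  · subst k5; rw [e5]; exact h5
  by_cases k6 : c = g p
  · rw [k6, e6]; exact h6
  by_cases k7 : c = s
  · subst k7; rw [e7]; exact h7
  by_cases k8 : c = g s
  · rw [k8, e8]; exact h8
  rw [refold_other k1 k2 k3 k4 k5 k6 k7 k8]
  exact h9 c k1 k2 k3 k4 k5 k6 k7 k8

end refold

/-! ### permutations of the corners -/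

/-- arcs as a permutation -/
def kp {w : List (α × Bool)} (D : Dia w) : Equiv.Perm D.C := ⟨D.arc, D.arc, D.arc_arc, D.arc_arc⟩

/-- short sides as a permutation -/
def gp {w : List (α × Bool)} (D : Dia w) : Equiv.Perm D.C :=
  ⟨D.short, D.short, D.short_short, D.short_short⟩

theorem sameCycle_of_disc {w : List (α × Bool)} (D : Dia w) {a c : D.C} (h : D.disc a c) :
    (kp D * gp D).SameCycle a c ∨ (kp D * gp D).SameCycle a (D.short c) := by
  have key : ∀ c d : D.C, D.disc c d →
      (((kp D * gp D).SameCycle a c ∨ (kp D * gp D).SameCycle a (D.short c)) =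
      ((kp D * gp D).SameCycle a d ∨ (kp D * gp D).SameCycle a (D.short d))) := by
    intro c d hcd
    refine D.disc_le (fun c => ((kp D * gp D).SameCycle a c ∨
      (kp D * gp D).SameCycle a (D.short c))) ?_ ?_ hcd
    · intro c
      have e1 : (kp D * gp D) (D.short c) = D.arc c := by
        show D.arc (D.short (D.short c)) = D.arc c
        rw [D.short_short]
      have e2 : (kp D * gp D) (D.short (D.arc c)) = c := by
        show D.arc (D.short (D.short (D.arc c))) = c
        rw [D.short_short, D.arc_arc]
      have k1 : (kp D * gp D).SameCycle a (D.arc c) ↔ (kp D * gp D).SameCycle a (D.short c) := by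
        rw [← e1, Equiv.Perm.sameCycle_apply_right]
      have k2 : (kp D * gp D).SameCycle a (D.short (D.arc c)) ↔ (kp D * gp D).SameCycle a c := by
        rw [← Equiv.Perm.sameCycle_apply_right, e2]
      apply propext
      rw [k1, k2]
      exact or_comm
    · intro c
      simp only [D.short_short]
      exact propext or_comm
  rw [← key a c h]
  exact Or.inl (Equiv.Perm.SameCycle.refl _ _)

theorem apart_symm {w : List (α × Bool)} (D : Dia w) {f g : D.C} (h : D.toRibbon.Apart f g) :
    D.toRibbon.Apart g f := by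
  obtain ⟨h1, h2, h3, h4⟩ := h
  refine ⟨h1.symm, fun e => h2 ?_, fun e => h3 ?_, fun e => h4 ?_⟩
  · rw [e, D.short_short]
  · rw [e, D.side_side]
  · rw [e, D.side_short, D.side_side, D.short_short]

end Fold

open Fold in
theorem fold (hC : T_COUNT) (hN : T_NEW) : T_FOLD := by
  classical
  intro α w
  suffices H : ∀ (n : ℕ) (D : Dia w) (e : D.C) (l : List D.C), l.length ≤ n →
      D.Based → D.IsPath e l e → l ≠ [] → D.label l = 1 →
      (l.map fun f => (Quotient.mk D.disc f)).Nodup → l.Pairwise D.Apart →
      ∃ D' : Dia w, D'.Based ∧ Nat.card D'.C = Nat.card D.C ∧ D'.deg = D.deg ∧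
        D.numDiscs + 1 ≤ D'.numDiscs from
    fun D e l => H l.length D e l le_rfl
  intro n
  induction n with
  | zero =>
    intro D e l hn _ _ hne
    exact absurd (List.length_eq_zero_iff.1 (Nat.le_zero.1 hn)) hne
  | succ n ih =>
    intro D e l hn hB hP hne hlab hnd hap
    -- rotate
    obtain ⟨A, f1, f2, B, rfl, hlab2⟩ := exists_cancel D hne hlab
    obtain ⟨e0, hP1, hP2⟩ := Ribbon.isPath_append _ hP
    have hP3 : D.IsPath e0 ((f1 :: f2 :: B) ++ A) e0 := Ribbon.IsPath.append _ hP2 hP1
    have hlab3 : D.label ((f1 :: f2 :: B) ++ A) = 1 := by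
      rw [Ribbon.label_append] at hlab ⊢
      rw [mul_eq_one_iff_eq_inv] at hlab
      rw [hlab, mul_inv_cancel]
    have hperm : (A ++ f1 :: f2 :: B).Perm ((f1 :: f2 :: B) ++ A) := List.perm_append_comm
    have hnd3 : (((f1 :: f2 :: B) ++ A).map fun f => (Quotient.mk D.disc f)).Nodup :=
      (hperm.map _).nodup_iff.1 hnd
    have hap3 : ((f1 :: f2 :: B) ++ A).Pairwise D.Apart :=
      (hperm.pairwise_iff (fun h => apart_symm D h)).1 hap
    have hlen : (B ++ A).length ≤ n := by
      simp only [List.length_append, List.length_cons] at hn ⊢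
      omega
    clear hP hP1 hP2 hlab hnd hap hne hperm hn
    simp only [List.cons_append] at hP3 hlab3 hnd3 hap3
    generalize B ++ A = t at hP3 hlab3 hnd3 hap3 hlen
    -- the data of the fold
    obtain ⟨hd1, hd2, hPt⟩ := hP3
    -- hd1 : disc e0 f1, hd2 : disc (side f1) f2, hPt : path (side f2) t e0
    have hnd4 := hnd3
    simp only [List.map_cons, List.nodup_cons, List.mem_cons, List.mem_map, not_or,
      not_exists, not_and] at hnd4
    obtain ⟨⟨hn1, hn2⟩, hn3, hn4⟩ := hnd4
    have hn1' : ¬ D.disc f1 f2 := fun h => hn1 (Quotient.sound h)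
    have hn2' : ∀ x ∈ t, ¬ D.disc x f1 := fun x hx h => hn2 x hx (Quotient.sound h)
    have hn3' : ∀ x ∈ t, ¬ D.disc x f2 := fun x hx h => hn3 x hx (Quotient.sound h)
    have hap4 := hap3
    rw [List.pairwise_cons, List.pairwise_cons] at hap4
    obtain ⟨ha1, ha2, ha3⟩ := hap4
    have ha12 : D.Apart f1 f2 := ha1 f2 (List.mem_cons_self)
    obtain ⟨d, hd, hcyc⟩ : ∃ d, (d = f2 ∨ d = D.short f2) ∧
        (kp D * gp D).SameCycle (D.side f1) d := by
      rcases sameCycle_of_disc D hd2 with h | h
      · exact ⟨f2, Or.inl rfl, h⟩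
      · exact ⟨_, Or.inr rfl, h⟩
    have hdf2 : D.disc f2 d := by
      rcases hd with rfl | rfl
      · exact D.disc_refl _
      · exact D.disc_short _
    have hlabd : D.lab d = D.lab f2 := by
      rcases hd with rfl | rfl
      · rfl
      · exact D.lab_short f2
    have hs2 : D.disc (D.side f2) (D.side d) := by
      rcases hd with rfl | rfl
      · exact D.disc_refl _
      · rw [D.side_short]; exact D.disc_short _
    -- d is apart from f1
    have had : D.Apart f1 d := by
      obtain ⟨k1, k2, k3, k4⟩ := ha12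
      rcases hd with rfl | rfl
      · exact ⟨k1, k2, k3, k4⟩
      · refine ⟨fun h => k2 ?_, fun h => k1 ?_, fun h => k4 ?_, fun h => k3 ?_⟩
        · rw [← h, D.short_short]
        · rwa [D.short_inj] at h
        · rw [← h, D.short_short]
        · rwa [D.short_inj] at h
    obtain ⟨k1, k2, k3, k4⟩ := had
    -- k1 : d ≠ f1, k2 : d ≠ short f1, k3 : d ≠ side f1, k4 : d ≠ short (side f1)
    set a := D.side f1 with ha
    set s := D.side d with hs
    have haf1 : D.side a = f1 := D.side_side f1
    have hsd : D.side s = d := D.side_side d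
    have hnodup : [a, gp D a, d, gp D d, f1, gp D f1, s, gp D s].Nodup := by
      have e1 : ∀ x, gp D x = D.short x := fun _ => rfl
      have q1 : a ≠ D.short a := (D.short_ne a).symm
      have q2 : a ≠ d := k3.symm
      have q3 : a ≠ D.short d := fun h => k4 (by rw [h, D.short_short])
      have q4 : a ≠ f1 := D.side_ne f1
      have q5 : a ≠ D.short f1 := D.side_ne_short f1
      have q6 : a ≠ s := fun h => k1 (D.side_inj.1 h).symm
      have q7 : a ≠ D.short s := fun h => k2 (by
        have := congrArg D.side h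
        rw [haf1, D.side_short, hsd] at this
        rw [this, D.short_short])
      have q8 : D.short a ≠ d := k4.symm
      have q9 : D.short a ≠ D.short d := fun h => q2 (D.short_inj.1 h)
      have q10 : D.short a ≠ f1 := fun h => q5 (by rw [← h, D.short_short])
      have q11 : D.short a ≠ D.short f1 := fun h => q4 (D.short_inj.1 h)
      have q12 : D.short a ≠ s := fun h => q7 (by rw [← h, D.short_short])
      have q13 : D.short a ≠ D.short s := fun h => q6 (D.short_inj.1 h)
      have q14 : d ≠ D.short d := (D.short_ne d).symm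
      have q15 : d ≠ f1 := k1
      have q16 : d ≠ D.short f1 := k2
      have q17 : d ≠ s := (D.side_ne d).symm
      have q18 : d ≠ D.short s := fun h => D.side_ne_short d (by
        show s = D.short d
        rw [h, D.short_short])
      have q19 : D.short d ≠ f1 := fun h => k2 (by rw [← h, D.short_short])
      have q20 : D.short d ≠ D.short f1 := fun h => k1 (D.short_inj.1 h)
      have q21 : D.short d ≠ s := (D.side_ne_short d).symm
      have q22 : D.short d ≠ D.short s := fun h => q17 (D.short_inj.1 h)
      have q23 : f1 ≠ D.short f1 := (D.short_ne f1).symm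
      have q24 : f1 ≠ s := fun h => q2 (by
        show D.side f1 = d
        rw [h, hsd])
      have q25 : f1 ≠ D.short s := fun h => q3 (by
        have := congrArg D.side h
        rw [D.side_short, hsd] at this
        exact this)
      have q26 : D.short f1 ≠ s := fun h => q25 (by rw [← h, D.short_short])
      have q27 : D.short f1 ≠ D.short s := fun h => q24 (D.short_inj.1 h)
      have q28 : s ≠ D.short s := (D.short_ne s).symm
      simp only [e1, List.nodup_cons, List.mem_cons, List.not_mem_nil, or_false, not_or,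
        List.nodup_nil, and_true, not_false_eq_true]
      exact ⟨⟨q1, q2, q3, q4, q5, q6, q7⟩, ⟨q8, q9, q10, q11, q12, q13⟩,
        ⟨q14, q15, q16, q17, q18⟩, ⟨q19, q20, q21, q22⟩, ⟨q23, q24, q25⟩, ⟨q26, q27⟩, q28⟩
    -- the disc of `s`
    have hs_disc : ¬ D.disc a s := by
      intro h
      have h2 : D.disc f2 (D.side f2) :=
        D.disc_trans (D.disc_symm hd2) (D.disc_trans h (D.disc_symm hs2))
      cases t with
      | nil =>
        have h3 : D.disc (D.side f2) e0 := hPt
        exact hn1' (D.disc_symm (D.disc_trans h2 (D.disc_trans h3 hd1)))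
      | cons f3 t =>
        have h3 : D.disc (D.side f2) f3 := hPt.1
        exact hn3' f3 (List.mem_cons_self) (D.disc_symm (D.disc_trans h2 h3))
    have hp_disc : ¬ D.disc a f1 := fun h =>
      hn1' (D.disc_symm (D.disc_trans (D.disc_symm hd2) h))
    haveI : Fintype D.C := Fintype.ofFinite _
    have gg : ∀ c, gp D (gp D c) = c := D.short_short
    have hF : FoldData (kp D) (gp D) a d f1 s :=
      { kk := D.arc_arc
        gg := D.short_short
        kne := D.arc_ne
        gne := D.short_ne
        nodup := hnodup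
        cyc := hcyc
        ap := hp_disc
        as := hs_disc }
    obtain ⟨hc1, hc2⟩ := hC D.C (kp D) (gp D) a d f1 s hF
    obtain ⟨r1, r2, r3, r4, r5, r6, r7, r8⟩ := refold_a gg hnodup
    have hside_other : ∀ c : D.C, (c ≠ a ∧ c ≠ D.short a ∧ c ≠ d ∧ c ≠ D.short d ∧ c ≠ f1 ∧
        c ≠ D.short f1 ∧ c ≠ s ∧ c ≠ D.short s) → (D.side c ≠ a ∧ D.side c ≠ D.short a ∧
        D.side c ≠ d ∧ D.side c ≠ D.short d ∧ D.side c ≠ f1 ∧
        D.side c ≠ D.short f1 ∧ D.side c ≠ s ∧ D.side c ≠ D.short s) := by
      rintro c ⟨m1, m2, m3, m4, m5, m6, m7, m8⟩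
      have key : ∀ x : D.C, D.side c = x → c = D.side x := fun x h => by rw [← h, D.side_side]
      refine ⟨fun h => m5 ?_, fun h => m6 ?_, fun h => m7 ?_, fun h => m8 ?_, fun h => m1 ?_,
        fun h => m2 ?_, fun h => m3 ?_, fun h => m4 ?_⟩
      · rw [key _ h, haf1]
      · rw [key _ h, D.side_short, haf1]
      · rw [key _ h]
      · rw [key _ h, D.side_short]
      · rw [key _ h]
      · rw [key _ h, D.side_short]
      · rw [key _ h, hsd]
      · rw [key _ h, D.side_short, hsd]
    have hlabs : D.lab s = (D.lab d)⁻¹ := D.lab_side d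
    have hlaba : D.lab a = (D.lab f1)⁻¹ := D.lab_side f1
    have hlabad : D.lab a = D.lab d := by rw [hlaba, hlabd, hlab2]
    have hlabps : D.lab f1 = D.lab s := by rw [hlabs, ← hlabad, hlaba, inv_inv]
    -- the new diagram
    let D' : Dia w := D.reshort (refold (gp D) a d f1 s)
      (by
        refine refold_cases gg hnodup (fun c c' => refold (gp D) a d f1 s c' = c)
          r4 r3 r2 r1 r8 r7 r6 r5 ?_
        intro c m1 m2 m3 m4 m5 m6 m7 m8
        have n1 : gp D c ≠ a := fun h => m2 (by rw [← h, gg])
        have n2 : gp D c ≠ gp D a := fun h => m1 ((gp D).injective h)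
        have n3 : gp D c ≠ d := fun h => m4 (by rw [← h, gg])
        have n4 : gp D c ≠ gp D d := fun h => m3 ((gp D).injective h)
        have n5 : gp D c ≠ f1 := fun h => m6 (by rw [← h, gg])
        have n6 : gp D c ≠ gp D f1 := fun h => m5 ((gp D).injective h)
        have n7 : gp D c ≠ s := fun h => m8 (by rw [← h, gg])
        have n8 : gp D c ≠ gp D s := fun h => m7 ((gp D).injective h)
        rw [refold_other n1 n2 n3 n4 n5 n6 n7 n8, gg])
      (by
        obtain ⟨⟨h1, h2, h3, h4, h5, h6, h7⟩, ⟨h8, h9, h10, h11, h12, h13⟩,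
          ⟨h14, h15, h16, h17, h18⟩, ⟨h19, h20, h21, h22⟩, ⟨h23, h24, h25⟩, ⟨h26, h27⟩, h28⟩ :=
          nd hnodup
        exact refold_cases gg hnodup (fun c c' => c' ≠ c) h3.symm h8.symm h8 h3 h25.symm
          h26.symm h26 h25 (fun c _ _ _ _ _ _ _ _ => D.short_ne c))
      (by
        refine refold_cases gg hnodup (fun c c' => D.side c' = refold (gp D) a d f1 s (D.side c))
          ?_ ?_ ?_ ?_ ?_ ?_ ?_ ?_ ?_
        · show D.side (D.short d) = _
          rw [haf1, r5, D.side_short]; rfl
        · show D.side d = refold (gp D) a d f1 s (D.side (D.short a))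
          rw [D.side_short, haf1]; exact r6.symm
        · show D.side (D.short a) = refold (gp D) a d f1 s s
          rw [r7, D.side_short, haf1]; rfl
        · show D.side a = refold (gp D) a d f1 s (D.side (D.short d))
          rw [D.side_short, haf1]; exact r8.symm
        · show D.side (D.short s) = refold (gp D) a d f1 s a
          rw [r1, D.side_short, hsd]; rfl
        · show D.side s = refold (gp D) a d f1 s (D.side (D.short f1))
          rw [D.side_short, hsd]; exact r2.symm
        · show D.side (D.short f1) = refold (gp D) a d f1 s (D.side s)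
          rw [hsd, r3, D.side_short]; rfl
        · show D.side f1 = refold (gp D) a d f1 s (D.side (D.short s))
          rw [D.side_short, hsd]; exact r4.symm
        · intro c m1 m2 m3 m4 m5 m6 m7 m8
          obtain ⟨n1, n2, n3, n4, n5, n6, n7, n8⟩ := hside_other c ⟨m1, m2, m3, m4, m5, m6, m7, m8⟩
          rw [refold_other n1 n2 n3 n4 n5 n6 n7 n8]
          exact D.side_short c)
      (by
        obtain ⟨⟨h1, h2, h3, h4, h5, h6, h7⟩, ⟨h8, h9, h10, h11, h12, h13⟩,
          ⟨h14, h15, h16, h17, h18⟩, ⟨h19, h20, h21, h22⟩, ⟨h23, h24, h25⟩, ⟨h26, h27⟩, h28⟩ :=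
          nd hnodup
        refine refold_cases gg hnodup (fun c c' => D.side c ≠ c') ?_ ?_ ?_ ?_ ?_ ?_ ?_ ?_ ?_
        · rw [haf1]; exact h19.symm
        · show D.side (D.short a) ≠ d
          rw [D.side_short, haf1]; exact h16.symm
        · exact h12.symm
        · show D.side (D.short d) ≠ a
          rw [D.side_short]; exact h7.symm
        · exact h7
        · show D.side (D.short f1) ≠ s
          rw [D.side_short]; exact h12
        · rw [hsd]; exact h16
        · show D.side (D.short s) ≠ f1
          rw [D.side_short, hsd]; exact h19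
        · intro c _ _ _ _ _ _ _ _
          exact D.side_ne_short c)
      (by
        refine refold_cases gg hnodup (fun c c' => D.lab c' = D.lab c) ?_ ?_ ?_ ?_ ?_ ?_ ?_ ?_ ?_
        · show D.lab (D.short d) = D.lab a
          rw [D.lab_short, hlabad]
        · show D.lab d = D.lab (D.short a)
          rw [D.lab_short, hlabad]
        · show D.lab (D.short a) = D.lab d
          rw [D.lab_short, hlabad]
        · show D.lab a = D.lab (D.short d)
          rw [D.lab_short, hlabad]
        · show D.lab (D.short s) = D.lab f1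
          rw [D.lab_short, hlabps]
        · show D.lab s = D.lab (D.short f1)
          rw [D.lab_short, hlabps]
        · show D.lab (D.short f1) = D.lab s
          rw [D.lab_short, hlabps]
        · show D.lab f1 = D.lab (D.short s)
          rw [D.lab_short, hlabps]
        · intro c _ _ _ _ _ _ _ _
          exact D.lab_short c)
    have hB' : D'.Based := by
      rw [Dia.based_iff]
      intro x y hx hy hxy
      refine (Dia.based_iff D).1 hB x y hx hy ?_
      have jad : D.Joined a 1 d := D.joined_of_disc (D.disc_trans hd2 hdf2)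
      have jps : D.Joined f1 1 s := by
        have j1 : D.Joined f1 (D.lab f1) a := D.joined_side f1
        have j2 : D.Joined d (D.lab d) s := D.joined_side d
        have j3 := Ribbon.Joined.trans D.toRibbon (Ribbon.Joined.trans D.toRibbon j1 jad) j2
        rw [mul_one, ← hlabad, hlaba, mul_inv_cancel] at j3
        exact j3
      have one_trans : ∀ {x y z : D.C}, D.Joined x 1 y → D.Joined y 1 z → D.Joined x 1 z :=
        fun h h' => by simpa using Ribbon.Joined.trans D.toRibbon h h'
      have one_symm : ∀ {x y : D.C}, D.Joined x 1 y → D.Joined y 1 x :=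
        fun h => by simpa using Ribbon.Joined.symm D.toRibbon h
      have jsh : ∀ x : D.C, D.Joined x 1 (D.short x) := fun x => D.joined_of_disc (D.disc_short x)
      refine Ribbon.joined_map D.toRibbon (D' := D'.toRibbon) (fun c => c) ?_ ?_ ?_ hxy
      · intro c
        exact D.joined_of_disc (D.disc_arc c)
      · refine refold_cases gg hnodup (fun c c' => D.Joined c 1 c') ?_ ?_ ?_ ?_ ?_ ?_ ?_ ?_ ?_
        · exact one_trans jad (jsh d)
        · exact one_trans (one_symm (jsh a)) jad
        · exact one_trans (one_symm jad) (jsh a)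
        · exact one_trans (one_symm (jsh d)) (one_symm jad)
        · exact one_trans jps (jsh s)
        · exact one_trans (one_symm (jsh f1)) jps
        · exact one_trans (one_symm jps) (jsh f1)
        · exact one_trans (one_symm (jsh s)) (one_symm jps)
        · intro c _ _ _ _ _ _ _ _
          exact jsh c
      · intro c
        exact D.joined_side c
    have hnum : D'.numDiscs = nOrb (kp D) (refold (gp D) a d f1 s) := rfl
    have hnum0 : D.numDiscs = nOrb (kp D) (gp D) := rfl
    by_cases hps : D.disc f1 s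
    · exact ⟨D', hB', rfl, rfl, hc2 hps⟩
    · obtain ⟨w1, w2, w3⟩ := hN D.C (kp D) (gp D) a d f1 s hF hps
      have w1' : ∀ x y : D.C, D.disc x y → ¬ D.disc a x → D'.disc x y := w1
      have w2' : D'.disc f1 s := w2
      have w3' : ∀ x y : D.C, D'.disc x y → D.disc x y ∨ ((D.disc f1 x ∨ D.disc s x) ∧
        (D.disc f1 y ∨ D.disc s y)) := w3
      cases t with
      | nil =>
        have h3 : D.disc (D.side f2) e0 := hPt
        exact absurd (D.disc_symm (D.disc_trans (D.disc_symm hs2) (D.disc_trans h3 hd1))) hps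
      | cons f3 t =>
        obtain ⟨hP3, hPt⟩ := hPt
        -- hP3 : disc (side f2) f3
        have hsf3 : D.disc s f3 := D.disc_trans (D.disc_symm hs2) hP3
        have hna : ∀ x ∈ f3 :: t, ¬ D.disc a x := fun x hx h =>
          hn3' x hx (D.disc_symm (D.disc_trans (D.disc_symm hd2) h))
        -- paths in `D'`
        have hpath : ∀ (u : List D.C) (x y : D.C), (∀ z ∈ u, ¬ D.disc a z) → ¬ D.disc a y →
            D.IsPath x u y → D'.IsPath x u y := by
          intro u
          induction u with
          | nil =>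
            intro x y _ hy h
            exact D'.disc_symm (w1' y x (D.disc_symm h) hy)
          | cons z u ihu =>
            intro x y hu hy h
            refine ⟨?_, ihu (D.side z) y (fun z hz => hu z (List.mem_cons_of_mem _ hz)) hy h.2⟩
            exact D'.disc_symm (w1' z x (D.disc_symm h.1) (hu z (List.mem_cons_self)))
        have hf3' : D'.disc f1 f3 := D'.disc_trans w2' (w1' s f3 hsf3 hs_disc)
        have hP' : D'.IsPath f1 (f3 :: t) f1 := by
          refine ⟨hf3', hpath t (D.side f3) f1 (fun z hz => hna z (List.mem_cons_of_mem _ hz))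
            hp_disc ?_⟩
          exact Ribbon.IsPath.right D.toRibbon hPt hd1
        have hlab' : D'.label (f3 :: t) = 1 := by
          show D.label (f3 :: t) = 1
          have := hlab3
          rw [Ribbon.label_cons, Ribbon.label_cons, hlab2, ← mul_assoc, mul_inv_cancel,
            one_mul] at this
          exact this
        have hnd' : ((f3 :: t).map fun f => (Quotient.mk D'.disc f)).Nodup := by
          rw [List.nodup_map_iff_inj_on]
          · intro x hx y hy hxy
            have h1 : D'.disc x y := Quotient.exact hxy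
            have h2 : D.disc x y := by
              rcases w3' x y h1 with h | ⟨h | h, h' | h'⟩
              · exact h
              · exact absurd (D.disc_symm h) (hn2' x hx)
              · exact absurd (D.disc_symm h) (hn2' x hx)
              · exact absurd (D.disc_symm h') (hn2' y hy)
              · exact D.disc_trans (D.disc_symm h) h'
            have h3 : (List.map (fun f => (Quotient.mk D.disc f)) (f3 :: t)).Nodup := by
              have := hnd3
              rw [List.map_cons, List.map_cons, List.nodup_cons, List.nodup_cons] at this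
              exact this.2.2
            exact List.inj_on_of_nodup_map h3 hx hy (Quotient.sound h2)
          · have h3 : (List.map (fun f => (Quotient.mk D.disc f)) (f3 :: t)).Nodup := by
              have := hnd3
              rw [List.map_cons, List.map_cons, List.nodup_cons, List.nodup_cons] at this
              exact this.2.2
            exact List.Nodup.of_map _ h3
        have hap' : (f3 :: t).Pairwise D'.Apart := by
          refine List.Pairwise.imp_of_mem ?_ ha3
          intro x y hx hy hxy
          -- `x` is apart from `f1` and `f2`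
          have x1 : D.Apart f1 x := ha1 x (List.mem_cons_of_mem _ hx)
          have x2 : D.Apart f2 x := ha2 x hx
          have x2' : x ≠ d ∧ x ≠ D.short d ∧ x ≠ s ∧ x ≠ D.short s := by
            obtain ⟨y1, y2, y3, y4⟩ := x2
            rcases hd with rfl | hd
            · exact ⟨y1, y2, y3, y4⟩
            · refine ⟨?_, ?_, ?_, ?_⟩
              · rw [hd]; exact y2
              · rw [hd, D.short_short]; exact y1
              · rw [hs, hd, D.side_short]; exact y4
              · rw [hs, hd, D.side_short, D.short_short]; exact y3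
          obtain ⟨z1, z2, z3, z4⟩ := x1
          obtain ⟨z5, z6, z7, z8⟩ := x2'
          have m : x ≠ a ∧ x ≠ D.short a ∧ x ≠ d ∧ x ≠ D.short d ∧ x ≠ f1 ∧
            x ≠ D.short f1 ∧ x ≠ s ∧ x ≠ D.short s := ⟨z3, z4, z5, z6, z1, z2, z7, z8⟩
          have m' := hside_other x m
          have sx : D'.short x = D.short x := by
            obtain ⟨m1, m2, m3, m4, m5, m6, m7, m8⟩ := m
            exact refold_other m1 m2 m3 m4 m5 m6 m7 m8
          have ssx : D'.short (D.side x) = D.short (D.side x) := by
            obtain ⟨m1, m2, m3, m4, m5, m6, m7, m8⟩ := m'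
            exact refold_other m1 m2 m3 m4 m5 m6 m7 m8
          obtain ⟨v1, v2, v3, v4⟩ := hxy
          refine ⟨v1, ?_, v3, ?_⟩
          · rw [sx]; exact v2
          · show y ≠ D'.short (D.side x)
            rw [ssx]; exact v4
        obtain ⟨D'', b1, b2, b3, b4⟩ := ih D' f1 (f3 :: t) hlen hB' hP' (List.cons_ne_nil _ _)
          hlab' hnd' hap'
        refine ⟨D'', b1, b2, b3, ?_⟩
        have : D.numDiscs ≤ D'.numDiscs := hc1
        omega

end Pool.Agent.SqLen
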