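import Pool.Agent.SqLen.Targets

/-! HALF: orbits of two involutions are two cycles of the product. -/

set_option autoImplicit false

namespace Pool.Agent.SqLen

namespace HALF_

variable {E : Type} (k g : Equiv.Perm E)

theorem g_zpow (hk : ∀ e, k (k e) = e) (hg : ∀ e, g (g e) = e) (i : ℤ) (e : E) :
    g (((k * g) ^ i) e) = ((k * g) ^ (-i)) (g e) := by
  have hkk : k⁻¹ = k := by
    ext e
    rw [Equiv.Perm.inv_eq_iff_eq]
    exact (hk e).symm
  have hgg : g⁻¹ = g := by
    ext e
    rw [Equiv.Perm.inv_eq_iff_eq]
    exact (hg e).symm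
  have h1 : g * (k * g) * g⁻¹ = (k * g)⁻¹ := by
    rw [mul_inv_rev, hkk, mul_assoc, mul_assoc, mul_inv_cancel, mul_one, hgg]
  have h2 : g * (k * g) ^ i * g⁻¹ = (k * g) ^ (-i) := by
    rw [← conj_zpow, h1, inv_zpow, zpow_neg]
  have h3 : g * (k * g) ^ i = (k * g) ^ (-i) * g := by
    rw [← h2, inv_mul_cancel_right]
  exact DFunLike.congr_fun h3 e

theorem same_g (hk : ∀ e, k (k e) = e) (hg : ∀ e, g (g e) = e) {e f : E}
    (h : (k * g).SameCycle e f) : (k * g).SameCycle (g e) (g f) := by
  obtain ⟨i, rfl⟩ := h
  exact ⟨-i, (g_zpow k g hk hg i e).symm⟩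

theorem not_same (hk : ∀ e, k (k e) = e) (hg : ∀ e, g (g e) = e) (hk' : ∀ e, k e ≠ e)
    (hg' : ∀ e, g e ≠ e) (e : E) : ¬ (k * g).SameCycle e (g e) := by
  rintro ⟨i, hi⟩
  obtain ⟨j, hj⟩ := Int.even_or_odd' i
  rcases hj with hj | hj
  · apply hg' (((k * g) ^ j) e)
    rw [g_zpow k g hk hg, ← hi, ← Equiv.Perm.mul_apply, ← zpow_add]
    congr 2
    omega
  · have h1 : g (((k * g) ^ j) e) = (k * g) (((k * g) ^ j) e) := by
      rw [g_zpow k g hk hg, ← hi, ← Equiv.Perm.mul_apply, ← Equiv.Perm.mul_apply, ← zpow_add,
        ← zpow_one_add]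
      congr 2
      omega
    exact hk' _ h1.symm

theorem orb_iff (hk : ∀ e, k (k e) = e) (hg : ∀ e, g (g e) = e) (e f : E) :
    (orb k g) e f ↔ ((k * g).SameCycle e f ∨ (k * g).SameCycle e (g f)) := by
  constructor
  · intro h
    have h' : Relation.EqvGen (fun e f => f = k e ∨ f = g e) e f := h
    induction h' with
    | rel x y hxy =>
      rcases hxy with rfl | rfl
      · right
        refine ⟨-1, ?_⟩
        rw [zpow_neg_one, Equiv.Perm.inv_eq_iff_eq, Equiv.Perm.mul_apply, hg, hk]
      · right
        rw [hg]
    | refl x => exact Or.inl (Equiv.Perm.SameCycle.refl _ _)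
    | symm x y hxy ih =>
      rcases ih hxy with h | h
      · exact Or.inl h.symm
      · right
        have := same_g k g hk hg h
        rw [hg] at this
        exact this.symm
    | trans x y z hxy hyz ih1 ih2 =>
      rcases ih1 hxy with h1 | h1 <;> rcases ih2 hyz with h2 | h2
      · exact Or.inl (h1.trans h2)
      · exact Or.inr (h1.trans h2)
      · exact Or.inr (h1.trans (same_g k g hk hg h2))
      · left
        have := same_g k g hk hg h2
        rw [hg] at this
        exact h1.trans this
  · have key : ∀ (n : ℕ) (x : E), (orb k g) x (((k * g) ^ n) x) := by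
      intro n x
      induction n with
      | zero => exact (orb k g).refl _
      | succ n ih =>
        refine (orb k g).trans ih ?_
        rw [pow_succ', Equiv.Perm.mul_apply]
        have a1 : (orb k g) (((k * g) ^ n) x) (g (((k * g) ^ n) x)) :=
          Relation.EqvGen.rel _ _ (Or.inr rfl)
        have a2 : (orb k g) (g (((k * g) ^ n) x)) ((k * g) (((k * g) ^ n) x)) :=
          Relation.EqvGen.rel _ _ (Or.inl rfl)
        exact (orb k g).trans a1 a2
    have key2 : ∀ x y : E, (k * g).SameCycle x y → (orb k g) x y := by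
      rintro x y ⟨i, hi⟩
      obtain ⟨n, hn | hn⟩ := Int.eq_nat_or_neg i
      · rw [hn, zpow_natCast] at hi
        rw [← hi]
        exact key n x
      · rw [hn, zpow_neg, zpow_natCast, Equiv.Perm.inv_eq_iff_eq] at hi
        refine (orb k g).symm ?_
        rw [hi]
        exact key n y
    rintro (h | h)
    · exact key2 _ _ h
    · refine (orb k g).trans (key2 _ _ h) ((orb k g).symm ?_)
      exact Relation.EqvGen.rel _ _ (Or.inr rfl)

end HALF_

open HALF_ in
/-- HALF -/
theorem p_HALF : T_HALF := by
  intro E _ _ k g hk hg hk' hg'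
  have h2 := not_same k g hk hg hk' hg'
  have h3 : ∀ e f, (k * g).SameCycle e f ↔ (k * g).SameCycle (g e) (g f) := by
    intro e f
    refine ⟨same_g k g hk hg, fun h => ?_⟩
    have := same_g k g hk hg h
    rwa [hg, hg] at this
  have h4 := orb_iff k g hk hg
  refine ⟨?_, h2, h3, h4⟩
  have hbij : Function.Bijective (fun p : Quotient (orb k g) × Bool =>
      (Quotient.mk (Equiv.Perm.SameCycle.setoid (k * g))
        (if p.2 then g p.1.out else p.1.out))) := by
    constructor
    · rintro ⟨q, b⟩ ⟨q', b'⟩ h
      have h' : (k * g).SameCycle (if b then g q.out else q.out)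
          (if b' then g q'.out else q'.out) := Quotient.exact h
      have hq : q = q' := by
        rw [← Quotient.out_eq q, ← Quotient.out_eq q']
        apply Quotient.sound
        change (orb k g) _ _
        rw [h4]
        cases b <;> cases b' <;> simp only [Bool.false_eq_true, if_false, if_true] at h'
        · exact Or.inl h'
        · exact Or.inr h'
        · right
          rw [h3, hg]
          exact h'
        · left
          rw [h3]
          exact h'
      subst hq
      congr 1
      cases b <;> cases b' <;> simp only [Bool.false_eq_true, if_false, if_true] at h'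
      · rfl
      · exact absurd h' (h2 _)
      · exact absurd h'.symm (h2 _)
      · rfl
    · intro c
      induction c using Quotient.inductionOn with
      | _ e =>
        have he : (orb k g) e (Quotient.mk (orb k g) e).out :=
          (orb k g).symm (Quotient.mk_out (s := orb k g) e)
        rw [h4] at he
        rcases he with he | he
        · exact ⟨(Quotient.mk (orb k g) e, false), Quotient.sound he.symm⟩
        · exact ⟨(Quotient.mk (orb k g) e, true), Quotient.sound he.symm⟩
  have hc := Nat.card_congr (Equiv.ofBijective _ hbij)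
  rw [Nat.card_prod, Nat.card_eq_fintype_card (α := Bool), Fintype.card_bool] at hc
  unfold nCyc nOrb
  rw [← hc, mul_comm]

end Pool.Agent.SqLen
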