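import Pool.Agent.SqLen.Targets

/-! MIN: the minimum is attained. -/

set_option autoImplicit false

namespace Pool.Agent.SqLen

namespace MIN_

variable {α : Type}

/-! ### every non-empty diagram has a base point -/

theorem exists_base_aux {w : List (α × Bool)} (D : Dia w) (n : ℕ) :
    ∀ (c : D.C), (D.ty c).2 = false → w.length - ((D.ty c).1 : ℕ) ≤ n → ∃ d : D.C, D.base d := by
  induction n with
  | zero =>
    intro c _ h2
    have := (D.ty c).1.2
    omega
  | succ n ih =>
    intro c h1 h2
    by_cases h0 : ((D.ty c).1 : ℕ) = 0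
    · exact ⟨c, h0, h1⟩
    · have hty : D.ty (D.arc (D.side c)) = (finRotate w.length (D.ty c).1, false) := by
        rw [D.ty_arc, D.ty_side]
        have : eopp (D.ty c) = ((D.ty c).1, true) := by
          unfold eopp
          rw [h1]; rfl
        rw [this, ecor_true]
      have hlt := (D.ty c).1.2
      have hv : (((D.ty (D.arc (D.side c))).1 : Fin w.length) : ℕ)
          = (((D.ty c).1 : ℕ) + 1) % w.length := by
        rw [hty]
        exact finRotate_val _ _
      by_cases hn : ((D.ty c).1 : ℕ) + 1 = w.length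
      · refine ⟨D.arc (D.side c), ?_, ?_⟩
        · rw [hv, hn, Nat.mod_self]
        · rw [hty]
      · refine ih (D.arc (D.side c)) (by rw [hty]) ?_
        rw [hv, Nat.mod_eq_of_lt (by omega)]
        omega

theorem exists_base {w : List (α × Bool)} (D : Dia w) (h : Nonempty D.C) : ∃ d : D.C, D.base d := by
  obtain ⟨c⟩ := h
  cases hb : (D.ty c).2 with
  | false => exact exists_base_aux D _ c hb le_rfl
  | true =>
    refine exists_base_aux D _ (D.side c) ?_ le_rfl
    rw [D.ty_side, eopp_snd, hb]
    rfl

theorem deg_pos {w : List (α × Bool)} (D : Dia w) (h : Nonempty D.C) : 0 < D.deg := by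
  obtain ⟨d, hd⟩ := exists_base D h
  unfold Dia.deg
  have : Nonempty {c : D.C // D.base c} := ⟨⟨d, hd⟩⟩
  exact Nat.card_pos

/-! ### the linear functionals -/

section vec

variable {w : List (α × Bool)}

/-- number of corners -/
noncomputable def nE (v : CT w → ℕ) : ℕ := ∑ t : CT w, v t * t.nEnd

/-- number of discs -/
noncomputable def nD (v : CT w → ℕ) : ℕ := ∑ t : CT w, v t * t.nDisc

/-- number of base points -/
noncomputable def nB (v : CT w → ℕ) : ℕ := ∑ t : CT w, v t * t.nBase

/-- minus the Euler characteristic -/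
noncomputable def chi (v : CT w → ℕ) : ℝ := (nE v : ℝ) / 4 - nD v

theorem negChi_eq {D : Dia w} {v : CT w → ℕ} (h : Counts D v) : D.negChi = chi v := by
  unfold Ribbon.negChi chi nE nD
  rw [h.1, h.2.1]

theorem nE_add (u v : CT w → ℕ) : nE (u + v) = nE u + nE v := by
  unfold nE
  rw [← Finset.sum_add_distrib]
  exact Finset.sum_congr rfl fun t _ => by simp [add_mul]

theorem nD_add (u v : CT w → ℕ) : nD (u + v) = nD u + nD v := by
  unfold nD
  rw [← Finset.sum_add_distrib]
  exact Finset.sum_congr rfl fun t _ => by simp [add_mul]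

theorem nB_add (u v : CT w → ℕ) : nB (u + v) = nB u + nB v := by
  unfold nB
  rw [← Finset.sum_add_distrib]
  exact Finset.sum_congr rfl fun t _ => by simp [add_mul]

theorem chi_add (u v : CT w → ℕ) : chi (u + v) = chi u + chi v := by
  unfold chi
  rw [nE_add, nD_add]
  push_cast
  ring

/-- the type without corners -/
def emp (w : List (α × Bool)) : CT w := fun _ => none

/-- the vectors of interest -/
structure Good (v : CT w → ℕ) : Prop where
  bal : Balanced v
  zero : v (emp w) = 0
  ne : v ≠ 0

theorem nEnd_pos {t : CT w} (ht : t ≠ emp w) : 0 < t.nEnd := by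
  have : ∃ u, (t u).isSome := by
    by_contra h
    apply ht
    funext u
    by_contra hu
    exact h ⟨u, Option.isSome_iff_ne_none.2 hu⟩
  obtain ⟨u, hu⟩ := this
  unfold CT.nEnd
  have : Nonempty {u : ET w // (t u).isSome} := ⟨⟨u, hu⟩⟩
  exact Nat.card_pos

theorem nEnd_emp : (emp w).nEnd = 0 := by
  unfold CT.nEnd emp
  have : IsEmpty {u : ET w // ((fun _ => none : CT w) u).isSome} := ⟨fun u => by simpa using u.2⟩
  exact Nat.card_of_isEmpty

theorem nBase_emp : (emp w).nBase = 0 := by
  unfold CT.nBase emp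
  have : IsEmpty {u : ET w // ((fun _ => none : CT w) u).isSome ∧ (u.1 : ℕ) = 0 ∧ u.2 = false} :=
    ⟨fun u => by simpa using u.2.1⟩
  exact Nat.card_of_isEmpty

theorem nDisc_emp : (emp w).nDisc = 0 := by
  unfold CT.nDisc
  have : IsEmpty {u : ET w // ((emp w) u).isSome} := ⟨fun u => by simpa [emp] using u.2⟩
  have : IsEmpty (Quotient (emp w).disc) := Quotient.instIsEmpty
  exact Nat.card_of_isEmpty

theorem Good.nE_pos {v : CT w → ℕ} (h : Good v) : 0 < nE v := by
  obtain ⟨t, ht⟩ : ∃ t, v t ≠ 0 := by
    by_contra hc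
    apply h.ne
    funext t
    by_contra htt
    exact hc ⟨t, htt⟩
  have hte : t ≠ emp w := by
    rintro rfl
    exact ht h.zero
  have h1 : 0 < v t * t.nEnd := Nat.mul_pos (Nat.pos_of_ne_zero ht) (nEnd_pos hte)
  unfold nE
  exact lt_of_lt_of_le h1
    (Finset.single_le_sum (f := fun t : CT w => v t * t.nEnd) (fun _ _ => Nat.zero_le _)
      (Finset.mem_univ t))

/-- realisation of good vectors -/
theorem Good.real (h2 : T_REAL) {v : CT w → ℕ} (h : Good v) :
    ∃ D : Dia w, Nonempty D.C ∧ D.Based ∧ Counts D v := by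
  obtain ⟨D, hD, hc⟩ := h2 α w v h.bal
  refine ⟨D, ?_, hD, hc⟩
  have h1 : 0 < Nat.card D.C := by
    rw [hc.1]; exact h.nE_pos
  exact (Nat.card_pos_iff.1 h1).1

theorem Good.nB_pos (h2 : T_REAL) {v : CT w → ℕ} (h : Good v) : 0 < nB v := by
  obtain ⟨D, hne, _, hc⟩ := h.real h2
  have := deg_pos D hne
  rw [hc.2.2] at this
  exact this

theorem Good.sub {u v : CT w → ℕ} (hu : Good u) (hv : Good v) (huv : u ≤ v) (hne : u ≠ v) :
    Good (v - u) where
  bal := by
    refine ⟨?_, ?_⟩
    · intro t ht
      apply hv.bal.valid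
      intro h0
      apply ht
      simp [h0]
    · intro s d hd
      have hv' := hv.bal.bal s d hd
      have hu' := hu.bal.bal s d hd
      have e1 := Finset.sum_tsub_distrib (f := v) (g := u)
        (Finset.univ.filter fun t : CT w => t.out s = d) (fun t _ => huv t)
      have e2 := Finset.sum_tsub_distrib (f := v) (g := u)
        (Finset.univ.filter fun t : CT w => t.out (linv s) = d.flip) (fun t _ => huv t)
      simp only [Pi.sub_apply]
      rw [e1, e2, hv', hu']
  zero := by simp [hv.zero]
  ne := by
    intro h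
    apply hne
    funext t
    have h1 := congrFun h t
    have h2 : u t ≤ v t := huv t
    simp only [Pi.sub_apply, Pi.zero_apply] at h1
    omega

open Classical in
/-- forgetting the type without corners -/
noncomputable def drop (v : CT w → ℕ) : CT w → ℕ := fun t => if t = emp w then 0 else v t

theorem sum_drop (v : CT w → ℕ) (f : CT w → ℕ) (hf : f (emp w) = 0) :
    ∑ t : CT w, drop v t * f t = ∑ t : CT w, v t * f t := by
  refine Finset.sum_congr rfl fun t _ => ?_
  unfold drop
  by_cases h : t = emp w
  · subst h; simp [hf]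
  · simp [h]

theorem drop_bal {v : CT w → ℕ} (h : Balanced v) : Balanced (drop v) where
  valid := by
    intro t ht
    apply h.valid
    intro h0
    apply ht
    unfold drop
    split_ifs
    · rfl
    · exact h0
  bal := by
    intro s d hd
    have h1 := h.bal s d hd
    have hout : ∀ s : α × Bool, (emp w).out s = emp w := by
      intro s
      funext u
      unfold CT.out emp
      simp
    obtain ⟨u, hu⟩ := hd
    have key : ∀ (s : α × Bool) (d : CT w), (∃ u, (d u).isSome) →
        ∑ t : CT w with t.out s = d, drop v t = ∑ t : CT w with t.out s = d, v t := by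
      intro s d hd
      refine Finset.sum_congr rfl fun t ht => ?_
      have ht' : t.out s = d := (Finset.mem_filter.1 ht).2
      unfold drop
      rw [if_neg]
      rintro rfl
      rw [hout] at ht'
      obtain ⟨u, hu⟩ := hd
      rw [← ht'] at hu
      simp [emp] at hu
    rw [key s d ⟨u, hu⟩, key (linv s) d.flip ⟨eopp u, ?_⟩, h1]
    unfold CT.flip
    rw [eopp_eopp]
    simpa using hu

theorem exists_good (h1 : T_VEC) (D : Dia w) (hne : Nonempty D.C) (hD : D.Based) :
    ∃ v : CT w → ℕ, Good v ∧ Counts D v := by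
  obtain ⟨v, hv, hc⟩ := h1 α w D hD
  have hc' : Counts D (drop v) := by
    refine ⟨?_, ?_, ?_⟩
    · rw [hc.1, sum_drop v _ nEnd_emp]
    · rw [hc.2.1, sum_drop v _ nDisc_emp]
    · rw [hc.2.2, sum_drop v _ nBase_emp]
  refine ⟨drop v, ⟨drop_bal hv, by simp [drop], ?_⟩, hc'⟩
  intro h0
  have h3 := hc'.1
  rw [h0] at h3
  simp only [Pi.zero_apply, zero_mul, Finset.sum_const_zero] at h3
  have : 0 < Nat.card D.C := Nat.card_pos
  omega

/-- the minimal good vectors -/
def Mins (w : List (α × Bool)) : Set (CT w → ℕ) := {v | Good v ∧ ∀ u, Good u → u ≤ v → u = v}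

theorem mins_finite : (Mins w).Finite := by
  have ha : IsAntichain (· ≤ ·) (Mins w) := by
    intro u hu v hv hne hle
    exact hne (hv.2 u hu.1 hle)
  refine ha.finite_of_partiallyWellOrderedOn ?_
  exact Set.isPWO_of_wellQuasiOrderedLE (Mins w)

theorem exists_min {v : CT w → ℕ} (hv : Good v) (h2 : T_REAL) :
    ∃ m : CT w → ℕ, Good m ∧
      ∀ u : CT w → ℕ, Good u → chi m * (nB u : ℝ) ≤ chi u * (nB m : ℝ) := by
  -- existence of a minimal vector
  have hmin : ∀ n : ℕ, ∀ u : CT w → ℕ, Good u → ∑ t, u t ≤ n → ∃ m ∈ Mins w, m ≤ u := by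
    intro n
    induction n with
    | zero =>
      intro u hu hs
      exfalso
      apply hu.ne
      funext t
      have := Finset.single_le_sum (f := u) (fun _ _ => Nat.zero_le _) (Finset.mem_univ t)
      have : u t ≤ 0 := this.trans hs
      simpa using this
    | succ n ih =>
      intro u hu hs
      by_cases hm : ∀ x, Good x → x ≤ u → x = u
      · exact ⟨u, ⟨hu, hm⟩, le_rfl⟩
      · push Not at hm
        obtain ⟨x, hx, hxu, hne⟩ := hm
        have hlt : ∑ t, x t < ∑ t, u t := by
          have hlt' : x < u := lt_of_le_of_ne hxu hne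
          obtain ⟨_, t, ht⟩ := Pi.lt_def.1 hlt'
          exact Finset.sum_lt_sum (fun i _ => hxu i) ⟨t, Finset.mem_univ _, ht⟩
        obtain ⟨m, hm, hmx⟩ := ih x hx (by omega)
        exact ⟨m, hm, hmx.trans hxu⟩
  obtain ⟨m0, hm0, _⟩ := hmin _ v hv le_rfl
  -- a minimal vector with minimal ratio
  obtain ⟨m, hm, hmm⟩ := Set.exists_min_image (Mins w) (fun u => chi u / (nB u : ℝ)) mins_finite
    ⟨m0, hm0⟩
  refine ⟨m, hm.1, ?_⟩
  have hB : ∀ u : CT w → ℕ, Good u → (0 : ℝ) < nB u := fun u hu => by
    exact_mod_cast hu.nB_pos h2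
  have hbase : ∀ u ∈ Mins w, chi m * (nB u : ℝ) ≤ chi u * (nB m : ℝ) := by
    intro u hu
    have := hmm u hu
    rwa [div_le_div_iff₀ (hB m hm.1) (hB u hu.1)] at this
  have main : ∀ n : ℕ, ∀ u : CT w → ℕ, Good u → ∑ t, u t ≤ n →
      chi m * (nB u : ℝ) ≤ chi u * (nB m : ℝ) := by
    intro n
    induction n with
    | zero =>
      intro u hu hs
      exfalso
      apply hu.ne
      funext t
      have := Finset.single_le_sum (f := u) (fun _ _ => Nat.zero_le _) (Finset.mem_univ t)
      have : u t ≤ 0 := this.trans hs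
      simpa using this
    | succ n ih =>
      intro u hu hs
      by_cases hm' : ∀ x, Good x → x ≤ u → x = u
      · exact hbase u ⟨hu, hm'⟩
      · push Not at hm'
        obtain ⟨x, hx, hxu, hne⟩ := hm'
        have hlt' : x < u := lt_of_le_of_ne hxu hne
        have hlt : ∑ t, x t < ∑ t, u t := by
          obtain ⟨_, t, ht⟩ := Pi.lt_def.1 hlt'
          exact Finset.sum_lt_sum (fun i _ => hxu i) ⟨t, Finset.mem_univ _, ht⟩
        have hy := hx.sub hu hxu hne
        have hsum : x + (u - x) = u := by
          funext t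
          have h3 : x t ≤ u t := hxu t
          simp only [Pi.add_apply, Pi.sub_apply]
          omega
        have hxpos : 0 < ∑ t, x t := by
          obtain ⟨t, ht⟩ : ∃ t, x t ≠ 0 := by
            by_contra hc
            apply hx.ne
            funext t
            by_contra htt
            exact hc ⟨t, htt⟩
          exact lt_of_lt_of_le (Nat.pos_of_ne_zero ht)
            (Finset.single_le_sum (f := x) (fun _ _ => Nat.zero_le _) (Finset.mem_univ t))
        have hsy : ∑ t, x t + ∑ t, (u - x) t = ∑ t, u t := by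
          rw [← Finset.sum_add_distrib]
          exact Finset.sum_congr rfl fun t _ => congrFun hsum t
        have i1 := ih x hx (by omega)
        have i2 := ih (u - x) hy (by omega)
        have e1 : (nB u : ℝ) = nB x + nB (u - x) := by
          conv_lhs => rw [← hsum, nB_add]
          push_cast
          rfl
        have e2 : chi u = chi x + chi (u - x) := by
          conv_lhs => rw [← hsum, chi_add]
        rw [e1, e2, mul_add, add_mul]
        exact add_le_add i1 i2
  intro u hu
  exact main _ u hu le_rfl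

end vec

end MIN_

open MIN_ in
theorem p_MIN (h1 : T_VEC) (h2 : T_REAL) : T_MIN := by
  rintro α w ⟨D, hne, hD⟩
  obtain ⟨v, hv, _⟩ := exists_good h1 D hne hD
  obtain ⟨m, hm, hmin⟩ := exists_min hv h2
  obtain ⟨M, hMne, hM, hMc⟩ := hm.real h2
  refine ⟨M, hMne, hM, ?_⟩
  intro D' hne' hD'
  obtain ⟨u, hu, huc⟩ := exists_good h1 D' hne' hD'
  have h := hmin u hu
  rw [negChi_eq hMc, negChi_eq huc, hMc.2.2, huc.2.2]
  exact h

end Pool.Agent.SqLen
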