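import Pool.Agent.SqLen.Targets

/-! NEW: orbits after re-pairing. -/

set_option autoImplicit false

namespace Pool.Agent.SqLen

namespace NEW_

variable {E : Type}

theorem orb_refl (k g : Equiv.Perm E) (e : E) : (orb k g) e e := (orb k g).refl' e

theorem orb_symm {k g : Equiv.Perm E} {e f : E} (h : (orb k g) e f) : (orb k g) f e :=
  (orb k g).symm' h

theorem orb_trans {k g : Equiv.Perm E} {e f h : E} (h1 : (orb k g) e f) (h2 : (orb k g) f h) :
    (orb k g) e h := (orb k g).trans' h1 h2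

theorem orb_k (k g : Equiv.Perm E) (e : E) : (orb k g) e (k e) :=
  Relation.EqvGen.rel _ _ (Or.inl rfl)

theorem orb_g (k g : Equiv.Perm E) (e : E) : (orb k g) e (g e) :=
  Relation.EqvGen.rel _ _ (Or.inr rfl)

/-- an equivalence relation which contains the links contains `orb` -/
theorem orb_le {k g : Equiv.Perm E} {r : E → E → Prop} (hr : ∀ c, r c c)
    (hs : ∀ c d, r c d → r d c) (ht : ∀ c d e, r c d → r d e → r c e)
    (h1 : ∀ c, r c (k c)) (h2 : ∀ c, r c (g c)) {c d : E} (h : (orb k g) c d) : r c d := by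
  have h' : Relation.EqvGen (fun c d => d = k c ∨ d = g c) c d := h
  induction h' with
  | rel x y hxy =>
    rcases hxy with rfl | rfl
    · exact h1 x
    · exact h2 x
  | refl x => exact hr x
  | symm x y _ ih => exact hs _ _ (ih (orb_symm h))
  | trans x y z hxy hyz ih1 ih2 => exact ht _ _ _ (ih1 hxy) (ih2 hyz)

theorem orb_of_sameCycle {k g : Equiv.Perm E} [Finite E] {e f : E}
    (h : (k * g).SameCycle e f) : (orb k g) e f := by
  obtain ⟨n, hn⟩ := h.exists_nat_pow_eq
  clear h
  induction n generalizing f with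
  | zero =>
    have : e = f := by simpa using hn
    rw [this]
  | succ n ih =>
    rw [pow_succ', Equiv.Perm.mul_apply] at hn
    have h1 := ih (f := ((k * g) ^ n) e) rfl
    rw [← hn]
    exact orb_trans h1 (orb_trans (orb_g k g _) (orb_k k g _))

/-- around the orbit of `p` without the link from `p` to `g p` -/
theorem reach [Fintype E] (k g g' : Equiv.Perm E) (kk : ∀ e, k (k e) = e)
    (gg : ∀ e, g (g e) = e) (kne : ∀ e, k e ≠ e) (gne : ∀ e, g e ≠ e) (p : E)
    (h : ∀ e, (orb k g) p e → e ≠ p → e ≠ g p → g' e = g e) : (orb k g') (g p) p := by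
  classical
  by_contra hn
  set Y : Finset E := Finset.univ.filter fun e => (orb k g) p e ∧ (orb k g') (g p) e with hY
  have hmem : ∀ e, e ∈ Y ↔ (orb k g) p e ∧ (orb k g') (g p) e := by
    intro e; simp [hY]
  have hq : g p ∈ Y := (hmem _).2 ⟨orb_g k g p, orb_refl k g' _⟩
  have hp : p ∉ Y := fun h => hn ((hmem _).1 h).2
  have s1 : ∑ _e ∈ Y, (1 : ZMod 2) = 0 := by
    refine Finset.sum_involution (fun e _ => k e) (fun e _ => by decide) (fun e _ _ => kne e)
      (fun e he => ?_) (fun e _ => kk e)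
    rw [hmem] at he ⊢
    exact ⟨orb_trans he.1 (orb_k k g e), orb_trans he.2 (orb_k k g' e)⟩
  have s2 : ∑ _e ∈ Y.erase (g p), (1 : ZMod 2) = 0 := by
    refine Finset.sum_involution (fun e _ => g e) (fun e _ => by decide) (fun e _ _ => gne e)
      (fun e he => ?_) (fun e _ => gg e)
    rw [Finset.mem_erase] at he ⊢
    have hep : e ≠ p := fun h => hp (h ▸ he.2)
    have he2 := (hmem e).1 he.2
    have hge := h e he2.1 hep he.1
    refine ⟨fun h' => hep (g.injective h'), ?_⟩
    rw [hmem]
    refine ⟨orb_trans he2.1 (orb_g k g e), ?_⟩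
    rw [← hge]
    exact orb_trans he2.2 (orb_g k g' e)
  have s3 := Finset.add_sum_erase Y (fun _ => (1 : ZMod 2)) hq
  rw [s1, s2] at s3
  revert s3
  decide

end NEW_

open NEW_ in
theorem p_NEW : T_NEW := by
  classical
  intro E _ _ k g a d p s F hps
  set g' := refold g a d p s with hg'
  have oad : (orb k g) a d := orb_of_sameCycle F.cyc
  have oag := orb_g k g a
  have odg := orb_g k g d
  have opg := orb_g k g p
  have osg := orb_g k g s
  have hnd := F.nodup
  simp only [List.nodup_cons, List.mem_cons, List.not_mem_nil, not_or, or_false,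
    List.nodup_nil, not_false_eq_true, and_true] at hnd
  obtain ⟨⟨n1, n2, n3, n4, n5, n6, n7⟩, ⟨n8, n9, n10, n11, n12, n13⟩, ⟨n14, n15, n16, n17, n18⟩,
    ⟨n19, n20, n21, n22⟩, ⟨n23, n24, n25⟩, ⟨n26, n27⟩, n28⟩ := hnd
  have v1 : g' a = g d := by
    rw [hg']; unfold refold
    simp only [Equiv.Perm.mul_apply]
    rw [Equiv.swap_apply_of_ne_of_ne n5 n7, Equiv.swap_apply_of_ne_of_ne n4 n6,
      Equiv.swap_apply_of_ne_of_ne n1 n3, Equiv.swap_apply_left]
  have v2 : g' d = g a := by
    rw [hg']; unfold refold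
    simp only [Equiv.Perm.mul_apply]
    rw [Equiv.swap_apply_of_ne_of_ne n16 n18, Equiv.swap_apply_of_ne_of_ne n15 n17,
      Equiv.swap_apply_of_ne_of_ne (Ne.symm n8) n14, Equiv.swap_apply_right]
  have v3 : g' (g a) = d := by
    rw [hg']; unfold refold
    simp only [Equiv.Perm.mul_apply]
    rw [Equiv.swap_apply_of_ne_of_ne n11 n13, Equiv.swap_apply_of_ne_of_ne n10 n12,
      Equiv.swap_apply_left, Equiv.swap_apply_of_ne_of_ne (Ne.symm n3) (Ne.symm n14), F.gg]
  have v4 : g' (g d) = a := by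
    rw [hg']; unfold refold
    simp only [Equiv.Perm.mul_apply]
    rw [Equiv.swap_apply_of_ne_of_ne n20 n22, Equiv.swap_apply_of_ne_of_ne n19 n21,
      Equiv.swap_apply_right, Equiv.swap_apply_of_ne_of_ne (Ne.symm n1) n8, F.gg]
  have v5 : g' p = g s := by
    rw [hg']; unfold refold
    simp only [Equiv.Perm.mul_apply]
    rw [Equiv.swap_apply_of_ne_of_ne n23 n25, Equiv.swap_apply_left,
      Equiv.swap_apply_of_ne_of_ne (Ne.symm n12) (Ne.symm n21),
      Equiv.swap_apply_of_ne_of_ne (Ne.symm n6) (Ne.symm n17)]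
  have v6 : g' s = g p := by
    rw [hg']; unfold refold
    simp only [Equiv.Perm.mul_apply]
    rw [Equiv.swap_apply_of_ne_of_ne (Ne.symm n26) n28, Equiv.swap_apply_right,
      Equiv.swap_apply_of_ne_of_ne (Ne.symm n10) (Ne.symm n19),
      Equiv.swap_apply_of_ne_of_ne (Ne.symm n4) (Ne.symm n15)]
  have v7 : g' (g p) = s := by
    rw [hg']; unfold refold
    simp only [Equiv.Perm.mul_apply]
    rw [Equiv.swap_apply_left, Equiv.swap_apply_of_ne_of_ne (Ne.symm n25) (Ne.symm n28),
      Equiv.swap_apply_of_ne_of_ne (Ne.symm n13) (Ne.symm n22),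
      Equiv.swap_apply_of_ne_of_ne (Ne.symm n7) (Ne.symm n18), F.gg]
  have v8 : g' (g s) = p := by
    rw [hg']; unfold refold
    simp only [Equiv.Perm.mul_apply]
    rw [Equiv.swap_apply_right, Equiv.swap_apply_of_ne_of_ne (Ne.symm n23) n26,
      Equiv.swap_apply_of_ne_of_ne (Ne.symm n11) (Ne.symm n20),
      Equiv.swap_apply_of_ne_of_ne (Ne.symm n5) (Ne.symm n16), F.gg]
  have v9 : ∀ e, e ≠ a → e ≠ g a → e ≠ d → e ≠ g d → e ≠ p → e ≠ g p → e ≠ s → e ≠ g s →
      g' e = g e := by
    intro e h1 h2 h3 h4 h5 h6 h7 h8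
    rw [hg']; unfold refold
    simp only [Equiv.Perm.mul_apply]
    rw [Equiv.swap_apply_of_ne_of_ne h6 h8, Equiv.swap_apply_of_ne_of_ne h5 h7,
      Equiv.swap_apply_of_ne_of_ne h2 h4, Equiv.swap_apply_of_ne_of_ne h1 h3]
  -- outside the orbit of `a`
  have w : ∀ e, ¬ (orb k g) a e → e ≠ p → e ≠ g p → e ≠ s → e ≠ g s → g' e = g e := by
    intro e h h5 h6 h7 h8
    refine v9 e ?_ ?_ ?_ ?_ h5 h6 h7 h8
    · rintro rfl; exact h (orb_refl k g _)
    · rintro rfl; exact h oag
    · rintro rfl; exact h oad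
    · rintro rfl; exact h (orb_trans oad odg)
  have cp : (orb k g') (g p) p := by
    refine reach k g g' F.kk F.gg F.kne F.gne p ?_
    intro e he h1 h2
    refine w e (fun h => F.ap (orb_trans h (orb_symm he))) h1 h2 ?_ ?_
    · rintro rfl; exact hps he
    · rintro rfl; exact hps (orb_trans he (orb_symm osg))
  have cs : (orb k g') (g s) s := by
    refine reach k g g' F.kk F.gg F.kne F.gne s ?_
    intro e he h1 h2
    refine w e (fun h => F.as (orb_trans h (orb_symm he))) ?_ ?_ h1 h2
    · rintro rfl; exact hps (orb_symm he)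
    · rintro rfl; exact hps (orb_trans opg (orb_symm he))
  refine ⟨?_, ?_, ?_⟩
  · -- old orbits
    have key : ∀ e, ¬ (orb k g) a e → (orb k g') e (g e) := by
      intro e he
      by_cases h1 : e = p
      · rw [h1]; exact orb_symm cp
      by_cases h2 : e = g p
      · rw [h2, F.gg]; exact cp
      by_cases h3 : e = s
      · rw [h3]; exact orb_symm cs
      by_cases h4 : e = g s
      · rw [h4, F.gg]; exact cs
      rw [← w e he h1 h2 h3 h4]
      exact orb_g k g' e
    intro e f hef hae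
    have h := orb_le (k := k) (g := g)
      (r := fun e f => (orb k g) e f ∧ (¬ (orb k g) a e → (orb k g') e f))
      (fun c => ⟨orb_refl k g c, fun _ => orb_refl k g' c⟩)
      (fun c d h => ⟨orb_symm h.1, fun h' => orb_symm (h.2 fun h'' => h' (orb_trans h'' h.1))⟩)
      (fun c d e h1 h2 => ⟨orb_trans h1.1 h2.1, fun h => orb_trans (h1.2 h)
        (h2.2 fun h'' => h (orb_trans h'' (orb_symm h1.1)))⟩)
      (fun c => ⟨orb_k k g c, fun _ => orb_k k g' c⟩)
      (fun c => ⟨orb_g k g c, fun h => key c h⟩) hef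
    exact h.2 hae
  · have h1 := orb_g k g' p
    rw [v5] at h1
    exact orb_trans h1 cs
  · intro e f hef
    refine orb_le (k := k) (g := g')
      (r := fun e f => (orb k g) e f ∨
        (((orb k g) p e ∨ (orb k g) s e) ∧ ((orb k g) p f ∨ (orb k g) s f)))
      (fun c => Or.inl (orb_refl k g c)) ?_ ?_ (fun c => Or.inl (orb_k k g c)) ?_ hef
    · rintro c d (h | ⟨h1, h2⟩)
      · exact Or.inl (orb_symm h)
      · exact Or.inr ⟨h2, h1⟩
    · rintro c d e (h | ⟨h1, h2⟩) (h' | ⟨h1', h2'⟩)
      · exact Or.inl (orb_trans h h')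
      · refine Or.inr ⟨?_, h2'⟩
        rcases h1' with h1' | h1'
        · exact Or.inl (orb_trans h1' (orb_symm h))
        · exact Or.inr (orb_trans h1' (orb_symm h))
      · refine Or.inr ⟨h1, ?_⟩
        rcases h2 with h2 | h2
        · exact Or.inl (orb_trans h2 h')
        · exact Or.inr (orb_trans h2 h')
      · exact Or.inr ⟨h1, h2'⟩
    · intro c
      by_cases h1 : c = a
      · rw [h1, v1]; exact Or.inl (orb_trans oad odg)
      by_cases h2 : c = g a
      · rw [h2, v3]; exact Or.inl (orb_trans (orb_symm oag) oad)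
      by_cases h3 : c = d
      · rw [h3, v2]; exact Or.inl (orb_trans (orb_symm oad) oag)
      by_cases h4 : c = g d
      · rw [h4, v4]; exact Or.inl (orb_symm (orb_trans oad odg))
      by_cases h5 : c = p
      · rw [h5, v5]; exact Or.inr ⟨Or.inl (orb_refl k g p), Or.inr osg⟩
      by_cases h6 : c = g p
      · rw [h6, v7]; exact Or.inr ⟨Or.inl opg, Or.inr (orb_refl k g s)⟩
      by_cases h7 : c = s
      · rw [h7, v6]; exact Or.inr ⟨Or.inr (orb_refl k g s), Or.inl opg⟩
      by_cases h8 : c = g s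
      · rw [h8, v8]; exact Or.inr ⟨Or.inr osg, Or.inl (orb_refl k g p)⟩
      rw [v9 c h1 h2 h3 h4 h5 h6 h7 h8]
      exact Or.inl (orb_g k g c)

end Pool.Agent.SqLen
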