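import Pool.Agent.SqLen.Targets

/-! Diagrams of degree one from products of squares / commutators. -/

set_option autoImplicit false

namespace Pool.Agent.SqLen

namespace ONE_

variable {α : Type}

/-- `w` is spelled by a non-empty word with a gluing with many discs -/
def Good (w : FreeGroup α) (c : ℕ) : Prop :=
  ∃ W : List (α × Bool), W ≠ [] ∧ FreeGroup.mk W = w ∧ ∃ G : Glu W, W.length + 2 ≤ 2 * G.nd + c

theorem good_mul (hcat : T_CAT) {w v : FreeGroup α} {c d : ℕ} (h1 : Good w c) (h2 : Good v d) :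
    Good (w * v) (c + d) := by
  obtain ⟨W, hW, rfl, G, hG⟩ := h1
  obtain ⟨V, hV, rfl, H, hH⟩ := h2
  obtain ⟨K, hK⟩ := hcat α W V G H hW hV
  refine ⟨W ++ V, by simp [hW], by rw [FreeGroup.mul_mk], K, ?_⟩
  rw [List.length_append]
  omega

theorem good_mono {w : FreeGroup α} {c d : ℕ} (h : Good w c) (hcd : c ≤ d) : Good w d := by
  obtain ⟨W, hW, hw, G, hG⟩ := h
  exact ⟨W, hW, hw, G, by omega⟩

theorem toWord_ne [DecidableEq α] {a : FreeGroup α} (h : a ≠ 1) : a.toWord ≠ [] := by
  intro h'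
  exact h (FreeGroup.toWord_eq_nil_iff.1 h')

theorem good_sq [DecidableEq α] (hsq : T_SQ) {a : FreeGroup α} (h : a ≠ 1) : Good (a ^ 2) 2 := by
  obtain ⟨G, hG⟩ := hsq α a.toWord (toWord_ne h)
  refine ⟨a.toWord ++ a.toWord, by simp [toWord_ne h], ?_, G, ?_⟩
  · rw [← FreeGroup.mul_mk, FreeGroup.mk_toWord, pow_two]
  · rw [List.length_append]
    omega

theorem good_comm [DecidableEq α] (hc : T_COMM) {a b : FreeGroup α} (h : a ≠ 1) (h' : b ≠ 1) :
    Good (a * b * a⁻¹ * b⁻¹) 4 := by
  obtain ⟨G, hG⟩ := hc α a.toWord b.toWord (toWord_ne h) (toWord_ne h')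
  refine ⟨_, by simp [toWord_ne h], ?_, G, ?_⟩
  · rw [← FreeGroup.mul_mk, ← FreeGroup.mul_mk, ← FreeGroup.mul_mk, ← FreeGroup.inv_mk,
      ← FreeGroup.inv_mk, FreeGroup.mk_toWord, FreeGroup.mk_toWord]
  · rw [List.length_append, List.length_append, List.length_append, FreeGroup.invRev_length,
      FreeGroup.invRev_length]
    omega

theorem good_list (hcat : T_CAT) {β : Type} (f : β → FreeGroup α) (c : ℕ)
    (hf : ∀ b, f b = 1 ∨ Good (f b) c) (l : List β) :
    (l.map f).prod = 1 ∨ Good (l.map f).prod (c * l.length) := by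
  induction l with
  | nil => left; simp
  | cons b l ih =>
    rw [List.map_cons, List.prod_cons, List.length_cons]
    rcases hf b with h | h
    · rw [h, one_mul]
      rcases ih with h' | h'
      · left; exact h'
      · right
        exact good_mono h' (Nat.mul_le_mul_left _ (Nat.le_succ _))
    · right
      rcases ih with h' | h'
      · rw [h', mul_one]
        exact good_mono h (Nat.le_mul_of_pos_right _ (Nat.succ_pos _))
      · exact good_mono (good_mul hcat h h') (by rw [Nat.mul_succ, Nat.add_comm])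

theorem red_step (hstep : T_STEP) {W W' : List (α × Bool)} (h : FreeGroup.Red.Step W W')
    (hne : W' ≠ []) (c : ℕ) (hG : ∃ G : Glu W, W.length + 2 ≤ 2 * G.nd + c) :
    ∃ G : Glu W', W'.length + 2 ≤ 2 * G.nd + c := by
  obtain ⟨G, hG⟩ := hG
  cases h with
  | @not A B x b =>
    obtain ⟨G', hG'⟩ := hstep α A B (x, b) G hne
    refine ⟨G', ?_⟩
    have hG'' : G.nd ≤ G'.nd + 1 := hG'
    clear hG'
    simp only [List.length_append, List.length_cons] at hG ⊢
    omega

theorem red_all (hstep : T_STEP) {W W' : List (α × Bool)} (h : FreeGroup.Red W W')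
    (hne : FreeGroup.mk W ≠ 1) (c : ℕ) (hG : ∃ G : Glu W, W.length + 2 ≤ 2 * G.nd + c) :
    ∃ G : Glu W', W'.length + 2 ≤ 2 * G.nd + c := by
  induction h with
  | refl => exact hG
  | @tail V V' h1 h2 ih =>
    refine red_step hstep h2 ?_ c ih
    rintro rfl
    apply hne
    rw [FreeGroup.one_eq_mk]
    exact FreeGroup.Red.exact.2 ⟨[], h1.tail h2, Relation.ReflTransGen.refl⟩

theorem final [DecidableEq α] (hstep : T_STEP) {w : FreeGroup α} (hw : w ≠ 1) {c : ℕ}
    (h : Good w c) :
    ∃ D : Dia w.toWord, D.deg = 1 ∧ D.negChi ≤ (c : ℝ) / 2 - 1 := by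
  obtain ⟨W, hW, rfl, hG⟩ := h
  have hred : FreeGroup.Red W (FreeGroup.mk W).toWord := by
    rw [FreeGroup.toWord_mk]
    exact FreeGroup.reduce.red
  obtain ⟨G, hG⟩ := red_all hstep hred hw c hG
  refine ⟨G.dia, ?_, ?_⟩
  · have hne := toWord_ne hw
    have hpos : 0 < (FreeGroup.mk W).toWord.length := List.length_pos_iff.2 hne
    unfold Dia.deg
    rw [Nat.card_eq_one_iff_unique]
    refine ⟨⟨?_⟩, ⟨⟨(⟨0, hpos⟩, false), rfl, rfl⟩⟩⟩
    rintro ⟨⟨i, b⟩, h1, h2⟩ ⟨⟨j, b'⟩, h3, h4⟩
    have h1' : (i : ℕ) = 0 := h1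
    have h2' : b = false := h2
    have h3' : (j : ℕ) = 0 := h3
    have h4' : b' = false := h4
    subst h2'
    subst h4'
    have : i = j := Fin.ext (h1'.trans h3'.symm)
    subst this
    rfl
  · have hcard : Nat.card G.dia.C = (FreeGroup.mk W).toWord.length * 2 := by
      change Nat.card (Fin _ × Bool) = _
      rw [Nat.card_prod]
      simp
    have hnd : G.dia.numDiscs = G.nd := rfl
    unfold Ribbon.negChi
    rw [hcard, hnd]
    have : (((FreeGroup.mk W).toWord.length + 2 : ℕ) : ℝ) ≤ ((2 * G.nd + c : ℕ) : ℝ) := by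
      exact_mod_cast hG
    push_cast at this ⊢
    linarith

end ONE_

open ONE_ in
theorem p_ONE (h1 : T_STEP) (h2 : T_CAT) (h3 : T_SQ) (h4 : T_COMM) : T_ONE := by
  intro α _ w hw
  constructor
  · intro l hl
    rcases good_list h2 (fun a : FreeGroup α => a ^ 2) 2 (fun a => by
      by_cases ha : a = 1
      · left; simp [ha]
      · right; exact good_sq h3 ha) l with h | h
    · exact absurd (hl.trans h) hw
    · rw [← hl] at h
      obtain ⟨D, hD, hD'⟩ := final h1 hw h
      refine ⟨D, hD, hD'.trans ?_⟩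
      push_cast
      linarith
  · intro l hl
    rcases good_list h2 (fun p : FreeGroup α × FreeGroup α => p.1 * p.2 * p.1⁻¹ * p.2⁻¹) 4
      (fun p => by
        by_cases ha : p.1 = 1
        · left; simp [ha]
        by_cases hb : p.2 = 1
        · left; simp [hb]
        · right; exact good_comm h4 ha hb) l with h | h
    · exact absurd (hl.trans h) hw
    · rw [← hl] at h
      obtain ⟨D, hD, hD'⟩ := final h1 hw h
      refine ⟨D, hD, hD'.trans ?_⟩
      push_cast
      linarith

end Pool.Agent.SqLen
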