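import Pool.Agent.SqLen.Targets

/-! Realisation of a balanced vector of cluster types by a based diagram. -/

set_option autoImplicit false

namespace Pool.Agent.SqLen

namespace REAL_

variable {α : Type} {w : List (α × Bool)}

/-- the set of clusters -/
abbrev K (v : CT w → ℕ) : Type := (t : CT w) × Fin (v t)

theorem card_sigma' (v : CT w → ℕ) (X : CT w → Type) [∀ t, Finite (X t)] :
    Nat.card ((k : K v) × X k.1) = ∑ t : CT w, v t * Nat.card (X t) := by
  rw [Nat.card_sigma, Fintype.sum_sigma]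
  refine Finset.sum_congr rfl fun t _ => ?_
  simp

/-- a permutation which maps the fibres of `f` to those of `g` -/
theorem exists_perm {X Z : Type} [Finite X] (f g : X → Z)
    (h : ∀ z, Nat.card {x // f x = z} = Nat.card {x // g x = z}) :
    ∃ e : X ≃ X, ∀ x, g (e x) = f x := by
  let e' : ∀ z, {x // f x = z} ≃ {x // g x = z} := fun z =>
    Classical.choice (Finite.card_eq.1 (h z))
  let e : X ≃ X := (Equiv.sigmaFiberEquiv f).symm.trans
    ((Equiv.sigmaCongrRight e').trans (Equiv.sigmaFiberEquiv g))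
  refine ⟨e, fun x => ?_⟩
  have h1 : e x = (e' (f x) ⟨x, rfl⟩).1 := rfl
  rw [h1]
  exact (e' (f x) ⟨x, rfl⟩).2

theorem flip_flip (d : CT w) : d.flip.flip = d := by
  funext u
  unfold CT.flip
  rw [eopp_eopp]
  cases d u with
  | none => rfl
  | some v => simp

theorem flip_none : (CT.flip (fun _ => none) : CT w) = fun _ => none := by
  funext u
  simp [CT.flip]

theorem flip_isSome {d : CT w} (h : ∃ u, (d u).isSome) : ∃ u, (d.flip u).isSome := by
  obtain ⟨u, hu⟩ := h
  refine ⟨eopp u, ?_⟩
  unfold CT.flip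
  rw [eopp_eopp]
  simpa using hu

theorem eq_none_of_not {d : CT w} (h : ¬ ∃ u, (d u).isSome) : d = fun _ => none := by
  funext u
  by_contra hne
  exact h ⟨u, Option.isSome_iff_ne_none.2 hne⟩

theorem card_fibre (v : CT w → ℕ) (P : CT w → Prop) [DecidablePred P] :
    Nat.card {k : K v // P k.1} = ∑ t : CT w with P t, v t := by
  rw [Nat.card_eq_fintype_card, Fintype.card_subtype]
  rw [Finset.card_filter, Fintype.sum_sigma, Finset.sum_filter]
  refine Finset.sum_congr rfl fun t _ => ?_
  by_cases h : P t <;> simp [h]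

open Classical in
theorem fibre_eq (v : CT w → ℕ) (hv : Balanced v) (s : α × Bool) (z : CT w)
    (hz : ∃ u, (z u).isSome) :
    Nat.card {k : K v // (k.1.out s).flip = z} = Nat.card {k : K v // k.1.out (linv s) = z} := by
  have h1 := hv.bal s z.flip (flip_isSome hz)
  rw [flip_flip] at h1
  rw [card_fibre v (fun t => (t.out s).flip = z), card_fibre v (fun t => t.out (linv s) = z), ← h1]
  refine Finset.sum_congr ?_ fun _ _ => rfl
  ext t
  simp only [Finset.mem_filter, Finset.mem_univ, true_and]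
  constructor
  · intro h
    rw [← h, flip_flip]
  · intro h
    rw [h, flip_flip]

theorem nat_card_fibres {X Z : Type} [Finite X] [Fintype Z] (f : X → Z) :
    Nat.card X = ∑ z, Nat.card {x // f x = z} := by
  rw [← Nat.card_congr (Equiv.sigmaFiberEquiv f), Nat.card_sigma]

/-- the permutation of the clusters along a letter -/
theorem exists_act (v : CT w → ℕ) (hv : Balanced v) (s : α × Bool) :
    ∃ e : K v ≃ K v, ∀ k, (e k).1.out (linv s) = (k.1.out s).flip := by
  classical
  apply exists_perm (fun k : K v => (k.1.out s).flip) (fun k : K v => k.1.out (linv s))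
  intro z
  by_cases hz : ∃ u, (z u).isSome
  · exact fibre_eq v hv s z hz
  · have hz' := eq_none_of_not hz
    have e1 := nat_card_fibres (fun k : K v => (k.1.out s).flip)
    have e2 := nat_card_fibres (fun k : K v => k.1.out (linv s))
    have e3 := e1.symm.trans e2
    rw [← Finset.add_sum_erase Finset.univ
        (fun z => Nat.card {k : K v // (k.1.out s).flip = z}) (Finset.mem_univ z),
      ← Finset.add_sum_erase Finset.univ
        (fun z => Nat.card {k : K v // k.1.out (linv s) = z}) (Finset.mem_univ z)] at e3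
    have e4 : (∑ x ∈ Finset.univ.erase z, Nat.card {k : K v // (k.1.out s).flip = x}) =
        ∑ x ∈ Finset.univ.erase z, Nat.card {k : K v // k.1.out (linv s) = x} := by
      refine Finset.sum_congr rfl fun x hx => ?_
      apply fibre_eq v hv s
      by_contra hne
      apply (Finset.mem_erase.1 hx).1
      rw [hz', eq_none_of_not hne]
    rw [e4] at e3
    exact Nat.add_right_cancel e3

/-- the action of the letters on the clusters -/
theorem exists_letter_act (v : CT w → ℕ) (hv : Balanced v) :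
    ∃ p : α → Equiv.Perm (K v), ∀ (s : α × Bool) (k : K v),
      ((if s.2 then p s.1 else (p s.1)⁻¹) k).1.out (linv s) = (k.1.out s).flip := by
  choose e he using fun a : α => exists_act v hv (a, true)
  refine ⟨e, ?_⟩
  rintro ⟨a, b⟩ k
  cases b with
  | true => simpa using he a k
  | false =>
    have h := he a ((e a).symm k)
    rw [Equiv.apply_symm_apply] at h
    have h' : k.1.out (a, false) = (((e a).symm k).1.out (a, true)).flip := h
    rw [h', flip_flip]
    simp [linv]

/-- the permutation of the clusters along a letter -/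
def act {v : CT w → ℕ} (p : α → Equiv.Perm (K v)) (s : α × Bool) : Equiv.Perm (K v) :=
  if s.2 then p s.1 else (p s.1)⁻¹

theorem act_linv {v : CT w → ℕ} (p : α → Equiv.Perm (K v)) (s : α × Bool) :
    act p (linv s) = (act p s)⁻¹ := by
  rcases s with ⟨a, b⟩
  cases b <;> simp [act, linv]

/-- the gluing condition -/
def Good {v : CT w → ℕ} (p : α → Equiv.Perm (K v)) : Prop :=
  ∀ (s : α × Bool) (k : K v), (act p s k).1.out (linv s) = (k.1.out s).flip

theorem Good.apply {v : CT w → ℕ} {p : α → Equiv.Perm (K v)} (hp : Good p) (u : ET w)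
    (k : K v) : (act p (eletter u) k).1 (eopp u) = (k.1 u).map eopp := by
  have h := congrFun (hp (eletter u) k) (eopp u)
  simpa [CT.out, CT.flip] using h

/-- the homomorphism to the permutations of the clusters -/
noncomputable def hom {v : CT w → ℕ} (p : α → Equiv.Perm (K v)) :
    FreeGroup α →* Equiv.Perm (K v) := FreeGroup.lift fun a => (p a)⁻¹

theorem hom_mk {v : CT w → ℕ} (p : α → Equiv.Perm (K v)) (s : α × Bool) :
    hom p (FreeGroup.mk [s]) = (act p s)⁻¹ := by
  rcases s with ⟨a, b⟩
  unfold hom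
  rw [FreeGroup.lift_mk]
  cases b <;> simp [act]

theorem valid_of_mem {v : CT w → ℕ} (hv : Balanced v) (k : K v) : k.1.Valid := by
  apply hv.valid
  have := k.2.2
  intro h
  omega

/-- the corners -/
abbrev Cor (v : CT w → ℕ) : Type := {c : K v × ET w // (c.1.1 c.2).isSome}

variable {v : CT w → ℕ}

def shortC (hv : Balanced v) (c : Cor v) : Cor v :=
  ⟨(c.1.1, (c.1.1.1 c.1.2).get c.2), by
    have h := ((valid_of_mem hv c.1.1).pair _ _ (Option.some_get c.2).symm).1
    simp [h]⟩

theorem shortC_spec (hv : Balanced v) (c : Cor v) :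
    c.1.1.1 c.1.2 = some (shortC hv c).1.2 := (Option.some_get c.2).symm

theorem shortC_fst (hv : Balanced v) (c : Cor v) : (shortC hv c).1.1 = c.1.1 := rfl

theorem shortC_pair (hv : Balanced v) (c : Cor v) :
    c.1.1.1 (shortC hv c).1.2 = some c.1.2 ∧ (shortC hv c).1.2 ≠ c.1.2 ∧
      eletter (shortC hv c).1.2 = eletter c.1.2 :=
  (valid_of_mem hv c.1.1).pair _ _ (shortC_spec hv c)

theorem cor_ext {c d : Cor v} (h1 : c.1.1 = d.1.1) (h2 : c.1.2 = d.1.2) : c = d :=
  Subtype.ext (Prod.ext h1 h2)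

theorem shortC_shortC (hv : Balanced v) (c : Cor v) : shortC hv (shortC hv c) = c := by
  refine cor_ext rfl ?_
  have h1 := shortC_spec hv (shortC hv c)
  rw [shortC_fst] at h1
  rw [(shortC_pair hv c).1] at h1
  exact (Option.some_inj.1 h1).symm

def arcC (hv : Balanced v) (c : Cor v) : Cor v :=
  ⟨(c.1.1, ecor c.1.2), (valid_of_mem hv c.1.1).cor _ c.2⟩

def sideC {p : α → Equiv.Perm (K v)} (hp : Good p) (c : Cor v) : Cor v :=
  ⟨(act p (eletter c.1.2) c.1.1, eopp c.1.2), by
    have h := hp.apply c.1.2 c.1.1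
    have h2 := c.2
    simp only [h]
    simpa using h2⟩

theorem sideC_sideC {p : α → Equiv.Perm (K v)} (hp : Good p) (c : Cor v) :
    sideC hp (sideC hp c) = c := by
  refine cor_ext ?_ (eopp_eopp _)
  change act p (eletter (eopp c.1.2)) (act p (eletter c.1.2) c.1.1) = c.1.1
  rw [eletter_eopp, act_linv]
  simp

theorem sideC_shortC (hv : Balanced v) {p : α → Equiv.Perm (K v)} (hp : Good p) (c : Cor v) :
    sideC hp (shortC hv c) = shortC hv (sideC hp c) := by
  have h3 := (shortC_pair hv c).2.2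
  refine cor_ext ?_ ?_
  · change act p (eletter (shortC hv c).1.2) c.1.1 = act p (eletter c.1.2) c.1.1
    rw [h3]
  · have h1 := shortC_spec hv (sideC hp c)
    have h2 : (sideC hp c).1.1.1 (sideC hp c).1.2 = (c.1.1.1 c.1.2).map eopp :=
      hp.apply c.1.2 c.1.1
    rw [h2, shortC_spec hv c, Option.map_some] at h1
    exact Option.some_inj.1 h1

/-- the diagram -/
noncomputable def dia (hv : Balanced v) {p : α → Equiv.Perm (K v)} (hp : Good p) : Dia w :=
  Dia.ofTypes (Cor v) (sideC hp) (shortC hv) (arcC hv) (fun c => c.1.2)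
    (sideC_sideC hp) (shortC_shortC hv) (fun c => cor_ext rfl (ecor_ecor _))
    (sideC_shortC hv hp)
    (fun c h => (shortC_pair hv c).2.1 (congrArg (fun c : Cor v => c.1.2) h))
    (fun c h => by
      have h1 : eopp c.1.2 = (shortC hv c).1.2 := congrArg (fun c : Cor v => c.1.2) h
      have h2 := (shortC_pair hv c).2.2
      rw [← h1, eletter_eopp] at h2
      exact linv_ne _ h2)
    (fun _ => rfl) (fun _ => rfl) (fun c => (shortC_pair hv c).2.2)

theorem joined_loc (hv : Balanced v) {p : α → Equiv.Perm (K v)} (hp : Good p)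
    {c d : Cor v} {g : FreeGroup α} (h : (dia hv hp).toRibbon.Joined c g d) :
    c.1.1 = hom p g d.1.1 := by
  obtain ⟨l, hl, rfl⟩ := h
  have hd : ∀ {c d : Cor v}, (dia hv hp).toRibbon.disc c d → c.1.1 = d.1.1 := by
    intro c d h
    exact (dia hv hp).toRibbon.disc_le (fun c : Cor v => c.1.1) (fun _ => rfl) (fun _ => rfl) h
  induction l generalizing c with
  | nil =>
    rw [Ribbon.label_nil, map_one]
    exact hd hl
  | cons f l ih =>
    have h1 : c.1.1 = f.1.1 := hd hl.1
    have h2 := ih hl.2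
    have h3 : (dia hv hp).toRibbon.lab f = FreeGroup.mk [eletter f.1.2] := rfl
    rw [Ribbon.label_cons, map_mul, Equiv.Perm.mul_apply, ← h2, h1, h3, hom_mk]
    change f.1.1 = (act p (eletter f.1.2))⁻¹ (act p (eletter f.1.2) f.1.1)
    simp

theorem based (hv : Balanced v) {p : α → Equiv.Perm (K v)} (hp : Good p) :
    (dia hv hp).Based := by
  rw [Dia.based_iff]
  intro c d hc hd h
  have h1 := joined_loc hv hp h
  rw [map_one] at h1
  have hc' : ((c.1.2.1 : ℕ) = 0 ∧ c.1.2.2 = false) := hc
  have hd' : ((d.1.2.1 : ℕ) = 0 ∧ d.1.2.2 = false) := hd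
  refine cor_ext h1 (Prod.ext (Fin.ext ?_) ?_)
  · rw [hc'.1, hd'.1]
  · rw [hc'.2, hd'.2]

/-- corners by clusters -/
def corEquiv (v : CT w → ℕ) : Cor v ≃ (k : K v) × {u : ET w // (k.1 u).isSome} where
  toFun c := ⟨c.1.1, ⟨c.1.2, c.2⟩⟩
  invFun x := ⟨(x.1, x.2.1), x.2.2⟩
  left_inv _ := rfl
  right_inv _ := rfl

/-- base points by clusters -/
def baseEquiv (v : CT w → ℕ) :
    {c : Cor v // (c.1.2.1 : ℕ) = 0 ∧ c.1.2.2 = false} ≃
      (k : K v) × {u : ET w // (k.1 u).isSome ∧ (u.1 : ℕ) = 0 ∧ u.2 = false} where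
  toFun c := ⟨c.1.1.1, ⟨c.1.1.2, c.1.2, c.2⟩⟩
  invFun x := ⟨⟨(x.1, x.2.1), x.2.2.1⟩, x.2.2.2⟩
  left_inv _ := rfl
  right_inv _ := rfl

/-- the disc of a corner inside its cluster -/
def discMap (v : CT w → ℕ) (c : Cor v) : (k : K v) × Quotient k.1.disc :=
  ⟨c.1.1, Quotient.mk _ ⟨c.1.2, c.2⟩⟩

theorem discMap_arc (hv : Balanced v) (c : Cor v) :
    discMap v (arcC hv c) = discMap v c := by
  unfold discMap
  refine congrArg (Sigma.mk c.1.1) (Quotient.sound ?_)
  exact Setoid.symm' _ (Relation.EqvGen.rel _ _ (Or.inl rfl))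

theorem discMap_short (hv : Balanced v) (c : Cor v) :
    discMap v (shortC hv c) = discMap v c := by
  unfold discMap
  refine congrArg (Sigma.mk c.1.1) (Quotient.sound ?_)
  exact Setoid.symm' _ (Relation.EqvGen.rel _ _ (Or.inr (shortC_spec hv c)))

theorem disc_of_disc (hv : Balanced v) {p : α → Equiv.Perm (K v)} (hp : Good p) (k : K v)
    {x y : {u : ET w // (k.1 u).isSome}} (h : k.1.disc x y) :
    (dia hv hp).toRibbon.disc (⟨(k, x.1), x.2⟩ : Cor v) (⟨(k, y.1), y.2⟩ : Cor v) := by
  have h' : Relation.EqvGen (fun u v : {u : ET w // (k.1 u).isSome} =>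
    v.1 = ecor u.1 ∨ k.1 u.1 = some v.1) x y := h
  clear h
  induction h' with
  | rel x y hxy =>
    rcases hxy with hxy | hxy
    · have e : (⟨(k, y.1), y.2⟩ : Cor v) = arcC hv ⟨(k, x.1), x.2⟩ := cor_ext rfl hxy
      rw [e]
      exact (dia hv hp).toRibbon.disc_arc _
    · have e : (⟨(k, y.1), y.2⟩ : Cor v) = shortC hv ⟨(k, x.1), x.2⟩ := by
        refine cor_ext rfl ?_
        have h1 := shortC_spec hv (⟨(k, x.1), x.2⟩ : Cor v)
        exact Option.some_inj.1 (hxy.symm.trans h1)
      rw [e]
      exact (dia hv hp).toRibbon.disc_short _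
  | refl x => exact (dia hv hp).toRibbon.disc_refl _
  | symm x y _ ih => exact (dia hv hp).toRibbon.disc_symm ih
  | trans x y z _ _ ih1 ih2 => exact (dia hv hp).toRibbon.disc_trans ih1 ih2

theorem numDiscs_eq (hv : Balanced v) {p : α → Equiv.Perm (K v)} (hp : Good p) :
    (dia hv hp).toRibbon.numDiscs = Nat.card ((k : K v) × Quotient k.1.disc) := by
  unfold Ribbon.numDiscs
  let F : Quotient (dia hv hp).toRibbon.disc → (k : K v) × Quotient k.1.disc :=
    Quotient.lift (fun c : Cor v => discMap v c) (fun c d h =>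
      (dia hv hp).toRibbon.disc_le (fun c : Cor v => discMap v c) (discMap_arc hv)
        (discMap_short hv) h)
  refine Nat.card_congr (Equiv.ofBijective F ⟨?_, ?_⟩)
  · intro a b
    refine Quotient.inductionOn₂ a b ?_
    intro c d h
    apply Quotient.sound
    have h' : discMap v c = discMap v d := h
    clear h
    rcases c with ⟨⟨k, u⟩, hu⟩
    rcases d with ⟨⟨k', u'⟩, hu'⟩
    unfold discMap at h'
    obtain ⟨h1, h2⟩ := Sigma.mk.inj_iff.1 h'
    have h1' : k = k' := h1
    subst h1'
    have h3 := Quotient.exact (eq_of_heq h2)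
    exact disc_of_disc hv hp k h3
  · rintro ⟨k, q⟩
    refine Quotient.inductionOn q ?_
    intro x
    exact ⟨Quotient.mk _ (⟨(k, x.1), x.2⟩ : Cor v), rfl⟩

theorem counts (hv : Balanced v) {p : α → Equiv.Perm (K v)} (hp : Good p) :
    Counts (dia hv hp) v := by
  refine ⟨?_, ?_, ?_⟩
  · exact (Nat.card_congr (corEquiv v)).trans
      (card_sigma' v fun t => {u : ET w // (t u).isSome})
  · rw [numDiscs_eq]
    exact card_sigma' v fun t => Quotient t.disc
  · exact (Nat.card_congr (baseEquiv v)).trans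
      (card_sigma' v fun t => {u : ET w // (t u).isSome ∧ (u.1 : ℕ) = 0 ∧ u.2 = false})

end REAL_

theorem p_REAL : T_REAL := by
  intro α w v hv
  obtain ⟨p, hp⟩ := REAL_.exists_letter_act v hv
  exact ⟨REAL_.dia hv hp, REAL_.based hv hp, REAL_.counts hv hp⟩

end Pool.Agent.SqLen
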