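import Pool.Agent.SqLen.Targets

/-! SQ and COMM: the discs of the Moebius band and of the one-holed torus. -/

set_option autoImplicit false

namespace Pool.Agent.SqLen

namespace SQCOMM_

variable {α : Type}

/-- the position of a corner in the cyclic word -/
def pos {W : List (α × Bool)} (u : ET W) : ℕ := if u.2 then (u.1 : ℕ) + 1 else u.1

/-- a lower bound for the number of discs -/
theorem le_nd {W : List (α × Bool)} (G : Glu W) (K : ℕ) (ψ : ℕ → ℕ) (h0 : ψ W.length = ψ 0)
    (hs : ∀ u : ET W, ψ (pos (G.short u)) = ψ (pos u))
    (hK : ∀ j < K, ∃ i < W.length, ψ i = j) : K ≤ G.nd := by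
  have ha : ∀ u : ET W, ψ (pos (ecor u)) = ψ (pos u) := by
    have h1 : ∀ i : Fin W.length, ψ (pos (ecor (w := W) (i, true))) = ψ (pos (W := W) (i, true)) := by
      intro i
      rw [ecor_true]
      simp only [pos, if_true]
      have hv := finRotate_val W.length i
      simp only [Bool.false_eq_true, if_false]
      rw [hv]
      by_cases h : (i : ℕ) + 1 = W.length
      · rw [h, Nat.mod_self, h0]
      · rw [Nat.mod_eq_of_lt (by omega)]
    rintro ⟨i, b⟩
    cases b
    · have h2 := h1 ((finRotate W.length).symm i)
      rw [ecor_true, Equiv.apply_symm_apply] at h2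
      rw [ecor_false]
      exact h2.symm
    · exact h1 i
  choose f hf hf' using hK
  have hinj : Function.Injective (fun j : Fin K =>
      (Quotient.mk G.dia.disc ((⟨f j.1 j.2, hf j.1 j.2⟩, false) : ET W))) := by
    intro j j' h
    have h1 : G.dia.disc ((⟨f j.1 j.2, hf j.1 j.2⟩, false) : ET W)
      ((⟨f j'.1 j'.2, hf j'.1 j'.2⟩, false) : ET W) := Quotient.exact h
    have h2 := G.dia.disc_le (fun u : ET W => ψ (pos u)) ha hs h1
    simp only [pos, Bool.false_eq_true, if_false, hf'] at h2
    exact Fin.ext h2
  have h3 := Nat.card_le_card_of_injective _ hinj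
  rw [Nat.card_fin] at h3
  exact h3

end SQCOMM_

open SQCOMM_ in
theorem p_SQ : T_SQ := by
  intro α u hu
  have hn : 0 < u.length := List.length_pos_iff.2 hu
  have hL : (u ++ u).length = u.length + u.length := List.length_append
  have hget : ∀ (i j : Fin (u ++ u).length), (i : ℕ) + u.length = j →
      (u ++ u).get i = (u ++ u).get j := by
    intro i j h
    simp only [List.get_eq_getElem]
    have hi : (i : ℕ) < u.length := by omega
    rw [List.getElem_append_left hi, List.getElem_append_right (by omega)]
    congr 1
    omega
  have hg : ∀ i : Fin (u ++ u).length,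
      (if (i : ℕ) < u.length then (i : ℕ) + u.length else (i : ℕ) - u.length) < (u ++ u).length := by
    intro i
    have := i.2
    split_ifs <;> omega
  have hget' : ∀ i : Fin (u ++ u).length, (u ++ u).get ⟨_, hg i⟩ = (u ++ u).get i := by
    intro i
    by_cases h : (i : ℕ) < u.length
    · exact (hget i ⟨_, hg i⟩ (by simp [h])).symm
    · exact hget ⟨_, hg i⟩ i (by simp [h]; omega)
  refine ⟨⟨fun i => ⟨_, hg i⟩, ?_, ?_, ?_⟩, ?_⟩
  · intro i
    apply Fin.ext
    simp only
    have := i.2
    split_ifs <;> omega
  · intro i h
    have h' := congrArg Fin.val h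
    simp only at h'
    split_ifs at h' <;> omega
  · intro i
    rw [hget']
  · apply le_nd _ _ (fun x => x % u.length)
    · simp
    · rintro ⟨i, b⟩
      simp only [Glu.short, hget', if_true, pos]
      cases b
      · simp only [Bool.false_eq_true, if_false]
        split_ifs with h
        · simp
        · have h2 : (i : ℕ) = ((i : ℕ) - u.length) + u.length := by omega
          conv_rhs => rw [h2]
          simp
      · simp only [if_true]
        split_ifs with h
        · have h2 : (i : ℕ) + u.length + 1 = (i : ℕ) + 1 + u.length := by omega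
          rw [h2]
          simp
        · have h2 : (i : ℕ) + 1 = ((i : ℕ) - u.length) + 1 + u.length := by omega
          conv_rhs => rw [h2]
          simp
    · intro j hj
      exact ⟨j, by omega, Nat.mod_eq_of_lt hj⟩

namespace SQCOMM_

variable {α : Type}

/-- the partner of the letter number `x` in `u v u⁻¹ v⁻¹` -/
def gN (n m x : ℕ) : ℕ :=
  if x < n ∨ (n + m ≤ x ∧ x < 2 * n + m) then 2 * n + m - 1 - x else 3 * n + 2 * m - 1 - x

/-- the vertex at position `x` -/
def vN (n m x : ℕ) : ℕ :=
  if x ≤ 0 then 0 else if x < n then x else if x = n then 0 else if x < n + m then x - 1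
    else if x = n + m then 0 else if x < 2 * n + m then 2 * n + m - x
    else if x = 2 * n + m then 0 else if x < 2 * n + 2 * m then 3 * n + 2 * m - x - 1 else 0

theorem v0 (n m : ℕ) : vN n m 0 = 0 := by
  unfold vN
  rw [if_pos le_rfl]

theorem v1 (n m x : ℕ) (h0 : 0 < x) (h : x < n) : vN n m x = x := by
  unfold vN
  rw [if_neg (by omega), if_pos h]

theorem v2 (n m : ℕ) (hn : 0 < n) : vN n m n = 0 := by
  unfold vN
  rw [if_neg (by omega), if_neg (by omega), if_pos rfl]

theorem v3 (n m x : ℕ) (hn : 0 < n) (h0 : n < x) (h : x < n + m) : vN n m x = x - 1 := by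
  unfold vN
  rw [if_neg (by omega), if_neg (by omega), if_neg (by omega), if_pos h]

theorem v4 (n m x : ℕ) (hn : 0 < n) (hm : 0 < m) (h : x = n + m) : vN n m x = 0 := by
  unfold vN
  rw [if_neg (by omega), if_neg (by omega), if_neg (by omega), if_neg (by omega), if_pos h]

theorem v5 (n m x : ℕ) (hn : 0 < n) (h0 : n + m < x) (h : x < 2 * n + m) :
    vN n m x = 2 * n + m - x := by
  unfold vN
  rw [if_neg (by omega), if_neg (by omega), if_neg (by omega), if_neg (by omega),
    if_neg (by omega), if_pos h]

theorem v6 (n m x : ℕ) (hn : 0 < n) (hm : 0 < m) (h : x = 2 * n + m) : vN n m x = 0 := by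
  unfold vN
  rw [if_neg (by omega), if_neg (by omega), if_neg (by omega), if_neg (by omega),
    if_neg (by omega), if_neg (by omega), if_pos h]

theorem v7 (n m x : ℕ) (hn : 0 < n) (h0 : 2 * n + m < x) (h : x < 2 * n + 2 * m) :
    vN n m x = 3 * n + 2 * m - x - 1 := by
  unfold vN
  rw [if_neg (by omega), if_neg (by omega), if_neg (by omega), if_neg (by omega),
    if_neg (by omega), if_neg (by omega), if_neg (by omega), if_pos h]

theorem v8 (n m x : ℕ) (hn : 0 < n) (hm : 0 < m) (h : 2 * n + 2 * m ≤ x) : vN n m x = 0 := by
  unfold vN
  rw [if_neg (by omega), if_neg (by omega), if_neg (by omega), if_neg (by omega),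
    if_neg (by omega), if_neg (by omega), if_neg (by omega), if_neg (by omega)]

theorem sym1 (n m x : ℕ) (hn : 0 < n) (hm : 0 < m) (h : x ≤ n) :
    vN n m (2 * n + m - x) = vN n m x := by
  rcases Nat.eq_zero_or_pos x with rfl | h0
  · rw [v0, v6 n m _ hn hm (by omega)]
  · rcases Nat.lt_or_ge x n with h1 | h1
    · rw [v1 n m x h0 h1, v5 n m _ hn (by omega) (by omega)]
      omega
    · have : x = n := by omega
      subst this
      rw [v2 _ _ hn, v4 _ _ _ hn hm (by omega)]

theorem sym2 (n m x : ℕ) (hn : 0 < n) (hm : 0 < m) (h : n ≤ x) (h' : x ≤ n + m) :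
    vN n m (3 * n + 2 * m - x) = vN n m x := by
  rcases Nat.lt_or_ge n x with h0 | h0
  · rcases Nat.lt_or_ge x (n + m) with h1 | h1
    · rw [v3 n m x hn h0 h1, v7 n m _ hn (by omega) (by omega)]
      omega
    · rw [v4 n m x hn hm (by omega), v6 _ _ _ hn hm (by omega)]
  · have : x = n := by omega
    subst this
    rw [v2 _ _ hn, v8 _ _ _ hn hm (by omega)]

theorem vN_gN (n m i : ℕ) (hi : i < 2 * n + 2 * m) (hn : 0 < n) (hm : 0 < m) :
    vN n m (gN n m i + 1) = vN n m i ∧ vN n m (gN n m i) = vN n m (i + 1) := by
  unfold gN
  split_ifs with h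
  · rcases h with h | ⟨h, h'⟩
    · rw [← sym1 n m i hn hm (by omega), ← sym1 n m (i + 1) hn hm (by omega)]
      constructor
      · congr 1
        omega
      · congr 1
        omega
    · rw [← sym1 n m (2 * n + m - 1 - i + 1) hn hm (by omega),
        ← sym1 n m (2 * n + m - 1 - i) hn hm (by omega)]
      constructor
      · congr 1
        omega
      · congr 1
        omega
  · by_cases h1 : i < n + m
    · rw [← sym2 n m i hn hm (by omega) (by omega), ← sym2 n m (i + 1) hn hm (by omega) (by omega)]
      constructor
      · congr 1
        omega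
      · congr 1
        omega
    · rw [← sym2 n m (3 * n + 2 * m - 1 - i + 1) hn hm (by omega) (by omega),
        ← sym2 n m (3 * n + 2 * m - 1 - i) hn hm (by omega) (by omega)]
      constructor
      · congr 1
        omega
      · congr 1
        omega

theorem get_comm (u v : List (α × Bool)) (x y : ℕ)
    (hx : x < (u ++ v ++ FreeGroup.invRev u ++ FreeGroup.invRev v).length)
    (hy : y < (u ++ v ++ FreeGroup.invRev u ++ FreeGroup.invRev v).length)
    (h : y = gN u.length v.length x) :
    (u ++ v ++ FreeGroup.invRev u ++ FreeGroup.invRev v)[y] =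
      linv (u ++ v ++ FreeGroup.invRev u ++ FreeGroup.invRev v)[x] := by
  have key : ∀ (x y : ℕ)
    (hx : x < (u ++ v ++ FreeGroup.invRev u ++ FreeGroup.invRev v).length)
    (hy : y < (u ++ v ++ FreeGroup.invRev u ++ FreeGroup.invRev v).length)
    (_ : y = gN u.length v.length x) (_ : x < u.length + v.length),
    (u ++ v ++ FreeGroup.invRev u ++ FreeGroup.invRev v)[y] =
      linv (u ++ v ++ FreeGroup.invRev u ++ FreeGroup.invRev v)[x] := by
    intro x y hx hy h hlt
    have hx' := hx
    have hy' := hy
    simp only [List.length_append, FreeGroup.invRev_length] at hx' hy'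
    unfold gN at h
    by_cases h1 : x < u.length
    · rw [if_pos (Or.inl h1)] at h
      rw [List.getElem_append_left (by simp only [List.length_append, FreeGroup.invRev_length]; omega),
        List.getElem_append_right (by simp only [List.length_append]; omega)]
      rw [List.getElem_append_left (by simp only [List.length_append, FreeGroup.invRev_length]; omega),
        List.getElem_append_left (by simp only [List.length_append]; omega),
        List.getElem_append_left h1]
      simp only [FreeGroup.invRev, List.getElem_reverse, List.getElem_map, List.length_map,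
        List.length_append]
      unfold linv
      have e : u.length - 1 - (y - (u.length + v.length)) = x := by omega
      simp only [e]
    · rw [if_neg (by omega)] at h
      rw [List.getElem_append_right (by simp only [List.length_append, FreeGroup.invRev_length]; omega)]
      rw [List.getElem_append_left (by simp only [List.length_append, FreeGroup.invRev_length]; omega),
        List.getElem_append_left (by simp only [List.length_append]; omega),
        List.getElem_append_right (by omega)]
      simp only [FreeGroup.invRev, List.getElem_reverse, List.getElem_map, List.length_map,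
        List.length_append, List.length_reverse]
      unfold linv
      have e : v.length - 1 - (y - (u.length + v.length + u.length)) = x - u.length := by omega
      simp only [e]
  by_cases hlt : x < u.length + v.length
  · exact key x y hx hy h hlt
  · have hx' := hx
    have hy' := hy
    simp only [List.length_append, FreeGroup.invRev_length] at hx' hy'
    have h2 := key y x hy hx (by unfold gN at h ⊢; split_ifs at h ⊢ <;> omega)
      (by unfold gN at h; split_ifs at h <;> omega)
    rw [h2, linv_linv]

end SQCOMM_

open SQCOMM_ in
theorem p_COMM : T_COMM := by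
  intro α u v hu hv
  have hn : 0 < u.length := List.length_pos_iff.2 hu
  have hm : 0 < v.length := List.length_pos_iff.2 hv
  have hL : (u ++ v ++ FreeGroup.invRev u ++ FreeGroup.invRev v).length =
      2 * u.length + 2 * v.length := by
    simp only [List.length_append, FreeGroup.invRev_length]
    omega
  have hg : ∀ i : Fin (u ++ v ++ FreeGroup.invRev u ++ FreeGroup.invRev v).length,
      gN u.length v.length i < (u ++ v ++ FreeGroup.invRev u ++ FreeGroup.invRev v).length := by
    intro i
    have := i.2
    unfold gN
    split_ifs <;> omega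
  have hget : ∀ i : Fin (u ++ v ++ FreeGroup.invRev u ++ FreeGroup.invRev v).length,
      (u ++ v ++ FreeGroup.invRev u ++ FreeGroup.invRev v).get ⟨_, hg i⟩ =
      linv ((u ++ v ++ FreeGroup.invRev u ++ FreeGroup.invRev v).get i) := by
    intro i
    simp only [List.get_eq_getElem]
    exact get_comm u v i _ i.2 (hg i) rfl
  have hgg : ∀ i : Fin (u ++ v ++ FreeGroup.invRev u ++ FreeGroup.invRev v).length,
      gN u.length v.length (gN u.length v.length i) = i := by
    intro i
    have := i.2
    unfold gN
    split_ifs <;> omega
  have hne : ∀ i : Fin (u ++ v ++ FreeGroup.invRev u ++ FreeGroup.invRev v).length,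
      gN u.length v.length i ≠ i := by
    intro i h
    have := i.2
    unfold gN at h
    split_ifs at h <;> omega
  refine ⟨⟨fun i => ⟨_, hg i⟩, fun i => Fin.ext (hgg i), fun i h => hne i (congrArg Fin.val h),
    fun i => by rw [hget]; rfl⟩, ?_⟩
  · have hkey : u.length + v.length - 1 ≤ Glu.nd
        (⟨fun i => ⟨_, hg i⟩, fun i => Fin.ext (hgg i), fun i h => hne i (congrArg Fin.val h),
          fun i => by rw [hget]; rfl⟩ :
            Glu (u ++ v ++ FreeGroup.invRev u ++ FreeGroup.invRev v)) := by
      apply le_nd _ _ (vN u.length v.length)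
      · rw [hL, v0, v8 _ _ _ hn hm le_rfl]
      · rintro ⟨i, b⟩
        have hi := i.2
        have hne' : ((u ++ v ++ FreeGroup.invRev u ++ FreeGroup.invRev v).get ⟨_, hg i⟩).2 ≠
            ((u ++ v ++ FreeGroup.invRev u ++ FreeGroup.invRev v).get i).2 := by
          rw [hget]
          simp [linv]
        simp only [Glu.short, if_neg hne', pos]
        cases b
        · simp only [Bool.not_false, if_true, Bool.false_eq_true, if_false]
          exact (vN_gN _ _ _ (by omega) hn hm).1
        · simp only [Bool.not_true, if_true, Bool.false_eq_true, if_false]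
          exact (vN_gN _ _ _ (by omega) hn hm).2
      · intro j hj
        by_cases h1 : j < u.length
        · refine ⟨j, by omega, ?_⟩
          rcases Nat.eq_zero_or_pos j with rfl | h0
          · exact v0 _ _
          · exact v1 _ _ _ h0 h1
        · refine ⟨j + 1, by omega, ?_⟩
          rw [v3 _ _ _ hn (by omega) (by omega)]
          rfl
    omega

end Pool.Agent.SqLen
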