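import Pool.Agent.SqLen.Targets

/-! STEP: removing two adjacent inverse letters in a gluing. -/

set_option autoImplicit false

namespace Pool.Agent.SqLen

namespace STEP_

/-- the equivalence relation `R` with one more identification -/
def joinS {X : Type} (R : Setoid X) (z1 z2 : X) : Setoid X where
  r c d := R c d ∨ ((R z1 c ∨ R z2 c) ∧ (R z1 d ∨ R z2 d))
  iseqv := by
    refine ⟨fun c => Or.inl (R.refl' c), ?_, ?_⟩
    · rintro c d (h | ⟨h1, h2⟩)
      · exact Or.inl (R.symm' h)
      · exact Or.inr ⟨h2, h1⟩
    · rintro c d e (h | ⟨h1, h2⟩) (h' | ⟨h1', h2'⟩)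
      · exact Or.inl (R.trans' h h')
      · refine Or.inr ⟨?_, h2'⟩
        rcases h1' with h1' | h1'
        · exact Or.inl (R.trans' h1' (R.symm' h))
        · exact Or.inr (R.trans' h1' (R.symm' h))
      · refine Or.inr ⟨h1, ?_⟩
        rcases h2 with h2 | h2
        · exact Or.inl (R.trans' h2 h')
        · exact Or.inr (R.trans' h2 h')
      · exact Or.inr ⟨h1, h2'⟩

theorem joinS_iff {X : Type} (R : Setoid X) (z1 z2 c d : X) :
    (joinS R z1 z2) c d ↔ (R c d ∨ ((R z1 c ∨ R z2 c) ∧ (R z1 d ∨ R z2 d))) := Iff.rfl

theorem card_joinS {X : Type} [Finite X] (R : Setoid X) (z1 z2 : X) :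
    Nat.card (Quotient R) ≤ Nat.card (Quotient (joinS R z1 z2)) + 1 := by
  classical
  have hfin : Finite (Option (Quotient (joinS R z1 z2))) := inferInstance
  have hc : Nat.card (Option (Quotient (joinS R z1 z2))) =
      Nat.card (Quotient (joinS R z1 z2)) + 1 := by
    rw [Finite.card_option]
  rw [← hc]
  let J : Quotient R → Quotient (joinS R z1 z2) :=
    Quotient.map id (fun a b h => Or.inl h)
  let f : Quotient R → Option (Quotient (joinS R z1 z2)) := fun c =>
    if c = Quotient.mk R z1 then none else some (J c)
  refine Nat.card_le_card_of_injective f ?_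
  intro c d
  induction c using Quotient.inductionOn with
  | h c =>
  induction d using Quotient.inductionOn with
  | h d =>
  intro h
  simp only [f] at h
  split_ifs at h with h1 h2 h2
  · rw [h1, h2]
  · have h3 : J (Quotient.mk R c) = J (Quotient.mk R d) := Option.some.inj h
    have h4 : (joinS R z1 z2) c d := Quotient.exact h3
    rcases h4 with h4 | ⟨h4, h5⟩
    · exact Quotient.sound h4
    · rcases h4 with h4 | h4
      · exact absurd (Quotient.sound (R.symm' h4)) h1
      · rcases h5 with h5 | h5
        · exact absurd (Quotient.sound (R.symm' h5)) h2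
        · exact Quotient.sound (R.trans' (R.symm' h4) h5)

theorem ET_ext {α : Type} {W : List (α × Bool)} {u v : ET W} (h1 : u.1 = v.1)
    (h2 : eletter u = eletter v) : u = v := by
  rcases u with ⟨i, b⟩
  rcases v with ⟨j, c⟩
  simp only at h1
  subst h1
  congr 1
  have := snd_of_eletter h2
  simpa using this

section core

variable {α : Type} {W W' : List (α × Bool)}

/-- comparison of two gluings -/
theorem nd_le (G : Glu W) (G' : Glu W') (φ : ET W' → ET W) (z1 z2 : ET W)
    (h1 : ∀ c, (joinS G.dia.disc z1 z2) (φ c) (φ (ecor c)))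
    (h2 : ∀ c, (joinS G.dia.disc z1 z2) (φ c) (φ (G'.short c)))
    (h3 : ∀ u, ∃ c, (joinS G.dia.disc z1 z2) u (φ c)) : G.nd ≤ G'.nd + 1 := by
  have hfin : Finite G.dia.C := G.dia.fin
  have hfin' : Finite G'.dia.C := G'.dia.fin
  refine (card_joinS G.dia.disc z1 z2).trans ?_
  have hl : ∀ c d : ET W', G'.dia.disc c d → (joinS G.dia.disc z1 z2) (φ c) (φ d) := by
    intro c d h
    refine G'.dia.disc_le' (r := fun c d => (joinS G.dia.disc z1 z2) (φ c) (φ d))
      (fun c => Setoid.refl' _ _) (fun c d h => Setoid.symm' _ h)
      (fun c d e h h' => Setoid.trans' _ h h') h1 h2 h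
  let J : Quotient G'.dia.disc → Quotient (joinS G.dia.disc z1 z2) :=
    Quotient.map φ hl
  have hJ : Function.Surjective J := by
    intro q
    induction q using Quotient.inductionOn with
    | h u =>
    obtain ⟨c, hc⟩ := h3 u
    exact ⟨Quotient.mk _ c, Quotient.sound (Setoid.symm' _ hc)⟩
  have := Nat.card_le_card_of_surjective J hJ
  exact Nat.add_le_add_right this 1

theorem core (G : Glu W) (ι : Fin W'.length → Fin W.length) (inj : Function.Injective ι)
    (x y : Fin W.length) (hget : ∀ i, W.get (ι i) = W'.get i)
    (hxy : W.get y = linv (W.get x)) (hx : ∀ i, ι i ≠ x) (hy : ∀ i, ι i ≠ y)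
    (hr : ∀ j, j ≠ x → j ≠ y → ∃ i, ι i = j) (rxy : finRotate _ x = y) (hne : x ≠ y)
    (hrot : ∀ i, finRotate _ (ι i) = ι (finRotate _ i) ∨
      (finRotate _ (ι i) = x ∧ finRotate _ y = ι (finRotate _ i)))
    (hy' : ∃ i, ι i = finRotate _ y) : ∃ G' : Glu W', G.nd ≤ G'.nd + 1 := by
  classical
  obtain ⟨i0, hi0⟩ := hy'
  -- labels
  have hlab : ∀ (i : Fin W'.length) (b : Bool),
      eletter (w := W) (ι i, b) = eletter (w := W') (i, b) := by
    intro i b
    simp only [eletter, hget]
  have hlabxy : ∀ b : Bool, eletter (w := W) (x, b) = eletter (w := W) (y, !b) := by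
    intro b
    unfold eletter
    rw [hxy]
    cases b <;> simp
  -- the new pairing, in W
  let T : Fin W.length → Fin W.length := fun j =>
    if G.g j = x then G.g y else if G.g j = y then G.g x else G.g j
  have hgi : ∀ i j, G.g i = j ↔ i = G.g j := by
    intro i j
    constructor
    · rintro rfl; rw [G.gg]
    · rintro rfl; rw [G.gg]
  have hTx : ∀ j, j ≠ x → j ≠ y → T j ≠ x ∨ (G.g x = y) := by
    intro j h1 h2
    by_cases h : G.g x = y
    · exact Or.inr h
    · left
      simp only [T]
      split_ifs with h3 h4
      · intro h5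
        exact h ((hgi _ _).1 h5).symm
      · exact G.ne x
      · exact h3
  -- if g x = y then g j is never x or y, for the others
  have hg1 : G.g x = y → ∀ j, j ≠ x → j ≠ y → G.g j ≠ x ∧ G.g j ≠ y := by
    intro h j h1 h2
    constructor
    · intro h3
      exact h2 (((hgi _ _).1 h3).trans h)
    · intro h3
      apply h1
      rw [(hgi _ _).1 h3, ← h, G.gg]
  have hT1 : G.g x = y → ∀ j, j ≠ x → j ≠ y → T j = G.g j := by
    intro h j h1 h2
    obtain ⟨h3, h4⟩ := hg1 h j h1 h2
    simp only [T, if_neg h3, if_neg h4]
  have hTxy : ∀ j, j ≠ x → j ≠ y → T j ≠ x ∧ T j ≠ y := by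
    intro j h1 h2
    by_cases h : G.g x = y
    · rw [hT1 h j h1 h2]
      exact hg1 h j h1 h2
    · simp only [T]
      split_ifs with h3 h4
      · refine ⟨?_, G.ne y⟩
        intro h5
        exact h ((hgi _ _).1 h5).symm
      · exact ⟨G.ne x, h⟩
      · exact ⟨h3, h4⟩
  have hTT : ∀ j, j ≠ x → j ≠ y → T (T j) = j := by
    intro j h1 h2
    by_cases h : G.g x = y
    · have h3 := hg1 h j h1 h2
      rw [hT1 h j h1 h2, hT1 h _ h3.1 h3.2, G.gg]
    · simp only [T]
      by_cases h3 : G.g j = x
      · rw [if_pos h3, if_neg (by rw [G.gg]; exact hne.symm), if_pos (G.gg y)]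
        exact ((hgi _ _).1 h3).symm
      · by_cases h4 : G.g j = y
        · rw [if_neg h3, if_pos h4, if_pos (G.gg x)]
          exact ((hgi _ _).1 h4).symm
        · rw [if_neg h3, if_neg h4, if_neg (by rw [G.gg]; exact h1),
            if_neg (by rw [G.gg]; exact h2), G.gg]
  have hTne : ∀ j, j ≠ x → j ≠ y → T j ≠ j := by
    intro j h1 h2
    simp only [T]
    split_ifs with h3 h4
    · intro h5
      rw [(hgi _ _).1 h3] at h5
      exact hne ((hgi _ _).1 h5 |>.trans (G.gg x)).symm
    · intro h5
      rw [(hgi _ _).1 h4] at h5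
      exact hne ((hgi _ _).1 h5 |>.trans (G.gg y))
    · exact G.ne j
  have hTgen : ∀ j, (W.get (T j)).1 = (W.get j).1 := by
    intro j
    simp only [T]
    have hxy1 : (W.get y).1 = (W.get x).1 := by rw [hxy]; rfl
    split_ifs with h3 h4
    · rw [G.gen, hxy1, ← h3, G.gen]
    · rw [G.gen, ← hxy1, ← h4, G.gen]
    · exact G.gen j
  -- the partial inverse of ι
  let κ : Fin W.length → Fin W'.length := fun j =>
    if h : ∃ i, ι i = j then h.choose else i0
  have hκ : ∀ j, j ≠ x → j ≠ y → ι (κ j) = j := by
    intro j h1 h2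
    have h := hr j h1 h2
    simp only [κ, dif_pos h]
    exact h.choose_spec
  have hT' : ∀ i, ι (κ (T (ι i))) = T (ι i) := fun i =>
    hκ _ (hTxy _ (hx i) (hy i)).1 (hTxy _ (hx i) (hy i)).2
  let G' : Glu W' :=
    { g := fun i => κ (T (ι i))
      gg := by
        intro i
        apply inj
        rw [hT', hT', hTT _ (hx i) (hy i)]
      ne := by
        intro i h
        have := hT' i
        rw [h] at this
        exact hTne _ (hx i) (hy i) this.symm
      gen := by
        intro i
        rw [← hget, hT', hTgen, hget] }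
  have hG' : ∀ i, ι (G'.g i) = T (ι i) := hT'
  refine ⟨G', ?_⟩
  let φ : ET W' → ET W := fun c => (ι c.1, c.2)
  have hφlab : ∀ c, eletter (φ c) = eletter c := fun c => hlab c.1 c.2
  have hφs : ∀ c, eletter (φ (G'.short c)) = eletter (φ c) := by
    intro c
    rw [hφlab, hφlab, G'.short_lab]
  -- the two extra points
  let z1 : ET W := if G.g x = y then (x, true) else (x, false)
  let z2 : ET W := if G.g x = y then φ (i0, true) else (y, true)
  let R : Setoid (ET W) := joinS G.dia.disc z1 z2
  have hRarc : ∀ u, R u (ecor u) := fun u => Or.inl (G.dia.disc_arc u)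
  have hRshort : ∀ u, R u (G.short u) := fun u => Or.inl (G.dia.disc_short u)
  have hRt : R (x, true) (y, false) := by
    have h := hRarc (x, true)
    rw [ecor_true, rxy] at h
    exact h
  have hRf : R (x, false) (y, true) := by
    by_cases h : G.g x = y
    · have h1 := hRshort (x, false)
      have h2 : G.short (x, false) = (y, true) := by
        apply ET_ext
        · exact h
        · rw [G.short_lab]
          exact hlabxy false
      rw [h2] at h1
      exact h1
    · refine Or.inr ⟨?_, ?_⟩
      · left
        simp only [z1, if_neg h]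
        exact G.dia.disc_refl _
      · right
        simp only [z2, if_neg h]
        exact G.dia.disc_refl _
  have hRxy : ∀ b : Bool, R (x, b) (y, !b) := by
    intro b
    cases b
    · exact hRf
    · exact hRt
  have harc1 : ∀ j, R (φ (j, true)) (φ (finRotate _ j, false)) := by
    intro j
    rcases hrot j with h | ⟨h1, h2⟩
    · have h1 := hRarc (φ (j, true))
      have h2 : ecor (φ (j, true)) = φ (finRotate _ j, false) := by
        simp only [φ]
        rw [ecor_true, h]
      rw [h2] at h1
      exact h1
    · have h3 := hRarc (φ (j, true))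
      have h4 : ecor (φ (j, true)) = (x, false) := by
        simp only [φ]
        rw [ecor_true, h1]
      rw [h4] at h3
      have h5 := hRarc (y, true)
      rw [ecor_true, h2] at h5
      exact Setoid.trans' _ (Setoid.trans' _ h3 hRf) h5
  have harc : ∀ c, R (φ c) (φ (ecor c)) := by
    rintro ⟨j, b⟩
    cases b
    · have := harc1 ((finRotate _).symm j)
      rw [Equiv.apply_symm_apply] at this
      rw [ecor_false]
      exact Setoid.symm' _ this
    · rw [ecor_true]
      exact harc1 j
  have hshort : ∀ c, R (φ c) (φ (G'.short c)) := by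
    rintro c
    have hfst : (φ (G'.short c)).1 = T (ι c.1) := hG' c.1
    have hRs := hRshort (φ c)
    by_cases h3 : G.g (ι c.1) = x
    · have hT : T (ι c.1) = G.g y := by simp only [T, if_pos h3]
      -- short (φ c) = (x, b')
      obtain ⟨b, hb⟩ : ∃ b, G.short (φ c) = (x, b) := ⟨_, Prod.ext h3 rfl⟩
      have h4 := hRxy b
      have h5 := hRshort (y, !b)
      have h6 : G.short (y, !b) = φ (G'.short c) := by
        apply ET_ext
        · rw [hfst, hT]; rfl
        · rw [G.short_lab, hφs, ← hlabxy, ← hb, G.short_lab]
      rw [hb] at hRs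
      rw [h6] at h5
      exact Setoid.trans' _ (Setoid.trans' _ hRs h4) h5
    · by_cases h4 : G.g (ι c.1) = y
      · have hT : T (ι c.1) = G.g x := by simp only [T, if_neg h3, if_pos h4]
        obtain ⟨b, hb⟩ : ∃ b, G.short (φ c) = (y, b) := ⟨_, Prod.ext h4 rfl⟩
        have h4 := hRxy (!b)
        rw [Bool.not_not] at h4
        have h5 := hRshort (x, !b)
        have h6 : G.short (x, !b) = φ (G'.short c) := by
          apply ET_ext
          · rw [hfst, hT]; rfl
          · rw [G.short_lab, hφs, hlabxy, Bool.not_not, ← hb, G.short_lab]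
        rw [hb] at hRs
        rw [h6] at h5
        exact Setoid.trans' _ (Setoid.trans' _ hRs (Setoid.symm' _ h4)) h5
      · have hT : T (ι c.1) = G.g (ι c.1) := by simp only [T, if_neg h3, if_neg h4]
        have h6 : G.short (φ c) = φ (G'.short c) := by
          apply ET_ext
          · rw [hfst, hT]; rfl
          · rw [G.short_lab, hφs]
        rw [h6] at hRs
        exact hRs
  have hlift : ∀ u : ET W, u.1 ≠ x → u.1 ≠ y → ∃ c, φ c = u := by
    rintro ⟨j, b⟩ h1 h2
    obtain ⟨i, hi⟩ := hr j h1 h2
    exact ⟨(i, b), Prod.ext hi rfl⟩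
  have hyt : ∃ c, R (y, true) (φ c) := by
    refine ⟨(i0, false), ?_⟩
    have h := hRarc (y, true)
    rw [ecor_true, ← hi0] at h
    exact h
  have hxt : ∃ c, R (x, true) (φ c) := by
    by_cases h : G.g x = y
    · refine ⟨(i0, true), Or.inr ⟨?_, ?_⟩⟩
      · left
        simp only [z1, if_pos h]
        exact G.dia.disc_refl _
      · right
        simp only [z2, if_pos h]
        exact G.dia.disc_refl _
    · obtain ⟨c, hc⟩ := hlift (G.short (x, true)) (G.ne x) h
      refine ⟨c, ?_⟩
      rw [hc]
      exact hRshort _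
  have hsurj : ∀ u, ∃ c, R u (φ c) := by
    rintro ⟨j, b⟩
    by_cases h1 : j = x
    · subst h1
      cases b
      · obtain ⟨c, hc⟩ := hyt
        exact ⟨c, Setoid.trans' _ hRf hc⟩
      · exact hxt
    · by_cases h2 : j = y
      · subst h2
        cases b
        · obtain ⟨c, hc⟩ := hxt
          exact ⟨c, Setoid.trans' _ (Setoid.symm' _ hRt) hc⟩
        · exact hyt
      · obtain ⟨c, hc⟩ := hlift (j, b) h1 h2
        refine ⟨c, ?_⟩
        rw [hc]
  exact nd_le G G' φ z1 z2 harc hshort hsurj

end core

end STEP_

open STEP_ in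
theorem p_STEP : T_STEP := by
  intro α A B s G hAB
  have hn' : 0 < (A ++ B).length := List.length_pos_iff.2 hAB
  have hl1 : (A ++ s :: linv s :: B).length = A.length + B.length + 2 := by
    simp; omega
  have hl2 : (A ++ B).length = A.length + B.length := by simp
  have hιlt : ∀ i : Fin (A ++ B).length,
      (if (i : ℕ) < A.length then (i : ℕ) else (i : ℕ) + 2) < (A ++ s :: linv s :: B).length := by
    intro i
    have := i.2
    split_ifs <;> omega
  let ι : Fin (A ++ B).length → Fin (A ++ s :: linv s :: B).length := fun i => ⟨_, hιlt i⟩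
  have hι : ∀ i, ((ι i : Fin _) : ℕ) = if (i : ℕ) < A.length then (i : ℕ) else (i : ℕ) + 2 :=
    fun i => rfl
  let x : Fin (A ++ s :: linv s :: B).length := ⟨A.length, by omega⟩
  let y : Fin (A ++ s :: linv s :: B).length := ⟨A.length + 1, by omega⟩
  have hxv : (x : ℕ) = A.length := rfl
  have hyv : (y : ℕ) = A.length + 1 := rfl
  have hyrot : ((finRotate _ y : Fin _) : ℕ) = (A.length + 2) % (A.length + B.length + 2) := by
    rw [finRotate_val, hyv, hl1]
  refine core G ι ?_ x y ?_ ?_ ?_ ?_ ?_ ?_ ?_ ?_ ?_
  · intro i j h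
    have h1 := congrArg Fin.val h
    rw [hι, hι] at h1
    apply Fin.ext
    split_ifs at h1 <;> omega
  · intro i
    by_cases h : (i : ℕ) < A.length
    · have hv : ((ι i : Fin _) : ℕ) = (i : ℕ) := by rw [hι, if_pos h]
      simp only [List.get_eq_getElem, hv]
      rw [List.getElem_append_left h, List.getElem_append_left h]
    · have hv : ((ι i : Fin _) : ℕ) = (i : ℕ) + 2 := by rw [hι, if_neg h]
      simp only [List.get_eq_getElem, hv]
      rw [List.getElem_append_right (by omega), List.getElem_append_right (by omega)]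
      have : (i : ℕ) + 2 - A.length = ((i : ℕ) - A.length) + 2 := by omega
      simp only [this]
      rfl
  · simp only [List.get_eq_getElem, hxv, hyv]
    rw [List.getElem_append_right (by omega), List.getElem_append_right (by omega)]
    simp
  · intro i h
    have h1 := congrArg Fin.val h
    rw [hι, hxv] at h1
    split_ifs at h1 <;> omega
  · intro i h
    have h1 := congrArg Fin.val h
    rw [hι, hyv] at h1
    split_ifs at h1 <;> omega
  · intro j h1 h2
    have h1' : (j : ℕ) ≠ A.length := fun h => h1 (Fin.ext h)
    have h2' : (j : ℕ) ≠ A.length + 1 := fun h => h2 (Fin.ext h)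
    have hj := j.2
    by_cases h : (j : ℕ) < A.length
    · refine ⟨⟨j, by omega⟩, Fin.ext ?_⟩
      rw [hι]
      simp [h]
    · refine ⟨⟨(j : ℕ) - 2, by omega⟩, Fin.ext ?_⟩
      rw [hι]
      simp only
      rw [if_neg (by omega)]
      omega
  · apply Fin.ext
    rw [finRotate_val, hxv, hyv, hl1]
    exact Nat.mod_eq_of_lt (by omega)
  · intro h
    have := congrArg Fin.val h
    rw [hxv, hyv] at this
    omega
  · intro i
    have hi := i.2
    have h1 : ((finRotate _ (ι i) : Fin _) : ℕ) =
        ((if (i : ℕ) < A.length then (i : ℕ) else (i : ℕ) + 2) + 1) %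
          (A.length + B.length + 2) := by
      rw [finRotate_val, hι, hl1]
    have h2 : ((finRotate _ i : Fin _) : ℕ) = ((i : ℕ) + 1) % (A.length + B.length) := by
      rw [finRotate_val]
      exact congrArg (fun n => ((i : ℕ) + 1) % n) hl2
    by_cases h3 : (i : ℕ) + 1 < A.length + B.length
    · rw [Nat.mod_eq_of_lt h3] at h2
      by_cases h4 : (i : ℕ) + 1 = A.length
      · right
        constructor
        · apply Fin.ext
          rw [h1, if_pos (by omega), hxv, h4]
          exact Nat.mod_eq_of_lt (by omega)
        · apply Fin.ext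
          rw [hyrot, hι, h2, if_neg (by omega), h4]
          exact Nat.mod_eq_of_lt (by omega)
      · left
        apply Fin.ext
        rw [h1, hι, h2]
        by_cases h5 : (i : ℕ) < A.length
        · rw [if_pos h5, if_pos (by omega)]
          exact Nat.mod_eq_of_lt (by omega)
        · rw [if_neg h5, if_neg (by omega), Nat.mod_eq_of_lt (by omega)]
    · have h4 : (i : ℕ) + 1 = A.length + B.length := by omega
      rw [h4, Nat.mod_self] at h2
      by_cases h5 : A.length = 0
      · right
        constructor
        · apply Fin.ext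
          rw [h1, if_neg (by omega), hxv]
          have : (i : ℕ) + 2 + 1 = A.length + B.length + 2 := by omega
          rw [this, Nat.mod_self, h5]
        · apply Fin.ext
          rw [hyrot, hι, h2, if_neg (by omega)]
          rw [Nat.mod_eq_of_lt (by omega)]
          omega
      · by_cases h6 : (i : ℕ) < A.length
        · right
          constructor
          · apply Fin.ext
            rw [h1, if_pos h6, hxv, Nat.mod_eq_of_lt (by omega)]
            omega
          · apply Fin.ext
            rw [hyrot, hι, h2, if_pos (by omega)]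
            have : A.length + 2 = A.length + B.length + 2 := by omega
            rw [← this, Nat.mod_self]
        · left
          apply Fin.ext
          rw [h1, hι, h2, if_neg h6, if_pos (by omega)]
          have : (i : ℕ) + 2 + 1 = A.length + B.length + 2 := by omega
          rw [this, Nat.mod_self]
  · by_cases hB : B.length = 0
    · refine ⟨⟨0, hn'⟩, Fin.ext ?_⟩
      rw [hyrot, hι]
      simp only
      rw [if_pos (by omega)]
      have : A.length + 2 = A.length + B.length + 2 := by omega
      rw [← this, Nat.mod_self]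
    · refine ⟨⟨A.length, by omega⟩, Fin.ext ?_⟩
      rw [hyrot, hι]
      simp only
      rw [if_neg (by omega), Nat.mod_eq_of_lt (by omega)]

end Pool.Agent.SqLen
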