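import Pool.Agent.SqLen.Targets

/-! SWAP: cycles of `σ * swap u v`. -/

set_option autoImplicit false

namespace Pool.Agent.SqLen

namespace SWAP_

variable {E : Type} [Fintype E] [DecidableEq E]

open Equiv

/-- induction along a cycle, for an arbitrary reflexive, transitive and symmetric relation -/
theorem rel_of_sameCycle {τ : Perm E} {r : E → E → Prop} (hr : ∀ x, r x x)
    (ht : ∀ x y z, r x y → r y z → r x z) (h1 : ∀ x, r x (τ x)) {x y : E}
    (h : τ.SameCycle x y) : r x y := by
  obtain ⟨n, rfl⟩ := h.exists_nat_pow_eq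
  clear h
  induction n with
  | zero => exact hr x
  | succ n ih =>
    refine ht _ _ _ ih ?_
    rw [pow_succ', Perm.mul_apply]
    exact h1 _

theorem swap_swap' (σ : Perm E) (u v : E) : σ * swap u v * swap u v = σ := by
  rw [mul_assoc, swap_mul_self, mul_one]

/-- if `u` and `v` are in the same cycle of `σ`, they are not in the same cycle of
`σ * swap u v` -/
theorem split {σ : Perm E} {u v : E} (huv : u ≠ v) (h : σ.SameCycle u v) :
    ¬ (σ * swap u v).SameCycle u v := by
  classical
  have hex : ∃ k : ℕ, 0 < k ∧ (σ ^ k) v = u := by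
    obtain ⟨i, hi, _, h2⟩ := h.symm.exists_pow_eq''
    exact ⟨i, hi, h2⟩
  set k := Nat.find hex with hk
  have hk1 : 0 < k := (Nat.find_spec hex).1
  have hk2 : (σ ^ k) v = u := (Nat.find_spec hex).2
  have hmin : ∀ j, 0 < j → j < k → (σ ^ j) v ≠ u := fun j hj hjk hju =>
    Nat.find_min hex hjk ⟨hj, hju⟩
  have hv : ∀ j, 0 < j → j < k → (σ ^ j) v ≠ v := by
    intro j hj hjk hjv
    apply hmin (k - j) (by omega) (by omega)
    have h3 : (σ ^ (k - j)) ((σ ^ j) v) = u := by
      rw [← Perm.mul_apply, ← pow_add, Nat.sub_add_cancel hjk.le, hk2]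
    rwa [hjv] at h3
  intro hs
  obtain ⟨i, hi⟩ := hs.exists_nat_pow_eq
  -- the orbit of `u` stays in the set of the first `k` powers
  have key : ∀ i : ℕ, ∃ j, 0 < j ∧ j ≤ k ∧ ((σ * swap u v) ^ i) u = (σ ^ j) v := by
    intro i
    induction i with
    | zero => exact ⟨k, hk1, le_rfl, by simp [hk2]⟩
    | succ i ih =>
      obtain ⟨j, hj, hjk, e⟩ := ih
      rw [pow_succ', Perm.mul_apply, e]
      rcases eq_or_lt_of_le hjk with h0 | h0
      · refine ⟨1, one_pos, hk1, ?_⟩
        rw [h0, hk2, Perm.mul_apply, swap_apply_left, pow_one]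
      · refine ⟨j + 1, Nat.succ_pos _, h0, ?_⟩
        rw [Perm.mul_apply, swap_apply_of_ne_of_ne (hmin j hj h0) (hv j hj h0), pow_succ' σ j,
          Perm.mul_apply]
  obtain ⟨j, hj, hjk, e⟩ := key i
  rw [hi] at e
  rcases eq_or_lt_of_le hjk with h0 | h0
  · rw [h0, hk2] at e
    exact huv e.symm
  · exact hv j hj h0 e.symm

/-- if `u` and `v` are in different cycles of `σ`, they are in the same cycle of
`σ * swap u v` -/
theorem join {σ : Perm E} {u v : E} (h : ¬ σ.SameCycle u v) :
    (σ * swap u v).SameCycle u v := by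
  classical
  have hex : ∃ k : ℕ, 0 < k ∧ (σ ^ k) v = v := by
    refine ⟨orderOf σ, orderOf_pos σ, ?_⟩
    rw [pow_orderOf_eq_one, Perm.one_apply]
  set k := Nat.find hex with hk
  have hk1 : 0 < k := (Nat.find_spec hex).1
  have hk2 : (σ ^ k) v = v := (Nat.find_spec hex).2
  have hmin : ∀ j, 0 < j → j < k → (σ ^ j) v ≠ v := fun j hj hjk hju =>
    Nat.find_min hex hjk ⟨hj, hju⟩
  have hu : ∀ j : ℕ, (σ ^ j) v ≠ u := by
    intro j hj
    apply h
    exact Perm.SameCycle.symm ⟨(j : ℤ), by rw [zpow_natCast, hj]⟩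
  have key : ∀ j : ℕ, 0 < j → j ≤ k → ((σ * swap u v) ^ j) u = (σ ^ j) v := by
    intro j hj
    induction j with
    | zero => exact absurd hj (lt_irrefl _)
    | succ j ih =>
      intro hjk
      rcases Nat.eq_zero_or_pos j with h0 | h0
      · subst h0
        simp
      · rw [pow_succ', Perm.mul_apply, ih h0 (by omega), Perm.mul_apply,
          swap_apply_of_ne_of_ne (hu j) (hmin j h0 (by omega)), pow_succ' σ j, Perm.mul_apply]
  refine ⟨(k : ℤ), ?_⟩
  rw [zpow_natCast, key k hk1 le_rfl, hk2]

/-- cycles of `σ * swap u v` are contained in the join -/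
theorem contained (σ : Perm E) (u v : E) {x y : E} (h : (σ * swap u v).SameCycle x y) :
    σ.SameCycle x y ∨ (σ.SameCycle x u ∧ σ.SameCycle v y) ∨
      (σ.SameCycle x v ∧ σ.SameCycle u y) := by
  refine rel_of_sameCycle (τ := σ * swap u v)
    (r := fun x y => σ.SameCycle x y ∨ (σ.SameCycle x u ∧ σ.SameCycle v y) ∨
      (σ.SameCycle x v ∧ σ.SameCycle u y)) ?_ ?_ ?_ h
  · intro x
    exact Or.inl (Perm.SameCycle.refl σ x)
  · rintro x y z (h1 | ⟨h1, h1'⟩ | ⟨h1, h1'⟩) (h2 | ⟨h2, h2'⟩ | ⟨h2, h2'⟩)
    · exact Or.inl (h1.trans h2)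
    · exact Or.inr (Or.inl ⟨h1.trans h2, h2'⟩)
    · exact Or.inr (Or.inr ⟨h1.trans h2, h2'⟩)
    · exact Or.inr (Or.inl ⟨h1, h1'.trans h2⟩)
    · exact Or.inr (Or.inl ⟨h1, h2'⟩)
    · exact Or.inl (h1.trans h2')
    · exact Or.inr (Or.inr ⟨h1, h1'.trans h2⟩)
    · exact Or.inl (h1.trans h2')
    · exact Or.inr (Or.inr ⟨h1, h2'⟩)
  · intro x
    have hx : ∀ y, σ.SameCycle y (σ y) := fun y =>
      Perm.sameCycle_apply_right.2 (Perm.SameCycle.refl σ y)
    rw [Perm.mul_apply]
    rcases eq_or_ne x u with h1 | h1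
    · subst h1
      rw [swap_apply_left]
      exact Or.inr (Or.inl ⟨Perm.SameCycle.refl _ _, hx v⟩)
    · rcases eq_or_ne x v with h2 | h2
      · subst h2
        rw [swap_apply_right]
        exact Or.inr (Or.inr ⟨Perm.SameCycle.refl _ _, hx u⟩)
      · rw [swap_apply_of_ne_of_ne h1 h2]
        exact Or.inl (hx x)

/-- the cycles of `σ` in terms of those of `σ * swap u v` -/
theorem contained' (σ : Perm E) (u v : E) {x y : E} (h : σ.SameCycle x y) :
    (σ * swap u v).SameCycle x y ∨
      ((σ * swap u v).SameCycle x u ∧ (σ * swap u v).SameCycle v y) ∨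
      ((σ * swap u v).SameCycle x v ∧ (σ * swap u v).SameCycle u y) := by
  apply contained (σ * swap u v) u v
  rwa [swap_swap']

/-- different cycles are joined, nothing is separated -/
theorem mono {σ : Perm E} {u v : E} (h : ¬ σ.SameCycle u v) {x y : E}
    (hxy : σ.SameCycle x y) : (σ * swap u v).SameCycle x y := by
  have h1 := join h
  rcases contained' σ u v hxy with h2 | ⟨h2, h3⟩ | ⟨h2, h3⟩
  · exact h2
  · exact h2.trans (h1.trans h3)
  · exact h2.trans (h1.symm.trans h3)

/-- powers away from `u` and `v` -/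
theorem pow_away {σ : Perm E} {u v x : E} (hu : ¬ σ.SameCycle x u) (hv : ¬ σ.SameCycle x v)
    (n : ℕ) : ((σ * swap u v) ^ n) x = (σ ^ n) x := by
  induction n with
  | zero => rfl
  | succ n ih =>
    have h0 : σ.SameCycle x ((σ ^ n) x) :=
      Perm.sameCycle_pow_right.2 (Perm.SameCycle.refl σ x)
    have h1 : (σ ^ n) x ≠ u := fun h => hu (by rwa [h] at h0)
    have h2 : (σ ^ n) x ≠ v := fun h => hv (by rwa [h] at h0)
    rw [pow_succ', Perm.mul_apply, ih, Perm.mul_apply, swap_apply_of_ne_of_ne h1 h2,
      pow_succ' σ n, Perm.mul_apply]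

theorem away {σ : Perm E} {u v x : E} (hu : ¬ σ.SameCycle x u) (hv : ¬ σ.SameCycle x v)
    (y : E) : σ.SameCycle x y ↔ (σ * swap u v).SameCycle x y := by
  constructor
  · intro h
    obtain ⟨n, hn⟩ := h.exists_nat_pow_eq
    refine ⟨(n : ℤ), ?_⟩
    rw [zpow_natCast, pow_away hu hv, hn]
  · intro h
    obtain ⟨n, hn⟩ := h.exists_nat_pow_eq
    refine ⟨(n : ℤ), ?_⟩
    rw [zpow_natCast, ← pow_away hu hv, hn]

theorem mk_eq (σ : Perm E) {x y : E} :
    Quotient.mk (Perm.SameCycle.setoid σ) x = Quotient.mk (Perm.SameCycle.setoid σ) y ↔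
      σ.SameCycle x y :=
  ⟨fun h => Quotient.exact h, fun h => Quotient.sound h⟩

/-- the cycle of `u` splits: more cycles -/
theorem card_split {σ : Perm E} {u v : E} (huv : u ≠ v) (h : σ.SameCycle u v) :
    nCyc σ + 1 ≤ nCyc (σ * swap u v) := by
  classical
  have hle : ∀ x y, (σ * swap u v).SameCycle x y → σ.SameCycle x y := by
    intro x y hxy
    rcases contained σ u v hxy with h2 | ⟨h2, h3⟩ | ⟨h2, h3⟩
    · exact h2
    · exact h2.trans (h.trans h3)
    · exact h2.trans (h.symm.trans h3)
  let f : Quotient (Perm.SameCycle.setoid (σ * swap u v)) → Quotient (Perm.SameCycle.setoid σ) :=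
    fun q => Quotient.liftOn q (fun x => Quotient.mk (Perm.SameCycle.setoid σ) x)
      (fun x y hxy => (mk_eq σ).2 (hle x y hxy))
  have hf : ∀ x, f (Quotient.mk _ x) = Quotient.mk _ x := fun x => rfl
  have hsurj : Function.Surjective f := by
    intro q
    induction q using Quotient.inductionOn with
    | h x => exact ⟨Quotient.mk _ x, hf x⟩
  have hninj : ¬ Function.Injective f := by
    intro hinj
    have h1 : f (Quotient.mk _ u) = f (Quotient.mk _ v) := by
      rw [hf, hf]
      exact (mk_eq σ).2 h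
    exact split huv h ((mk_eq _).1 (hinj h1))
  have h3 := Fintype.card_lt_of_surjective_not_injective f hsurj hninj
  unfold nCyc
  rw [Nat.card_eq_fintype_card, Nat.card_eq_fintype_card]
  exact h3

/-- one swap costs at most one cycle -/
theorem card_le (σ : Perm E) {u v : E} (huv : u ≠ v) :
    nCyc σ ≤ nCyc (σ * swap u v) + 1 := by
  classical
  by_cases h : σ.SameCycle u v
  · have := card_split huv h
    omega
  · let f : Quotient (Perm.SameCycle.setoid σ) →
        Option (Quotient (Perm.SameCycle.setoid (σ * swap u v))) :=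
      fun q => Quotient.liftOn q
        (fun x => if σ.SameCycle x u then none
          else some (Quotient.mk (Perm.SameCycle.setoid (σ * swap u v)) x))
        (by
          intro x y hxy
          have hxy' : σ.SameCycle x y := hxy
          by_cases h1 : σ.SameCycle x u
          · have h2 : σ.SameCycle y u := hxy'.symm.trans h1
            simp only [if_pos h1, if_pos h2]
          · have h2 : ¬ σ.SameCycle y u := fun h2 => h1 (hxy'.trans h2)
            simp only [if_neg h1, if_neg h2]
            exact congrArg some ((mk_eq _).2 (mono h hxy')))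
    have hf : ∀ x, f (Quotient.mk _ x) = if σ.SameCycle x u then none
          else some (Quotient.mk (Perm.SameCycle.setoid (σ * swap u v)) x) := fun x => rfl
    have hinj : Function.Injective f := by
      intro p q
      induction p using Quotient.inductionOn with
      | h x =>
        induction q using Quotient.inductionOn with
        | h y =>
          intro hpq
          rw [hf, hf] at hpq
          by_cases h1 : σ.SameCycle x u
          · by_cases h2 : σ.SameCycle y u
            · exact (mk_eq σ).2 (h1.trans h2.symm)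
            · rw [if_pos h1, if_neg h2] at hpq
              exact absurd hpq (by simp)
          · by_cases h2 : σ.SameCycle y u
            · rw [if_neg h1, if_pos h2] at hpq
              exact absurd hpq (by simp)
            · rw [if_neg h1, if_neg h2] at hpq
              have h3 := (mk_eq _).1 (Option.some_injective _ hpq)
              rcases contained σ u v h3 with h4 | ⟨h4, _⟩ | ⟨_, h4⟩
              · exact (mk_eq σ).2 h4
              · exact absurd h4 h1
              · exact absurd h4.symm h2
    have h3 := Fintype.card_le_of_injective f hinj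
    rw [Fintype.card_option] at h3
    unfold nCyc
    rw [Nat.card_eq_fintype_card, Nat.card_eq_fintype_card]
    exact h3

end SWAP_

theorem p_SWAP : T_SWAP := by
  intro E _ _ σ u v huv
  exact ⟨SWAP_.card_le σ huv, fun h => SWAP_.card_split huv h,
    fun h => ⟨SWAP_.join h, fun x y hxy => SWAP_.mono h hxy⟩,
    fun x y hu hv => SWAP_.away hu hv y⟩

end Pool.Agent.SqLen
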