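import Pool.Agent.SqLen.Targets

/-! Job VEC: the vector of cluster types of a based diagram. -/

set_option autoImplicit false

namespace Pool.Agent.SqLen.VEC_

variable {α : Type} {w : List (α × Bool)}

/-! ### clusters -/

/-- clusters: corners joined by a path with label one -/
def clu (D : Dia w) : Setoid D.C where
  r c d := D.Joined c 1 d
  iseqv := ⟨fun c => D.joined_refl c,
    fun h => by simpa using Ribbon.Joined.symm D.toRibbon h,
    fun h h' => by simpa using Ribbon.Joined.trans D.toRibbon h h'⟩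

/-- the cluster of a corner -/
abbrev cl (D : Dia w) (c : D.C) : Quotient (clu D) := Quotient.mk (clu D) c

theorem cl_eq_iff (D : Dia w) {c d : D.C} : cl D c = cl D d ↔ D.Joined c 1 d :=
  ⟨fun h => Quotient.exact h, fun h => Quotient.sound h⟩

theorem cl_arc (D : Dia w) (c : D.C) : cl D (D.arc c) = cl D c :=
  ((cl_eq_iff D).2 (D.joined_of_disc (D.disc_arc c))).symm

theorem cl_short (D : Dia w) (c : D.C) : cl D (D.short c) = cl D c :=
  ((cl_eq_iff D).2 (D.joined_of_disc (D.disc_short c))).symm

theorem side_joined (D : Dia w) {c d : D.C} (hl : D.lab c = D.lab d) (h : D.Joined c 1 d) :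
    D.Joined (D.side c) 1 (D.side d) := by
  have h1 := D.joined_side (D.side c)
  rw [D.side_side, D.lab_side] at h1
  have h2 := D.joined_side d
  have := Ribbon.Joined.trans D.toRibbon (Ribbon.Joined.trans D.toRibbon h1 h) h2
  simpa [hl] using this

theorem cl_side (D : Dia w) {c d : D.C} (hl : eletter (D.ty c) = eletter (D.ty d))
    (h : cl D c = cl D d) : cl D (D.side c) = cl D (D.side d) := by
  refine (cl_eq_iff D).2 (side_joined D ?_ ((cl_eq_iff D).1 h))
  rw [D.lab_eq, D.lab_eq, hl]

/-- corners of the same type in one cluster are equal -/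
theorem uniq (D : Dia w) (hB : D.Based) {c d : D.C} (ht : D.ty c = D.ty d)
    (h : cl D c = cl D d) : c = d := by
  have hB' := D.based_iff.1 hB
  have key : ∀ n : ℕ, ∀ c d : D.C, ((D.ty c).1 : ℕ) = n → (D.ty c).2 = false →
      D.ty c = D.ty d → cl D c = cl D d → c = d := by
    intro n
    induction n with
    | zero =>
      intro c d h1 h2 h3 h4
      exact hB' c d ⟨h1, h2⟩ ⟨by rw [← h3]; exact h1, by rw [← h3]; exact h2⟩
        ((cl_eq_iff D).1 h4)
    | succ n ih =>
      intro c d h1 h2 h3 h4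
      have ha : D.ty (D.side (D.arc c)) = D.ty (D.side (D.arc d)) := by
        rw [D.ty_side, D.ty_side, D.ty_arc, D.ty_arc, h3]
      have hcl : cl D (D.side (D.arc c)) = cl D (D.side (D.arc d)) := by
        refine cl_side D ?_ ?_
        · rw [D.ty_arc, D.ty_arc, h3]
        · rw [cl_arc, cl_arc, h4]
      have hs := ih (D.side (D.arc c)) (D.side (D.arc d)) ?_ ?_ ha hcl
      · exact D.arc_inj.1 (D.side_inj.1 hs)
      · rw [D.ty_side, D.ty_arc, eopp_fst]
        generalize hu : D.ty c = u at h1 h2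
        rcases u with ⟨i, b⟩
        simp only at h1 h2
        subst h2
        rw [ecor_false]
        simp only
        have h5 := finRotate_val w.length ((finRotate w.length).symm i)
        rw [Equiv.apply_symm_apply, h1] at h5
        have h6 := ((finRotate w.length).symm i).isLt
        rcases Nat.lt_or_ge (((finRotate w.length).symm i : ℕ) + 1) w.length with h7 | h7
        · rw [Nat.mod_eq_of_lt h7] at h5
          omega
        · have h8 : ((finRotate w.length).symm i : ℕ) + 1 = w.length := by omega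
          rw [h8, Nat.mod_self] at h5
          omega
      · rw [D.ty_side, D.ty_arc]
        simp [h2]
  cases hb : (D.ty c).2 with
  | false => exact key _ c d rfl hb ht h
  | true =>
    have hs := key _ (D.side c) (D.side d) rfl (by rw [D.ty_side]; simp [hb])
      (by rw [D.ty_side, D.ty_side, ht]) (cl_side D (by rw [ht]) h)
    exact D.side_inj.1 hs

/-! ### the type of a cluster -/

open Classical in
/-- the type of a cluster -/
noncomputable def typ (D : Dia w) (κ : Quotient (clu D)) : CT w := fun u =>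
  if h : ∃ c : D.C, cl D c = κ ∧ D.ty c = u then some (D.ty (D.short h.choose)) else none

theorem typ_isSome_iff (D : Dia w) {κ : Quotient (clu D)} {u : ET w} :
    (typ D κ u).isSome ↔ ∃ c : D.C, cl D c = κ ∧ D.ty c = u := by
  unfold typ
  by_cases h : ∃ c : D.C, cl D c = κ ∧ D.ty c = u
  · simp only [h, dif_pos, Option.isSome_some]
  · simp only [h, dif_neg, not_false_iff, Option.isSome_none, Bool.false_eq_true]

theorem typ_cl (D : Dia w) (hB : D.Based) (c : D.C) :
    typ D (cl D c) (D.ty c) = some (D.ty (D.short c)) := by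
  unfold typ
  have h : ∃ d : D.C, cl D d = cl D c ∧ D.ty d = D.ty c := ⟨c, rfl, rfl⟩
  rw [dif_pos h]
  have h1 := h.choose_spec
  have h2 : h.choose = c := uniq D hB h1.2 h1.1
  rw [h2]

theorem typ_some_iff (D : Dia w) (hB : D.Based) {κ : Quotient (clu D)} {u v : ET w} :
    typ D κ u = some v ↔ ∃ c : D.C, cl D c = κ ∧ D.ty c = u ∧ D.ty (D.short c) = v := by
  constructor
  · intro h
    obtain ⟨c, hc, hu⟩ := (typ_isSome_iff D).1 (by rw [h]; rfl : (typ D κ u).isSome)
    refine ⟨c, hc, hu, ?_⟩
    have := typ_cl D hB c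
    rw [hc, hu, h] at this
    exact (Option.some.inj this).symm
  · rintro ⟨c, rfl, rfl, rfl⟩
    exact typ_cl D hB c

theorem typ_valid (D : Dia w) (hB : D.Based) (κ : Quotient (clu D)) : (typ D κ).Valid := by
  constructor
  · intro u v h
    obtain ⟨c, rfl, rfl, rfl⟩ := (typ_some_iff D hB).1 h
    refine ⟨(typ_some_iff D hB).2 ⟨D.short c, cl_short D c, rfl, by rw [D.short_short]⟩, ?_,
      D.ty_short_lab c⟩
    intro h'
    exact D.short_ne c (uniq D hB h' (cl_short D c))
  · intro u h
    obtain ⟨c, rfl, rfl⟩ := (typ_isSome_iff D).1 h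
    exact (typ_isSome_iff D).2 ⟨D.arc c, cl_arc D c, D.ty_arc c⟩

/-! ### crossing an edge -/

theorem flip_flip (d : CT w) : d.flip.flip = d := by
  funext u
  simp only [CT.flip, eopp_eopp, Option.map_map]
  have : (eopp (w := w)) ∘ eopp = id := by funext x; simp
  rw [this, Option.map_id, id]

theorem out_flip (D : Dia w) (hB : D.Based) {s : α × Bool} (c : D.C)
    (hc : eletter (D.ty c) = s) :
    (typ D (cl D (D.side c))).out (linv s) = ((typ D (cl D c)).out s).flip := by
  classical
  funext u
  simp only [CT.out, CT.flip]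
  by_cases hu : eletter u = linv s
  · have hu' : eletter (eopp u) = s := by rw [eletter_eopp, hu, linv_linv]
    rw [if_pos hu, if_pos hu']
    apply Option.ext
    intro v
    rw [Option.map_eq_some_iff]
    constructor
    · intro h
      obtain ⟨e, he, h1, h2⟩ := (typ_some_iff D hB).1 h
      refine ⟨eopp v, (typ_some_iff D hB).2 ⟨D.side e, ?_, ?_, ?_⟩, eopp_eopp v⟩
      · have := cl_side D (c := e) (d := D.side c) (by rw [h1, hu, D.ty_side, eletter_eopp, hc]) he
        rw [this, D.side_side]
      · rw [D.ty_side, h1]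
      · rw [← D.side_short, D.ty_side, h2]
    · rintro ⟨v', h, rfl⟩
      obtain ⟨e, he, h1, h2⟩ := (typ_some_iff D hB).1 h
      refine (typ_some_iff D hB).2 ⟨D.side e, ?_, ?_, ?_⟩
      · exact cl_side D (by rw [h1, hu', hc]) he
      · rw [D.ty_side, h1, eopp_eopp]
      · rw [← D.side_short, D.ty_side, h2]
  · have hu' : eletter (eopp u) ≠ s := by
      intro h
      apply hu
      rw [eletter_eopp] at h
      rw [← h, linv_linv]
    rw [if_neg hu, if_neg hu']
    rfl

open Classical in
/-- the cluster on the other side of the edge with letter `s` -/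
noncomputable def cross (D : Dia w) (s : α × Bool) (κ : Quotient (clu D)) : Quotient (clu D) :=
  if h : ∃ c : D.C, cl D c = κ ∧ eletter (D.ty c) = s then cl D (D.side h.choose) else κ

theorem cross_cl (D : Dia w) {s : α × Bool} (c : D.C) (hc : eletter (D.ty c) = s) :
    cross D s (cl D c) = cl D (D.side c) := by
  unfold cross
  have h : ∃ d : D.C, cl D d = cl D c ∧ eletter (D.ty d) = s := ⟨c, rfl, hc⟩
  rw [dif_pos h]
  have h1 := h.choose_spec
  exact cl_side D (h1.2.trans hc.symm) h1.1

theorem exists_of_out (D : Dia w) {s : α × Bool} {κ : Quotient (clu D)} {d : CT w}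
    (h : (typ D κ).out s = d) (hd : ∃ u, (d u).isSome) :
    ∃ c : D.C, cl D c = κ ∧ eletter (D.ty c) = s := by
  classical
  obtain ⟨u, hu⟩ := hd
  rw [← h] at hu
  unfold CT.out at hu
  by_cases hs : eletter u = s
  · rw [if_pos hs] at hu
    obtain ⟨c, hc, hc'⟩ := (typ_isSome_iff D).1 hu
    exact ⟨c, hc, by rw [hc', hs]⟩
  · rw [if_neg hs] at hu
    simp at hu

theorem flip_isSome {d : CT w} (hd : ∃ u, (d u).isSome) : ∃ u, (d.flip u).isSome := by
  obtain ⟨u, hu⟩ := hd
  refine ⟨eopp u, ?_⟩
  simp only [CT.flip, eopp_eopp, Option.isSome_map]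
  exact hu

/-- the two sides of the gluing equation are in bijection -/
theorem card_out (D : Dia w) (hB : D.Based) (s : α × Bool) (d : CT w)
    (hd : ∃ u, (d u).isSome) :
    Nat.card {κ : Quotient (clu D) // (typ D κ).out s = d} =
      Nat.card {κ : Quotient (clu D) // (typ D κ).out (linv s) = d.flip} := by
  refine Nat.card_congr ⟨fun κ => ⟨cross D s κ.1, ?_⟩, fun κ => ⟨cross D (linv s) κ.1, ?_⟩, ?_, ?_⟩
  · obtain ⟨κ, hκ⟩ := κ
    obtain ⟨c, rfl, hc⟩ := exists_of_out D hκ hd
    simp only
    rw [cross_cl D c hc, out_flip D hB c hc, hκ]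
  · obtain ⟨κ, hκ⟩ := κ
    obtain ⟨c, rfl, hc⟩ := exists_of_out D hκ (flip_isSome hd)
    simp only
    rw [cross_cl D c hc]
    have := out_flip D hB c hc
    rw [linv_linv] at this
    rw [this, hκ, flip_flip]
  · rintro ⟨κ, hκ⟩
    obtain ⟨c, rfl, hc⟩ := exists_of_out D hκ hd
    apply Subtype.ext
    simp only
    rw [cross_cl D c hc, cross_cl D (D.side c) (by rw [D.ty_side, eletter_eopp, hc]), D.side_side]
  · rintro ⟨κ, hκ⟩
    obtain ⟨c, rfl, hc⟩ := exists_of_out D hκ (flip_isSome hd)
    apply Subtype.ext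
    simp only
    rw [cross_cl D c hc, cross_cl D (D.side c) (by rw [D.ty_side, eletter_eopp, hc, linv_linv]),
      D.side_side]

/-! ### counting -/

instance (D : Dia w) : Finite (Quotient (clu D)) := Quotient.finite _

theorem card_fiber {X Y : Type} [Finite X] [Fintype Y] (f : X → Y) :
    Nat.card X = ∑ y : Y, Nat.card {x : X // f x = y} := by
  rw [← Nat.card_sigma]
  exact Nat.card_congr (Equiv.sigmaFiberEquiv f).symm

/-- the vector of a diagram -/
noncomputable def vec (D : Dia w) (t : CT w) : ℕ :=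
  Nat.card {κ : Quotient (clu D) // typ D κ = t}

theorem sum_typ (D : Dia w) [Fintype (Quotient (clu D))] [Fintype (CT w)] (F : CT w → ℕ) :
    ∑ κ : Quotient (clu D), F (typ D κ) = ∑ t : CT w, vec D t * F t := by
  classical
  rw [← Finset.sum_fiberwise (s := Finset.univ) (g := typ D) (f := fun κ => F (typ D κ))]
  refine Finset.sum_congr rfl fun t _ => ?_
  rw [Finset.sum_congr rfl (g := fun _ => F t)
    (fun κ hκ => by rw [(Finset.mem_filter.1 hκ).2]), Finset.sum_const, smul_eq_mul, vec,
    Nat.card_eq_fintype_card, Fintype.card_subtype]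

theorem sum_filter (D : Dia w) [Fintype (CT w)] (p : CT w → Prop) [DecidablePred p] :
    ∑ t : CT w with p t, vec D t = Nat.card {κ : Quotient (clu D) // p (typ D κ)} := by
  classical
  have := Fintype.ofFinite (Quotient (clu D))
  have h := sum_typ D (fun t => if p t then 1 else 0)
  have h1 : ∑ t : CT w with p t, vec D t = ∑ t : CT w, vec D t * (if p t then 1 else 0) := by
    rw [Finset.sum_filter]
    refine Finset.sum_congr rfl fun t _ => ?_
    split_ifs <;> simp
  rw [h1, ← h, Nat.card_eq_fintype_card, Fintype.card_subtype, Finset.card_filter]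

theorem balanced (D : Dia w) (hB : D.Based) : Balanced (vec D) := by
  classical
  constructor
  · intro t ht
    unfold vec at ht
    have : Nonempty {κ : Quotient (clu D) // typ D κ = t} := by
      by_contra hne
      rw [not_nonempty_iff] at hne
      exact ht Nat.card_of_isEmpty
    obtain ⟨κ, rfl⟩ := this
    exact typ_valid D hB κ
  · intro s d hd
    rw [sum_filter D (fun t => t.out s = d), sum_filter D (fun t => t.out (linv s) = d.flip)]
    exact card_out D hB s d hd

/-- the corners of a cluster -/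
theorem card_corners (D : Dia w) (hB : D.Based) (κ : Quotient (clu D)) :
    Nat.card {c : D.C // cl D c = κ} = (typ D κ).nEnd := by
  unfold CT.nEnd
  refine Nat.card_congr (Equiv.ofBijective
    (fun c => ⟨D.ty c.1, (typ_isSome_iff D).2 ⟨c.1, c.2, rfl⟩⟩) ⟨?_, ?_⟩)
  · rintro ⟨c, hc⟩ ⟨d, hd⟩ h
    have h' : D.ty c = D.ty d := congrArg Subtype.val h
    exact Subtype.ext (uniq D hB h' (hc.trans hd.symm))
  · rintro ⟨u, hu⟩
    obtain ⟨c, hc, hc'⟩ := (typ_isSome_iff D).1 hu
    exact ⟨⟨c, hc⟩, Subtype.ext hc'⟩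

theorem card_base (D : Dia w) (hB : D.Based) (κ : Quotient (clu D)) :
    Nat.card {c : {c : D.C // D.base c} // cl D c.1 = κ} = (typ D κ).nBase := by
  unfold CT.nBase
  refine Nat.card_congr (Equiv.ofBijective
    (fun c => ⟨D.ty c.1.1, (typ_isSome_iff D).2 ⟨c.1.1, c.2, rfl⟩, c.1.2.1, c.1.2.2⟩) ⟨?_, ?_⟩)
  · rintro ⟨⟨c, hc0⟩, hc⟩ ⟨⟨d, hd0⟩, hd⟩ h
    have h' : D.ty c = D.ty d := congrArg Subtype.val h
    have := uniq D hB h' (hc.trans hd.symm)
    subst this
    rfl
  · rintro ⟨u, hu, hu1, hu2⟩
    obtain ⟨c, hc, hc'⟩ := (typ_isSome_iff D).1 hu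
    subst hc'
    exact ⟨⟨⟨c, hu1, hu2⟩, hc⟩, rfl⟩

/-- the cluster of a disc -/
def discCl (D : Dia w) : Quotient D.disc → Quotient (clu D) :=
  Quotient.lift (cl D) fun c d (h : D.disc c d) => (cl_eq_iff D).2 (D.joined_of_disc h)

/-- discs of the type from discs of the diagram -/
theorem disc_to_type (D : Dia w) (hB : D.Based) {κ : Quotient (clu D)} {c d : D.C}
    (hc : cl D c = κ) (hd : cl D d = κ) (h : D.disc c d) :
    (typ D κ).disc ⟨D.ty c, (typ_isSome_iff D).2 ⟨c, hc, rfl⟩⟩
      ⟨D.ty d, (typ_isSome_iff D).2 ⟨d, hd, rfl⟩⟩ := by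
  have key := D.disc_le' (r := fun c d => cl D c = cl D d ∧ ∀ (hc : cl D c = κ) (hd : cl D d = κ),
    (typ D κ).disc ⟨D.ty c, (typ_isSome_iff D).2 ⟨c, hc, rfl⟩⟩
      ⟨D.ty d, (typ_isSome_iff D).2 ⟨d, hd, rfl⟩⟩) ?_ ?_ ?_ ?_ ?_ h
  · exact key.2 hc hd
  · exact fun c => ⟨rfl, fun _ _ => (typ D κ).disc.refl' _⟩
  · exact fun c d h => ⟨h.1.symm, fun hc hd => (typ D κ).disc.symm' (h.2 hd hc)⟩
  · exact fun c d e h h' => ⟨h.1.trans h'.1, fun hc he =>
      (typ D κ).disc.trans' (h.2 hc (h.1 ▸ hc)) (h'.2 (h.1 ▸ hc) he)⟩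
  · intro c
    refine ⟨(cl_arc D c).symm, fun hc hd => Relation.EqvGen.rel _ _ (Or.inl ?_)⟩
    exact D.ty_arc c
  · intro c
    refine ⟨(cl_short D c).symm, fun hc hd => Relation.EqvGen.rel _ _ (Or.inr ?_)⟩
    have := typ_cl D hB c
    rw [hc] at this
    exact this

/-- discs of the diagram from discs of the type -/
theorem type_to_disc (D : Dia w) (hB : D.Based) {κ : Quotient (clu D)}
    {u v : {u : ET w // (typ D κ u).isSome}} (h : (typ D κ).disc u v) :
    ∀ c d : D.C, cl D c = κ → cl D d = κ → D.ty c = u.1 → D.ty d = v.1 → D.disc c d := by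
  have h' : Relation.EqvGen (fun u v : {u : ET w // (typ D κ u).isSome} =>
    v.1 = ecor u.1 ∨ typ D κ u.1 = some v.1) u v := h
  clear h
  induction h' with
  | rel x y hxy =>
    intro c d hc hd h1 h2
    rcases hxy with h | h
    · have : d = D.arc c := by
        refine uniq D hB ?_ ?_
        · rw [h2, h, D.ty_arc, h1]
        · rw [hd, cl_arc, hc]
      rw [this]
      exact D.disc_arc c
    · have : d = D.short c := by
        refine uniq D hB ?_ ?_
        · have h3 := typ_cl D hB c
          rw [hc, h1, h] at h3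
          rw [h2]
          exact Option.some.inj h3
        · rw [hd, cl_short, hc]
      rw [this]
      exact D.disc_short c
  | refl x =>
    intro c d hc hd h1 h2
    have : c = d := uniq D hB (h1.trans h2.symm) (hc.trans hd.symm)
    rw [this]
  | symm x y _ ih =>
    intro c d hc hd h1 h2
    exact D.disc_symm (ih d c hd hc h2 h1)
  | trans x y z _ _ ih1 ih2 =>
    intro c d hc hd h1 h2
    obtain ⟨e, he, he'⟩ := (typ_isSome_iff D).1 y.2
    exact D.disc_trans (ih1 c e hc he h1 he') (ih2 e d he hd he' h2)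

theorem card_discs (D : Dia w) (hB : D.Based) (κ : Quotient (clu D)) :
    Nat.card {x : Quotient D.disc // discCl D x = κ} = (typ D κ).nDisc := by
  unfold CT.nDisc
  symm
  choose cor hcor hcor' using fun u : {u : ET w // (typ D κ u).isSome} =>
    (typ_isSome_iff D).1 u.2
  refine Nat.card_congr (Equiv.ofBijective
    (Quotient.lift (fun u => (⟨Quotient.mk D.disc (cor u), hcor u⟩ :
      {x : Quotient D.disc // discCl D x = κ})) ?_) ⟨?_, ?_⟩)
  · intro u v h
    apply Subtype.ext
    exact Quotient.sound (type_to_disc D hB h _ _ (hcor u) (hcor v) (hcor' u) (hcor' v))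
  · intro x y
    induction x using Quotient.inductionOn with
    | h u =>
    induction y using Quotient.inductionOn with
    | h v =>
    intro h
    have h1 : Quotient.mk D.disc (cor u) = Quotient.mk D.disc (cor v) := congrArg Subtype.val h
    have h2 := disc_to_type D hB (hcor u) (hcor v) (Quotient.exact h1)
    apply Quotient.sound
    have e1 : (⟨D.ty (cor u), (typ_isSome_iff D).2 ⟨cor u, hcor u, rfl⟩⟩ :
      {u : ET w // (typ D κ u).isSome}) = u := Subtype.ext (hcor' u)
    have e2 : (⟨D.ty (cor v), (typ_isSome_iff D).2 ⟨cor v, hcor v, rfl⟩⟩ :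
      {u : ET w // (typ D κ u).isSome}) = v := Subtype.ext (hcor' v)
    rw [e1, e2] at h2
    exact h2
  · rintro ⟨x, hx⟩
    induction x using Quotient.inductionOn with
    | h c =>
    have hc : cl D c = κ := hx
    refine ⟨Quotient.mk _ ⟨D.ty c, (typ_isSome_iff D).2 ⟨c, hc, rfl⟩⟩, ?_⟩
    apply Subtype.ext
    show Quotient.mk D.disc (cor _) = Quotient.mk D.disc c
    have : cor ⟨D.ty c, (typ_isSome_iff D).2 ⟨c, hc, rfl⟩⟩ = c :=
      uniq D hB (hcor' _) ((hcor _).trans hc.symm)
    rw [this]

theorem p_VEC : T_VEC := by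
  intro α w D hB
  classical
  have := Fintype.ofFinite (Quotient (clu D))
  have : Finite (Quotient D.disc) := Quotient.finite _
  refine ⟨vec D, balanced D hB, ?_, ?_, ?_⟩
  · rw [card_fiber (cl D), ← sum_typ D (fun t => t.nEnd)]
    exact Finset.sum_congr rfl fun κ _ => card_corners D hB κ
  · unfold Ribbon.numDiscs
    rw [card_fiber (discCl D), ← sum_typ D (fun t => t.nDisc)]
    exact Finset.sum_congr rfl fun κ _ => card_discs D hB κ
  · unfold Dia.deg
    rw [card_fiber (fun c : {c : D.C // D.base c} => cl D c.1), ← sum_typ D (fun t => t.nBase)]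
    exact Finset.sum_congr rfl fun κ _ => card_base D hB κ

end Pool.Agent.SqLen.VEC_

namespace Pool.Agent.SqLen

theorem p_VEC : T_VEC := VEC_.p_VEC

end Pool.Agent.SqLen
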