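import Pool.Agent.SqLen.Letter

/-! Basic facts. -/

set_option autoImplicit false

namespace Pool.Agent.SqLen

variable {α : Type}

/-! ### letters -/

@[simp] theorem linv_linv (s : α × Bool) : linv (linv s) = s := by
  rcases s with ⟨a, b⟩; simp [linv]

theorem linv_ne (s : α × Bool) : linv s ≠ s := by
  rcases s with ⟨a, b⟩; cases b <;> simp [linv]

theorem linv_inj {s t : α × Bool} : linv s = linv t ↔ s = t := by
  constructor
  · intro h
    rw [← linv_linv s, h, linv_linv]
  · rintro rfl; rfl

theorem mk_linv (s : α × Bool) : FreeGroup.mk [linv s] = (FreeGroup.mk [s])⁻¹ := by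
  rw [FreeGroup.inv_mk]
  rfl

theorem mk_inj {s t : α × Bool} : FreeGroup.mk [s] = FreeGroup.mk [t] ↔ s = t := by
  constructor
  · intro h
    obtain ⟨c, hc, hc'⟩ := FreeGroup.Red.exact.1 h
    rw [FreeGroup.Red.singleton_iff] at hc hc'
    have := hc.symm.trans hc'
    simpa using this
  · rintro rfl; rfl

/-! ### types of corners -/

section types

variable {w : List (α × Bool)}

@[simp] theorem eopp_eopp (u : ET w) : eopp (eopp u) = u := by
  rcases u with ⟨i, b⟩; simp [eopp]

theorem eopp_ne (u : ET w) : eopp u ≠ u := by
  rcases u with ⟨i, b⟩; cases b <;> simp [eopp]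

theorem ecor_true (i : Fin w.length) :
    ecor (w := w) (i, true) = (finRotate w.length i, false) := rfl

theorem ecor_false (i : Fin w.length) :
    ecor (w := w) (i, false) = ((finRotate w.length).symm i, true) := rfl

@[simp] theorem ecor_ecor (u : ET w) : ecor (ecor u) = u := by
  rcases u with ⟨i, b⟩
  cases b
  · rw [ecor_false, ecor_true, Equiv.apply_symm_apply]
  · rw [ecor_true, ecor_false, Equiv.symm_apply_apply]

theorem ecor_ne (u : ET w) : ecor u ≠ u := by
  rcases u with ⟨i, b⟩; cases b <;> simp [ecor]

theorem eopp_inj {u v : ET w} : eopp u = eopp v ↔ u = v := by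
  constructor
  · intro h
    rw [← eopp_eopp u, h, eopp_eopp]
  · rintro rfl; rfl

theorem ecor_inj {u v : ET w} : ecor u = ecor v ↔ u = v := by
  constructor
  · intro h
    rw [← ecor_ecor u, h, ecor_ecor]
  · rintro rfl; rfl

@[simp] theorem eopp_fst (u : ET w) : (eopp u).1 = u.1 := rfl

@[simp] theorem eopp_snd (u : ET w) : (eopp u).2 = !u.2 := rfl

@[simp] theorem ecor_snd (u : ET w) : (ecor u).2 = !u.2 := by
  rcases u with ⟨i, b⟩; cases b <;> simp [ecor]

@[simp] theorem eletter_eopp (u : ET w) : eletter (eopp u) = linv (eletter u) := by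
  rcases u with ⟨i, b⟩; cases b <;> simp [eletter, eopp]

theorem eletter_false (i : Fin w.length) : eletter (w := w) (i, false) = w.get i := by
  simp [eletter]

theorem eletter_true (i : Fin w.length) : eletter (w := w) (i, true) = linv (w.get i) := by
  simp [eletter]

/-- the label of a corner determines on which side of the letter it is -/
theorem snd_of_eletter {u v : ET w} (h : eletter v = eletter u) :
    v.2 = if (w.get v.1).2 = (w.get u.1).2 then u.2 else !u.2 := by
  rcases u with ⟨i, b⟩
  rcases v with ⟨j, c⟩
  have h2 := congrArg Prod.snd h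
  clear h
  revert h2
  simp only [eletter, linv]
  generalize (w.get i) = x
  generalize (w.get j) = y
  rcases x with ⟨x1, x2⟩
  rcases y with ⟨y1, y2⟩
  cases b <;> cases c <;> cases x2 <;> cases y2 <;> simp

theorem finRotate_val (n : ℕ) (i : Fin n) : ((finRotate n i : Fin n) : ℕ) = ((i : ℕ) + 1) % n := by
  cases n with
  | zero => exact i.elim0
  | succ n =>
    rw [finRotate_apply]
    simp [Fin.val_add]

end types

/-! ### ribbons -/

namespace Ribbon

variable {G : Type} [Group G] (D : Ribbon G)

theorem disc_refl (c : D.C) : D.disc c c := D.disc.refl' c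

theorem disc_symm {c d : D.C} (h : D.disc c d) : D.disc d c := D.disc.symm' h

theorem disc_trans {c d e : D.C} (h : D.disc c d) (h' : D.disc d e) : D.disc c e :=
  D.disc.trans' h h'

theorem disc_arc (c : D.C) : D.disc c (D.arc c) := Relation.EqvGen.rel _ _ (Or.inl rfl)

theorem disc_short (c : D.C) : D.disc c (D.short c) := Relation.EqvGen.rel _ _ (Or.inr rfl)

theorem mk_eq_iff {c d : D.C} : Quotient.mk D.disc c = Quotient.mk D.disc d ↔ D.disc c d :=
  ⟨fun h => Quotient.exact h, fun h => Quotient.sound h⟩

/-- a map which is constant along arcs and short sides is constant on discs -/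
theorem disc_le {β : Type} (φ : D.C → β) (h1 : ∀ c, φ (D.arc c) = φ c)
    (h2 : ∀ c, φ (D.short c) = φ c) {c d : D.C} (h : D.disc c d) : φ c = φ d := by
  have h' : Relation.EqvGen (fun c d => d = D.arc c ∨ d = D.short c) c d := h
  induction h' with
  | rel x y hxy =>
    rcases hxy with rfl | rfl
    · exact (h1 x).symm
    · exact (h2 x).symm
  | refl x => rfl
  | symm x y _ ih => exact (ih (D.disc_symm h)).symm
  | trans x y z hxy hyz ih1 ih2 => exact (ih1 hxy).trans (ih2 hyz)

/-- the relation `disc` is contained in every equivalence relation which contains the links -/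
theorem disc_le' {r : D.C → D.C → Prop} (hr : ∀ c, r c c) (hs : ∀ c d, r c d → r d c)
    (ht : ∀ c d e, r c d → r d e → r c e)
    (h1 : ∀ c, r c (D.arc c)) (h2 : ∀ c, r c (D.short c)) {c d : D.C} (h : D.disc c d) :
    r c d := by
  have h' : Relation.EqvGen (fun c d => d = D.arc c ∨ d = D.short c) c d := h
  induction h' with
  | rel x y hxy =>
    rcases hxy with rfl | rfl
    · exact h1 x
    · exact h2 x
  | refl x => exact hr x
  | symm x y _ ih => exact hs _ _ (ih (D.disc_symm h))
  | trans x y z hxy hyz ih1 ih2 => exact ht _ _ _ (ih1 hxy) (ih2 hyz)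

theorem side_inj {c d : D.C} : D.side c = D.side d ↔ c = d :=
  ⟨fun h => by rw [← D.side_side c, h, D.side_side], fun h => by rw [h]⟩

theorem short_inj {c d : D.C} : D.short c = D.short d ↔ c = d :=
  ⟨fun h => by rw [← D.short_short c, h, D.short_short], fun h => by rw [h]⟩

theorem arc_inj {c d : D.C} : D.arc c = D.arc d ↔ c = d :=
  ⟨fun h => by rw [← D.arc_arc c, h, D.arc_arc], fun h => by rw [h]⟩

theorem isPath_nil {c d : D.C} : D.IsPath c [] d ↔ D.disc c d := Iff.rfl

theorem isPath_cons {c d f : D.C} {l : List D.C} :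
    D.IsPath c (f :: l) d ↔ D.disc c f ∧ D.IsPath (D.side f) l d := Iff.rfl

theorem IsPath.left {c c' d : D.C} {l : List D.C} (h : D.IsPath c l d) (hc : D.disc c' c) :
    D.IsPath c' l d := by
  cases l with
  | nil => exact D.disc_trans hc h
  | cons f l => exact ⟨D.disc_trans hc h.1, h.2⟩

theorem IsPath.right {c d d' : D.C} {l : List D.C} (h : D.IsPath c l d) (hd : D.disc d d') :
    D.IsPath c l d' := by
  induction l generalizing c with
  | nil => exact D.disc_trans h hd
  | cons f l ih => exact ⟨h.1, ih h.2⟩

theorem IsPath.append {c d e : D.C} {l m : List D.C} (h : D.IsPath c l d)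
    (h' : D.IsPath d m e) : D.IsPath c (l ++ m) e := by
  induction l generalizing c with
  | nil => exact IsPath.left D h' h
  | cons f l ih => exact ⟨h.1, ih h.2⟩

theorem isPath_append {c e : D.C} {l m : List D.C} (h : D.IsPath c (l ++ m) e) :
    ∃ d, D.IsPath c l d ∧ D.IsPath d m e := by
  induction l generalizing c with
  | nil => exact ⟨c, D.disc_refl c, h⟩
  | cons f l ih =>
    obtain ⟨d, hd, hd'⟩ := ih h.2
    exact ⟨d, ⟨h.1, hd⟩, hd'⟩

/-- the reversed path -/
def rev (l : List D.C) : List D.C := (l.map D.side).reverse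

theorem IsPath.rev {c d : D.C} {l : List D.C} (h : D.IsPath c l d) : D.IsPath d (D.rev l) c := by
  induction l generalizing c with
  | nil => exact D.disc_symm h
  | cons f l ih =>
    have h1 := ih h.2
    have h2 : D.IsPath (D.side f) [D.side f] c :=
      ⟨D.disc_refl _, by rw [D.side_side]; exact D.disc_symm h.1⟩
    have := IsPath.append D h1 h2
    simpa [Ribbon.rev] using this

@[simp] theorem label_nil : D.label [] = 1 := rfl

@[simp] theorem label_cons (f : D.C) (l : List D.C) : D.label (f :: l) = D.lab f * D.label l := by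
  simp [label]

@[simp] theorem label_append (l m : List D.C) : D.label (l ++ m) = D.label l * D.label m := by
  simp [label]

@[simp] theorem label_rev (l : List D.C) : D.label (D.rev l) = (D.label l)⁻¹ := by
  induction l with
  | nil => simp [rev]
  | cons f l ih =>
    have : D.rev (f :: l) = D.rev l ++ [D.side f] := by simp [rev]
    rw [this, label_append, ih]
    simp [D.lab_side]

/-- `c` and `d` are joined by a path with label `g` -/
def Joined (c : D.C) (g : G) (d : D.C) : Prop := ∃ l, D.IsPath c l d ∧ D.label l = g

theorem joined_of_disc {c d : D.C} (h : D.disc c d) : D.Joined c 1 d := ⟨[], h, rfl⟩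

theorem joined_refl (c : D.C) : D.Joined c 1 c := D.joined_of_disc (D.disc_refl c)

theorem Joined.trans {c d e : D.C} {g h : G} (h1 : D.Joined c g d) (h2 : D.Joined d h e) :
    D.Joined c (g * h) e := by
  obtain ⟨l, hl, rfl⟩ := h1
  obtain ⟨m, hm, rfl⟩ := h2
  exact ⟨l ++ m, IsPath.append D hl hm, by simp⟩

theorem Joined.symm {c d : D.C} {g : G} (h1 : D.Joined c g d) : D.Joined d g⁻¹ c := by
  obtain ⟨l, hl, rfl⟩ := h1
  exact ⟨D.rev l, IsPath.rev D hl, by simp⟩

theorem joined_side (c : D.C) : D.Joined c (D.lab c) (D.side c) :=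
  ⟨[c], ⟨D.disc_refl c, D.disc_refl _⟩, by simp⟩

/-- If every arc, short side and strip of `D'` can be replaced by a path with the same label in
`D`, then so can every path. The carriers are related by a map `φ`. -/
theorem joined_map {D' : Ribbon G} (φ : D'.C → D.C)
    (harc : ∀ c, D.Joined (φ c) 1 (φ (D'.arc c)))
    (hshort : ∀ c, D.Joined (φ c) 1 (φ (D'.short c)))
    (hside : ∀ c, D.Joined (φ c) (D'.lab c) (φ (D'.side c)))
    {c d : D'.C} {g : G} (h : D'.Joined c g d) : D.Joined (φ c) g (φ d) := by
  have hdisc : ∀ {c d : D'.C}, D'.disc c d → D.Joined (φ c) 1 (φ d) := by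
    intro c d h
    refine D'.disc_le' (r := fun c d => D.Joined (φ c) 1 (φ d)) (fun c => D.joined_refl _)
      (fun c d h => by simpa using Joined.symm D h)
      (fun c d e h h' => by simpa using Joined.trans D h h') harc hshort h
  obtain ⟨l, hl, rfl⟩ := h
  induction l generalizing c with
  | nil => exact hdisc hl
  | cons f l ih =>
    have h1 := hdisc hl.1
    have h2 := ih hl.2
    have h3 := Joined.trans D (Joined.trans D h1 (hside f)) h2
    simpa using h3

end Ribbon

/-! ### letter-level diagrams -/

namespace Dia

variable {w : List (α × Bool)} (D : Dia w)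

theorem ty_short_lab (c : D.C) : eletter (D.ty (D.short c)) = eletter (D.ty c) := by
  have h := D.lab_short c
  rw [D.lab_eq, D.lab_eq] at h
  exact mk_inj.1 h

theorem based_iff : D.Based ↔ ∀ c d : D.C, D.base c → D.base d → D.Joined c 1 d → c = d := by
  constructor
  · intro h c d hc hd hj
    by_contra hne
    obtain ⟨l, hl, hl'⟩ := hj
    exact h c d hc hd hne l hl hl'
  · intro h c d hc hd hne l hl hl'
    exact hne (h c d hc hd ⟨l, hl, hl'⟩)

/-- a diagram from its corners and their types -/
def ofTypes (C : Type) [Finite C] (side short arc : C → C) (ty : C → ET w)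
    (side_side : ∀ c, side (side c) = c) (short_short : ∀ c, short (short c) = c)
    (arc_arc : ∀ c, arc (arc c) = c) (side_short : ∀ c, side (short c) = short (side c))
    (short_ne : ∀ c, short c ≠ c) (side_ne_short : ∀ c, side c ≠ short c)
    (ty_side : ∀ c, ty (side c) = eopp (ty c)) (ty_arc : ∀ c, ty (arc c) = ecor (ty c))
    (ty_short : ∀ c, eletter (ty (short c)) = eletter (ty c)) : Dia w where
  C := C
  side := side
  short := short
  arc := arc
  side_side := side_side
  short_short := short_short
  arc_arc := arc_arc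
  side_ne := fun c h => eopp_ne (ty c) (by rw [← ty_side, h])
  short_ne := short_ne
  arc_ne := fun c h => ecor_ne (ty c) (by rw [← ty_arc, h])
  side_short := side_short
  side_ne_short := side_ne_short
  lab := fun c => FreeGroup.mk [eletter (ty c)]
  lab_side := fun c => by rw [ty_side, eletter_eopp, mk_linv]
  lab_short := fun c => by rw [ty_short]
  ty := ty
  ty_side := ty_side
  ty_arc := ty_arc
  lab_eq := fun _ => rfl

/-- replacing the pairing of the corners by short sides -/
def reshort (s : D.C → D.C) (ss : ∀ c, s (s c) = c) (sne : ∀ c, s c ≠ c)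
    (hs : ∀ c, D.side (s c) = s (D.side c)) (hne : ∀ c, D.side c ≠ s c)
    (hl : ∀ c, D.lab (s c) = D.lab c) : Dia w where
  C := D.C
  fin := D.fin
  side := D.side
  short := s
  arc := D.arc
  side_side := D.side_side
  short_short := ss
  arc_arc := D.arc_arc
  side_ne := D.side_ne
  short_ne := sne
  arc_ne := D.arc_ne
  side_short := hs
  side_ne_short := hne
  lab := D.lab
  lab_side := D.lab_side
  lab_short := hl
  ty := D.ty
  ty_side := D.ty_side
  ty_arc := D.ty_arc
  lab_eq := D.lab_eq

end Dia

/-! ### diagrams of degree one -/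

/-- a gluing of the letters of a cyclic word -/
structure Glu (W : List (α × Bool)) where
  g : Fin W.length → Fin W.length
  gg : ∀ i, g (g i) = i
  ne : ∀ i, g i ≠ i
  gen : ∀ i, (W.get (g i)).1 = (W.get i).1

/-- the pairing of the corners given by a gluing -/
def Glu.short {W : List (α × Bool)} (G : Glu W) (u : ET W) : ET W :=
  (G.g u.1, if (W.get (G.g u.1)).2 = (W.get u.1).2 then u.2 else !u.2)

theorem Glu.short_lab {W : List (α × Bool)} (G : Glu W) (u : ET W) :
    eletter (G.short u) = eletter u := by
  rcases u with ⟨i, b⟩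
  have h1 := G.gen i
  unfold Glu.short eletter linv
  apply Prod.ext
  · by_cases h : (W.get (G.g i)).2 = (W.get i).2 <;> cases b <;> simp_all
  · by_cases h : (W.get (G.g i)).2 = (W.get i).2 <;> cases b <;>
      cases h3 : (W.get i).2 <;> cases h4 : (W.get (G.g i)).2 <;> simp_all

/-- the diagram of degree one of a gluing -/
def Glu.dia {W : List (α × Bool)} (G : Glu W) : Dia W where
  C := ET W
  side := eopp
  short := G.short
  arc := ecor
  side_side := eopp_eopp
  short_short := by
    rintro ⟨i, b⟩
    unfold Glu.short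
    apply Prod.ext
    · exact G.gg i
    · have := G.gg i
      by_cases h : (W.get (G.g i)).2 = (W.get i).2
      · simp only [h, if_true, G.gg]
      · simp only [h, if_false, G.gg]
        rw [if_neg (fun h' => h h'.symm)]
        simp
  arc_arc := ecor_ecor
  side_ne := eopp_ne
  short_ne := fun u h => G.ne u.1 (congrArg Prod.fst h)
  arc_ne := ecor_ne
  side_short := by
    rintro ⟨i, b⟩
    unfold Glu.short eopp
    by_cases h : (W.get (G.g i)).2 = (W.get i).2
    · simp only [h, if_true]
    · simp only [h, if_false]
  side_ne_short := fun u h => G.ne u.1 (congrArg Prod.fst h).symm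
  lab := fun u => FreeGroup.mk [eletter u]
  lab_side := fun u => by rw [eletter_eopp, mk_linv]
  lab_short := fun u => by rw [G.short_lab]
  ty := id
  ty_side := fun _ => rfl
  ty_arc := fun _ => rfl
  lab_eq := fun _ => rfl

/-- the number of discs of the diagram of degree one of a gluing -/
noncomputable def Glu.nd {W : List (α × Bool)} (G : Glu W) : ℕ := G.dia.numDiscs

end Pool.Agent.SqLen
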