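import Pool.Agent.SqLen.Targets

/-! CONV: letter-level diagrams are diagrams. -/

set_option autoImplicit false

namespace Pool.Agent.SqLen

namespace CONV_

variable {α : Type}

theorem prod_mk (l : List (α × Bool)) :
    (l.map fun s => FreeGroup.mk [s]).prod = FreeGroup.mk l := by
  induction l with
  | nil => rfl
  | cons a l ih =>
    rw [List.map_cons, List.prod_cons, ih, FreeGroup.mul_mk]
    rfl

variable {L : List (α × Bool)} (D : Dia L)

theorem ty_next (c : D.C) (h : (D.ty c).2 = false) :
    (D.ty (D.next c)).2 = false ∧ ((D.ty (D.next c)).1 : ℕ) = ((D.ty c).1 + 1) % L.length := by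
  have h1 : D.ty (D.next c) = ecor (eopp (D.ty c)) := by
    unfold Ribbon.next
    rw [D.ty_arc, D.ty_side]
  rw [h1]
  rcases hc : D.ty c with ⟨j, b⟩
  rw [hc] at h
  simp only at h
  subst h
  refine ⟨by simp, ?_⟩
  change ((ecor (w := L) (j, true)).1 : ℕ) = _
  rw [ecor_true]
  exact finRotate_val _ _

theorem ty_iter (c : D.C) (h : (D.ty c).2 = false) (i : ℕ) :
    (D.ty (D.next^[i] c)).2 = false ∧
      ((D.ty (D.next^[i] c)).1 : ℕ) = ((D.ty c).1 + i) % L.length := by
  induction i with
  | zero =>
    refine ⟨h, ?_⟩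
    simp only [Function.iterate_zero, id, Nat.add_zero]
    exact (Nat.mod_eq_of_lt (D.ty c).1.2).symm
  | succ i ih =>
    rw [Function.iterate_succ_apply']
    have h1 := ty_next D _ ih.1
    refine ⟨h1.1, ?_⟩
    rw [h1.2, ih.2, Nat.mod_add_mod, Nat.add_assoc]

theorem exists_base (c : D.C) (h : (D.ty c).2 = false) : ∃ n : ℕ, D.base (D.next^[n] c) := by
  refine ⟨L.length - (D.ty c).1, ?_, ?_⟩
  · rw [(ty_iter D c h _).2]
    have := (D.ty c).1.2
    rw [Nat.add_sub_cancel' this.le, Nat.mod_self]
  · exact (ty_iter D c h _).1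

theorem deg_pos (h : Nonempty D.C) : 0 < D.deg := by
  obtain ⟨c⟩ := h
  have h1 : ∃ c : D.C, (D.ty c).2 = false := by
    by_cases hc : (D.ty c).2 = false
    · exact ⟨c, hc⟩
    · refine ⟨D.side c, ?_⟩
      rw [D.ty_side, eopp_snd]
      simpa using hc
  obtain ⟨c, hc⟩ := h1
  obtain ⟨n, hn⟩ := exists_base D c hc
  unfold Dia.deg
  have : Nonempty {c : D.C // D.base c} := ⟨⟨_, hn⟩⟩
  exact Nat.card_pos

/-- the diagram of a letter-level diagram -/
def toDiagram : Diagram (FreeGroup.mk L) where
  toRibbon := D.toRibbon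
  fwd := fun c => (D.ty c).2 = false
  fwd_side := fun c => by rw [D.ty_side, eopp_snd]; simp
  fwd_arc := fun c => by rw [D.ty_arc, ecor_snd]; simp
  base := D.base
  base_fwd := fun _ h => h.2
  base_next := by
    intro c hc
    have hL : 0 < L.length := lt_of_le_of_lt (Nat.zero_le _) (D.ty c).1.2
    have key := ty_iter D c hc.2
    simp only [hc.1, Nat.zero_add] at key
    refine ⟨L.length, hL, ⟨?_, ?_⟩, ?_, ?_⟩
    · rw [(key _).2, Nat.mod_self]
    · exact (key _).1
    · intro i hi hi' hb
      have := (key i).2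
      rw [Nat.mod_eq_of_lt hi', hb.1] at this
      omega
    · rw [← prod_mk L]
      congr 1
      apply List.ext_getElem
      · simp
      · intro i h1 h2
        simp only [List.getElem_map, List.getElem_range]
        rw [D.lab_eq]
        have hi : i < L.length := by simpa using h1
        have h3 : D.ty (D.next^[i] c) = (⟨i, hi⟩, false) := by
          apply Prod.ext
          · apply Fin.ext
            rw [(key i).2, Nat.mod_eq_of_lt hi]
          · exact (key i).1
        rw [h3, eletter_false]
        rfl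
  exists_base := fun c h => exists_base D c h

end CONV_

theorem p_CONV : T_CONV := by
  intro α L D hne hb hi
  exact ⟨CONV_.toDiagram D, ⟨hne, hi, hb⟩, rfl, rfl⟩

end Pool.Agent.SqLen
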