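import Mathlib

/-!
# Square length, commutator length and stable square length in free groups

Compact surfaces with boundary are given as ribbon surfaces: finitely many discs joined by
finitely many strips.
-/

set_option autoImplicit false

namespace Pool.Agent.SqLen

/-- A compact surface (orientable or not, possibly not connected, every component with non-empty
boundary) cut into discs and strips, together with a map to a space with fundamental group `G`
which sends the discs to the base point.

`C` is the set of corners of the strips, four for each strip. `side c` is the other corner on the
same long side of the strip (the long sides are in the boundary of the surface), `short c` is the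
other corner on the same short side (the short sides are glued to the discs), and `arc c` is the
other end of the arc from `c` in the boundary of the disc at `c` and in the boundary of the
surface. So going around a disc one meets alternately short sides of strips and arcs, and going
around a boundary circle of the surface one meets alternately long sides and arcs.
`lab c` is the element of `G` read when one enters the strip at `c` and runs along it. -/
structure Ribbon (G : Type) [Group G] where
  C : Type
  [fin : Finite C]
  side : C → C
  short : C → C
  arc : C → C
  side_side : ∀ c, side (side c) = c
  short_short : ∀ c, short (short c) = c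
  arc_arc : ∀ c, arc (arc c) = c
  side_ne : ∀ c, side c ≠ c
  short_ne : ∀ c, short c ≠ c
  arc_ne : ∀ c, arc c ≠ c
  side_short : ∀ c, side (short c) = short (side c)
  side_ne_short : ∀ c, side c ≠ short c
  lab : C → G
  lab_side : ∀ c, lab (side c) = (lab c)⁻¹
  lab_short : ∀ c, lab (short c) = lab c

attribute [instance] Ribbon.fin

namespace Ribbon

variable {G : Type} [Group G] (D : Ribbon G)

/-- two corners lie on the same disc of the surface -/
def disc : Setoid D.C := Relation.EqvGen.setoid fun c d => d = D.arc c ∨ d = D.short c

/-- the number of discs -/
noncomputable def numDiscs : ℕ := Nat.card (Quotient D.disc)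

/-- minus the Euler characteristic: the number of strips minus the number of discs -/
noncomputable def negChi : ℝ := (Nat.card D.C : ℝ) / 4 - D.numDiscs

/-- `D.IsPath c l d`: the list `l` of directed strips (each given by a corner at which it is
entered) is a path which starts at the disc of `c` and ends at the disc of `d`. -/
def IsPath : D.C → List D.C → D.C → Prop
  | c, [], d => D.disc c d
  | c, f :: l, d => D.disc c f ∧ IsPath (D.side f) l d

/-- the element of `G` read along a path -/
def label (l : List D.C) : G := (l.map D.lab).prod

/-- the path has no backtracking -/
def Reduced (l : List D.C) : Prop :=
  l.IsChain fun c d => d ≠ D.side c ∧ d ≠ D.short (D.side c)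

/-- the map is injective on the fundamental groups of all components: a non-empty closed path
without backtracking is not mapped to a null-homotopic loop -/
def Injective : Prop :=
  ∀ (c : D.C) (l : List D.C), D.IsPath c l c → D.Reduced l → l ≠ [] → D.label l ≠ 1

/-- the next long side on the boundary of the surface -/
def next (c : D.C) : D.C := D.arc (D.side c)

end Ribbon

/-- Admissible diagrams for `w`.

`fwd c` says that the long side of `c` is directed away from `c` in the direction of the oriented
circles `P`, which are mapped onto the boundary circles; `base c` says that there is a base point
(a preimage of the base point of the circle under the covering map) on the arc which comes before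
`c`. Between a base point and the following one (the same one, if the covering of the boundary
circle has degree one) one reads `w`, and there is a base point on every boundary circle. -/
structure Diagram {G : Type} [Group G] (w : G) extends Ribbon G where
  fwd : C → Prop
  fwd_side : ∀ c, fwd (side c) ↔ ¬ fwd c
  fwd_arc : ∀ c, fwd (arc c) ↔ ¬ fwd c
  base : C → Prop
  base_fwd : ∀ c, base c → fwd c
  base_next : ∀ c, base c → ∃ n : ℕ, 0 < n ∧ base (toRibbon.next^[n] c) ∧
    (∀ i : ℕ, 0 < i → i < n → ¬ base (toRibbon.next^[i] c)) ∧
    ((List.range n).map fun i => lab (toRibbon.next^[i] c)).prod = w
  exists_base : ∀ c, fwd c → ∃ n : ℕ, base (toRibbon.next^[n] c)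

namespace Diagram

variable {G : Type} [Group G] {w : G} (D : Diagram w)

/-- the degree of the covering map, the number of base points -/
noncomputable def deg : ℕ := Nat.card {c : D.C // D.base c}

/-- a path between two different base points is not mapped to a null-homotopic loop -/
def Based : Prop :=
  ∀ c d : D.C, D.base c → D.base d → c ≠ d → ∀ l : List D.C, D.IsPath c l d → D.label l ≠ 1

/-- efficient diagrams -/
def Efficient : Prop := Nonempty D.C ∧ D.Injective ∧ D.Based

end Diagram

/-- square length -/
noncomputable def sql {G : Type} [Group G] (w : G) : ℕ∞ :=
  ⨅ (g : ℕ) (_ : ∃ l : List G, l.length = g ∧ w = (l.map fun a => a ^ 2).prod), (g : ℕ∞)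

/-- commutator length -/
noncomputable def cl {G : Type} [Group G] (w : G) : ℕ∞ :=
  ⨅ (g : ℕ) (_ : ∃ l : List (G × G), l.length = g ∧
    w = (l.map fun p => p.1 * p.2 * p.1⁻¹ * p.2⁻¹).prod), (g : ℕ∞)

/-- `sql*` -/
noncomputable def sqlStar {G : Type} [Group G] (w : G) : ℕ∞ := min (sql w) (2 * cl w)

open Classical in
/-- stable square length -/
noncomputable def ssql {G : Type} [Group G] (w : G) : EReal :=
  if w = 1 then -1
  else sInf {q : EReal | ∃ D : Diagram w, D.Efficient ∧
    q = ((D.negChi / D.deg : ℝ) : EReal)}

end Pool.Agent.SqLen
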