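import Pool.Agent.SqLen.Defs

/-!
# Letter-level diagrams

Every corner has a type: a position in the word `w` and the information whether it is at the
beginning or at the end of the letter.
-/

set_option autoImplicit false

namespace Pool.Agent.SqLen

variable {α : Type}

/-- The inverse letter. A letter is `(a, true)` for a generator `a` and `(a, false)` for its
inverse, as in `FreeGroup`. -/
def linv (s : α × Bool) : α × Bool := (s.1, !s.2)

/-- types of corners: `(i, false)` is the beginning of the letter number `i`, `(i, true)` its end -/
abbrev ET (w : List (α × Bool)) : Type := Fin w.length × Bool

/-- the letter read from a corner of type `u` -/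
def eletter {w : List (α × Bool)} (u : ET w) : α × Bool :=
  if u.2 then linv (w.get u.1) else w.get u.1

def eopp {w : List (α × Bool)} (u : ET w) : ET w := (u.1, !u.2)

/-- the type of `arc c` for a corner `c` of type `u` -/
def ecor {w : List (α × Bool)} (u : ET w) : ET w :=
  if u.2 then (finRotate w.length u.1, false) else ((finRotate w.length).symm u.1, true)

/-- diagrams in which every strip carries one letter and every segment of the boundary is a
letter of the cyclic word `w` -/
structure Dia (w : List (α × Bool)) extends Ribbon (FreeGroup α) where
  ty : C → ET w
  ty_side : ∀ c, ty (side c) = eopp (ty c)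
  ty_arc : ∀ c, ty (arc c) = ecor (ty c)
  lab_eq : ∀ c, lab c = FreeGroup.mk [eletter (ty c)]

namespace Dia

variable {w : List (α × Bool)} (D : Dia w)

/-- base points: the corners at the beginning of the letter number `0` -/
def base (c : D.C) : Prop := ((D.ty c).1 : ℕ) = 0 ∧ (D.ty c).2 = false

/-- the number of base points -/
noncomputable def deg : ℕ := Nat.card {c : D.C // D.base c}

/-- a path between two different base points is not mapped to a null-homotopic loop -/
def Based : Prop :=
  ∀ c d : D.C, D.base c → D.base d → c ≠ d → ∀ l : List D.C, D.IsPath c l d → D.label l ≠ 1

end Dia

end Pool.Agent.SqLen
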