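import Pool.Agent.SqLen.Conv

/-! MAIN: assembly. -/

set_option autoImplicit false

namespace Pool.Agent.SqLen

namespace MAIN_

open CONV_

variable {α : Type}

theorem exists_of_iInf {P : ℕ → Prop} {n : ℕ} (h : (⨅ (g : ℕ) (_ : P g), (g : ℕ∞)) ≤ n) :
    ∃ g, P g ∧ g ≤ n := by
  have h1 : (⨅ (g : ℕ) (_ : P g), (g : ℕ∞)) < ((n + 1 : ℕ) : ℕ∞) :=
    lt_of_le_of_lt h (by exact_mod_cast Nat.lt_succ_self n)
  rw [iInf_lt_iff] at h1
  obtain ⟨g, hg⟩ := h1
  rw [iInf_lt_iff] at hg
  obtain ⟨hP, hg⟩ := hg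
  refine ⟨g, hP, ?_⟩
  have : g < n + 1 := by exact_mod_cast hg
  omega

/-- a based diagram of degree one with small Euler characteristic gives the bound -/
theorem ssql_le (hB : T_BETTER) (hM : T_MIN) {r : ℕ} (w : FreeGroup (Fin r)) (hw : w ≠ 1)
    (D0 : Dia w.toWord) (h1 : D0.deg = 1) (n : ℕ) (h2 : D0.negChi ≤ (n : ℝ) - 1) :
    ssql w ≤ (((n : ℝ) - 1 : ℝ) : EReal) := by
  have hb0 : D0.Based := by
    rw [Dia.based_iff]
    intro c d hc hd _
    unfold Dia.deg at h1
    rw [Nat.card_eq_one_iff_unique] at h1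
    have := h1.1
    have h3 := Subsingleton.elim (⟨c, hc⟩ : {c : D0.C // D0.base c}) ⟨d, hd⟩
    simpa using h3
  have hne0 : Nonempty D0.C := by
    by_contra hne
    rw [not_nonempty_iff] at hne
    unfold Dia.deg at h1
    have : IsEmpty {c : D0.C // D0.base c} := ⟨fun x => hne.elim x.1⟩
    rw [Nat.card_of_isEmpty] at h1
    omega
  obtain ⟨D, hne, hb, hmin⟩ := hM _ _ ⟨D0, hne0, hb0⟩
  have hinj : D.Injective := by
    by_contra hi
    obtain ⟨D', hb', hne', hlt⟩ := hB _ _ D hb hne hi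
    exact absurd (hmin D' hne' hb') (not_le.2 hlt)
  have hdeg : 0 < D.deg := deg_pos D hne
  have hle := hmin D0 hne0 hb0
  rw [h1] at hle
  have hdeg' : (0 : ℝ) < D.deg := by exact_mod_cast hdeg
  have hle2 : D.negChi ≤ ((n : ℝ) - 1) * D.deg := by
    have : D0.negChi * D.deg ≤ ((n : ℝ) - 1) * D.deg :=
      mul_le_mul_of_nonneg_right h2 hdeg'.le
    simp only [Nat.cast_one, mul_one] at hle
    exact hle.trans this
  have hle3 : D.negChi / D.deg ≤ (n : ℝ) - 1 := by
    rw [div_le_iff₀ hdeg']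
    exact hle2
  have hconv := p_CONV _ _ D hne hb hinj
  rw [FreeGroup.mk_toWord] at hconv
  obtain ⟨D', he, hchi, hdg⟩ := hconv
  unfold ssql
  rw [if_neg hw]
  have hmem : ((D'.negChi / D'.deg : ℝ) : EReal) ∈ {q : EReal | ∃ D : Diagram w, D.Efficient ∧
    q = ((D.negChi / D.deg : ℝ) : EReal)} := ⟨D', he, rfl⟩
  refine (sInf_le hmem).trans ?_
  rw [hchi, hdg]
  exact EReal.coe_le_coe_iff.2 hle3

theorem coe_sub_one (n : ℕ) :
    ((((n : ℕ∞) : ENNReal) : EReal) - 1) = (((n : ℝ) - 1 : ℝ) : EReal) := by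
  have : (((n : ℕ∞) : ENNReal) : EReal) = ((n : ℝ) : EReal) := by
    rw [ENat.toENNReal_coe]
    have : ((n : ENNReal)) = ((n : NNReal) : ENNReal) := by simp
    rw [this, EReal.coe_nnreal_eq_coe_real]
    simp
  rw [this, EReal.coe_sub, EReal.coe_one]

end MAIN_

open MAIN_ in
theorem p_MAIN (hB : T_BETTER) (hM : T_MIN) (hO : T_ONE) : T_MAIN := by
  intro r w
  by_cases hw : w = 1
  · subst hw
    have h1 : sqlStar (1 : FreeGroup (Fin r)) = 0 := by
      have : sql (1 : FreeGroup (Fin r)) ≤ 0 := by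
        unfold sql
        refine (iInf_le _ 0).trans ?_
        refine (iInf_le _ ⟨[], rfl, rfl⟩).trans ?_
        simp
      have h2 : sqlStar (1 : FreeGroup (Fin r)) ≤ 0 := (min_le_left _ _).trans this
      exact le_antisymm h2 bot_le
    have h2 := coe_sub_one 0
    rw [h1]
    unfold ssql
    rw [if_pos rfl]
    simp only [Nat.cast_zero] at h2
    rw [h2]
    simp
  · rcases eq_or_ne (sqlStar w) ⊤ with htop | htop
    · rw [htop]
      have h1 : (((⊤ : ℕ∞) : ENNReal) : EReal) - 1 = ⊤ := by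
        rw [ENat.toENNReal_top, EReal.coe_ennreal_top]
        rfl
      rw [h1]
      exact le_top
    · obtain ⟨n, hn⟩ := ENat.ne_top_iff_exists.1 htop
      rw [← hn, coe_sub_one]
      have hmin : sql w ≤ n ∨ 2 * cl w ≤ n := by
        have : sqlStar w ≤ n := hn ▸ le_rfl
        exact min_le_iff.1 this
      rcases hmin with h | h
      · obtain ⟨g, ⟨l, hl, hlw⟩, hg⟩ := exists_of_iInf h
        obtain ⟨D, hd, hchi⟩ := (hO _ w hw).1 l hlw
        refine ssql_le hB hM w hw D hd n (hchi.trans ?_)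
        rw [hl]
        have : (g : ℝ) ≤ n := by exact_mod_cast hg
        linarith
      · have h3 : cl w ≠ ⊤ := by
          intro h4
          rw [h4] at h
          simp at h
        obtain ⟨m, hm⟩ := ENat.ne_top_iff_exists.1 h3
        have h5 : cl w ≤ m := hm ▸ le_rfl
        obtain ⟨g, ⟨l, hl, hlw⟩, hg⟩ := exists_of_iInf h5
        have h6 : 2 * m ≤ n := by
          rw [← hm] at h
          exact_mod_cast h
        obtain ⟨D, hd, hchi⟩ := (hO _ w hw).2 l hlw
        refine ssql_le hB hM w hw D hd n (hchi.trans ?_)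
        rw [hl]
        have h7 : 2 * g ≤ n := by omega
        have : (2 : ℝ) * (g : ℝ) ≤ n := by exact_mod_cast h7
        linarith

end Pool.Agent.SqLen
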