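import Pool.Agent.SqLen.Basic

/-! Exact targets of the jobs. -/

set_option autoImplicit false

namespace Pool.Agent.SqLen

/-! ### counting orbits of two involutions -/

/-- orbits of the group generated by two involutions -/
def orb {E : Type} (k g : Equiv.Perm E) : Setoid E :=
  Relation.EqvGen.setoid fun e f => f = k e ∨ f = g e

noncomputable def nOrb {E : Type} (k g : Equiv.Perm E) : ℕ := Nat.card (Quotient (orb k g))

/-- the re-pairing of a fold: `a, g a` and `d, g d` on one disc, `p, g p` and `s, g s` at the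
other ends -/
def refold {E : Type} [DecidableEq E] (g : Equiv.Perm E) (a d p s : E) : Equiv.Perm E :=
  g * Equiv.swap a d * Equiv.swap (g a) (g d) * Equiv.swap p s * Equiv.swap (g p) (g s)

/-- the standing hypotheses of a fold -/
structure FoldData {E : Type} (k g : Equiv.Perm E) (a d p s : E) : Prop where
  kk : ∀ e, k (k e) = e
  gg : ∀ e, g (g e) = e
  kne : ∀ e, k e ≠ e
  gne : ∀ e, g e ≠ e
  nodup : [a, g a, d, g d, p, g p, s, g s].Nodup
  /-- `a` and `d` are in the same cycle of `e ↦ k (g e)` -/
  cyc : Equiv.Perm.SameCycle (k * g) a d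
  /-- the disc of `a` is different from those of `p` and `s` -/
  ap : ¬ (orb k g) a p
  as : ¬ (orb k g) a s

/-- the number of cycles, fixed points included -/
noncomputable def nCyc {E : Type} (σ : Equiv.Perm E) : ℕ :=
  Nat.card (Quotient (Equiv.Perm.SameCycle.setoid σ))

/-- HALF: every orbit of two involutions `k`, `g` without fixed points consists of two cycles of
`k * g`, those of `e` and of `g e` -/
def T_HALF : Prop :=
  ∀ (E : Type) [Fintype E] [DecidableEq E] (k g : Equiv.Perm E),
    (∀ e, k (k e) = e) → (∀ e, g (g e) = e) → (∀ e, k e ≠ e) → (∀ e, g e ≠ e) →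
    nCyc (k * g) = 2 * nOrb k g ∧
    (∀ e, ¬ (k * g).SameCycle e (g e)) ∧
    (∀ e f, (k * g).SameCycle e f ↔ (k * g).SameCycle (g e) (g f)) ∧
    (∀ e f, (orb k g) e f ↔ ((k * g).SameCycle e f ∨ (k * g).SameCycle e (g f)))

/-- SWAP: cycles of `σ * swap u v` -/
def T_SWAP : Prop :=
  ∀ (E : Type) [Fintype E] [DecidableEq E] (σ : Equiv.Perm E) (u v : E), u ≠ v →
    nCyc σ ≤ nCyc (σ * Equiv.swap u v) + 1 ∧
    (σ.SameCycle u v → nCyc σ + 1 ≤ nCyc (σ * Equiv.swap u v)) ∧
    (¬ σ.SameCycle u v → (σ * Equiv.swap u v).SameCycle u v ∧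
      ∀ x y, σ.SameCycle x y → (σ * Equiv.swap u v).SameCycle x y) ∧
    (∀ x y, ¬ σ.SameCycle x u → ¬ σ.SameCycle x v →
      (σ.SameCycle x y ↔ (σ * Equiv.swap u v).SameCycle x y))

/-- COUNT: the number of discs does not decrease, and increases if `p` and `s` are on one disc -/
def T_COUNT : Prop :=
  ∀ (E : Type) [Fintype E] [DecidableEq E] (k g : Equiv.Perm E) (a d p s : E),
    FoldData k g a d p s →
      nOrb k g ≤ nOrb k (refold g a d p s) ∧
      ((orb k g) p s → nOrb k g + 1 ≤ nOrb k (refold g a d p s))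

/-- NEW: the new discs. (1) outside the disc of `a` ends on an old disc are on one new disc,
(2) the discs of `p` and `s` are merged, (3) nothing else is merged. -/
def T_NEW : Prop :=
  ∀ (E : Type) [Fintype E] [DecidableEq E] (k g : Equiv.Perm E) (a d p s : E),
    FoldData k g a d p s → ¬ (orb k g) p s →
      (∀ e f, (orb k g) e f → ¬ (orb k g) a e → (orb k (refold g a d p s)) e f) ∧
      (orb k (refold g a d p s)) p s ∧
      (∀ e f, (orb k (refold g a d p s)) e f → (orb k g) e f ∨
        (((orb k g) p e ∨ (orb k g) s e) ∧ ((orb k g) p f ∨ (orb k g) s f)))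

/-! ### folding a simple closed path -/

/-- the strips of `f` and `g` are different -/
def Ribbon.Apart {G : Type} [Group G] (D : Ribbon G) (f g : D.C) : Prop :=
  g ≠ f ∧ g ≠ D.short f ∧ g ≠ D.side f ∧ g ≠ D.short (D.side f)

/-- FOLD -/
def T_FOLD : Prop :=
  ∀ (α : Type) (w : List (α × Bool)) (D : Dia w) (e : D.C) (l : List D.C),
    D.Based → D.IsPath e l e → l ≠ [] → D.label l = 1 →
    (l.map fun f => (Quotient.mk D.disc f)).Nodup →
    l.Pairwise D.Apart →
    ∃ D' : Dia w, D'.Based ∧ Nat.card D'.C = Nat.card D.C ∧ D'.deg = D.deg ∧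
      D.numDiscs + 1 ≤ D'.numDiscs

/-- EDGES: on a closed path without backtracking which visits every disc at most once, the strips
are pairwise different -/
def T_EDGES : Prop :=
  ∀ (G : Type) [Group G] (D : Ribbon G) (e : D.C) (l : List D.C),
    D.IsPath e l e → D.Reduced l → (l.map fun f => (Quotient.mk D.disc f)).Nodup →
    l.Pairwise D.Apart

/-- COVER: a finite cover in which the path becomes simple -/
def T_COVER : Prop :=
  ∀ (α : Type) (w : List (α × Bool)) (D : Dia w) (e : D.C) (l : List D.C),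
    D.Based → D.IsPath e l e → l ≠ [] → D.label l = 1 → D.Reduced l →
    (∀ (i j : ℕ) (hi : i < l.length) (hj : j < l.length), i < j → D.disc l[i] l[j] →
      D.label (l.take i) ≠ D.label (l.take j)) →
    ∃ (D' : Dia w) (k : ℕ) (e' : D'.C) (l' : List D'.C),
      0 < k ∧ D'.Based ∧ Nat.card D'.C = k * Nat.card D.C ∧ D'.deg = k * D.deg ∧
      D'.numDiscs = k * D.numDiscs ∧
      D'.IsPath e' l' e' ∧ l' ≠ [] ∧ D'.label l' = 1 ∧ D'.Reduced l' ∧
      (l'.map fun f => (Quotient.mk D'.disc f)).Nodup

/-- BETTER: a based diagram which is not injective does not minimise `-χ/deg` -/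
def T_BETTER : Prop :=
  ∀ (α : Type) (w : List (α × Bool)) (D : Dia w), D.Based → Nonempty D.C → ¬ D.Injective →
    ∃ D' : Dia w, D'.Based ∧ Nonempty D'.C ∧
      D'.negChi * (D.deg : ℝ) < D.negChi * (D'.deg : ℝ)

/-! ### types of clusters -/

variable {α : Type}

/-- a type of clusters: which types of corners are present, and how they are paired by short
sides of strips -/
abbrev CT {α : Type} (w : List (α × Bool)) : Type := ET w → Option (ET w)

/-- valid types -/
structure CT.Valid {w : List (α × Bool)} (t : CT w) : Prop where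
  pair : ∀ u v, t u = some v → t v = some u ∧ v ≠ u ∧ eletter v = eletter u
  cor : ∀ u, (t u).isSome → (t (ecor u)).isSome

/-- the discs of a cluster of type `t` -/
def CT.disc {w : List (α × Bool)} (t : CT w) : Setoid {u : ET w // (t u).isSome} :=
  Relation.EqvGen.setoid fun u v => v.1 = ecor u.1 ∨ t u.1 = some v.1

noncomputable def CT.nDisc {w : List (α × Bool)} (t : CT w) : ℕ := Nat.card (Quotient t.disc)

noncomputable def CT.nEnd {w : List (α × Bool)} (t : CT w) : ℕ :=
  Nat.card {u : ET w // (t u).isSome}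

/-- the number of base points in a cluster of type `t` (0 or 1) -/
noncomputable def CT.nBase {w : List (α × Bool)} (t : CT w) : ℕ :=
  Nat.card {u : ET w // (t u).isSome ∧ (u.1 : ℕ) = 0 ∧ u.2 = false}

open Classical in
/-- the part of a type which is seen along the letter `s` -/
noncomputable def CT.out {w : List (α × Bool)} (t : CT w) (s : α × Bool) : CT w :=
  fun u => if eletter u = s then t u else none

/-- the same decoration seen from the other end of the edge -/
def CT.flip {w : List (α × Bool)} (d : CT w) : CT w := fun u => (d (eopp u)).map eopp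

open Classical in
/-- a vector of multiplicities of cluster types which satisfies the gluing equations -/
structure Balanced {w : List (α × Bool)} (v : CT w → ℕ) : Prop where
  valid : ∀ t, v t ≠ 0 → t.Valid
  bal : ∀ (s : α × Bool) (d : CT w), (∃ u, (d u).isSome) →
    ∑ t : CT w with t.out s = d, v t = ∑ t : CT w with t.out (linv s) = d.flip, v t

/-- the diagram `D` has the counts given by the vector `v` -/
def Counts {w : List (α × Bool)} (D : Dia w) (v : CT w → ℕ) : Prop :=
  Nat.card D.C = ∑ t : CT w, v t * t.nEnd ∧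
  D.numDiscs = ∑ t : CT w, v t * t.nDisc ∧
  D.deg = ∑ t : CT w, v t * t.nBase

/-- VEC: every based diagram has a vector -/
def T_VEC : Prop :=
  ∀ (α : Type) (w : List (α × Bool)) (D : Dia w), D.Based →
    ∃ v : CT w → ℕ, Balanced v ∧ Counts D v

/-- REAL: every balanced vector is realised by a based diagram -/
def T_REAL : Prop :=
  ∀ (α : Type) (w : List (α × Bool)) (v : CT w → ℕ), Balanced v →
    ∃ D : Dia w, D.Based ∧ Counts D v

/-- MIN: the minimum of `-χ/deg` over all based diagrams is attained -/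
def T_MIN : Prop :=
  ∀ (α : Type) (w : List (α × Bool)), (∃ D : Dia w, Nonempty D.C ∧ D.Based) →
    ∃ D : Dia w, Nonempty D.C ∧ D.Based ∧
      ∀ D' : Dia w, Nonempty D'.C → D'.Based →
        D.negChi * (D'.deg : ℝ) ≤ D'.negChi * (D.deg : ℝ)

/-! ### diagrams of degree one -/

/-- STEP: removing two adjacent inverse letters -/
def T_STEP : Prop :=
  ∀ (α : Type) (A B : List (α × Bool)) (s : α × Bool) (G : Glu (A ++ s :: linv s :: B)),
    A ++ B ≠ [] → ∃ G' : Glu (A ++ B), G.nd ≤ G'.nd + 1

/-- CAT: boundary connected sum -/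
def T_CAT : Prop :=
  ∀ (α : Type) (W V : List (α × Bool)) (G : Glu W) (H : Glu V), W ≠ [] → V ≠ [] →
    ∃ K : Glu (W ++ V), G.nd + H.nd ≤ K.nd + 1

/-- SQ: Moebius band -/
def T_SQ : Prop :=
  ∀ (α : Type) (u : List (α × Bool)), u ≠ [] → ∃ G : Glu (u ++ u), u.length ≤ G.nd

/-- COMM: one-holed torus -/
def T_COMM : Prop :=
  ∀ (α : Type) (u v : List (α × Bool)), u ≠ [] → v ≠ [] →
    ∃ G : Glu (u ++ v ++ FreeGroup.invRev u ++ FreeGroup.invRev v),
      u.length + v.length ≤ G.nd + 1

/-- ONE: diagrams of degree one from products of squares and of commutators -/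
def T_ONE : Prop :=
  ∀ (α : Type) [DecidableEq α] (w : FreeGroup α), w ≠ 1 →
    (∀ l : List (FreeGroup α), w = (l.map fun a => a ^ 2).prod →
      ∃ D : Dia w.toWord, D.deg = 1 ∧ D.negChi ≤ (l.length : ℝ) - 1) ∧
    (∀ l : List (FreeGroup α × FreeGroup α),
      w = (l.map fun p => p.1 * p.2 * p.1⁻¹ * p.2⁻¹).prod →
      ∃ D : Dia w.toWord, D.deg = 1 ∧ D.negChi ≤ 2 * (l.length : ℝ) - 1)

/-- CONV: efficient letter-level diagrams are efficient diagrams -/
def T_CONV : Prop :=
  ∀ (α : Type) (L : List (α × Bool)) (D : Dia L), Nonempty D.C → D.Based → D.Injective →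
    ∃ D' : Diagram (FreeGroup.mk L), D'.Efficient ∧ D'.negChi = D.negChi ∧ D'.deg = D.deg

/-- MAIN -/
def T_MAIN : Prop :=
  ∀ (r : ℕ) (w : FreeGroup (Fin r)), ssql w ≤ (((sqlStar w : ℕ∞) : ENNReal) : EReal) - 1

end Pool.Agent.SqLen
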